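import Mathlib
import Pool.Agent.MP_19ffc6_ag.LU3.Kn
import Pool.Agent.MP_19ffc6_ag.LU3.MainA
import Pool.Agent.MP_19ffc6_ag.LU3.Term

namespace Pool.Agent.MP_19ffc6_ag.LargePParked

open NNReal Pool.Agent.MP_19ffc6_ag.LU3

theorem result (p : ℕ) [Fact p.Prime] (k : Type*) [Field k] [IsAlgClosed k] [CharP k p]
    (F : Type*) [Field F] [Algebra k F] (hF : (⊤ : IntermediateField k F).FG)
    (n : ℕ) (htr : Algebra.trdeg k F ≤ n) (hp : n.factorial < p)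
    (v : Valuation F ℝ≥0) (hk : ∀ c : k, c ≠ 0 → v (algebraMap k F c) = 1)
    (hres : ∀ a : F, v a ≤ 1 → ∃ c : k, v (a - algebraMap k F c) < 1)
    (Z : Finset F) (hZ : ∀ z ∈ Z, v z ≤ 1) :
    ∃ A : Subalgebra k F, A.FG ∧ (∀ a ∈ A, v a ≤ 1) ∧ (∀ z ∈ Z, z ∈ A) ∧
      IsFractionRing A F ∧ Algebra.Smooth k A := by
  classical
  exact glue3 k F n (fun _ _ _ _ _ _ => core3_of (fun _ h => asc h) (fun _ _ => descT)
    (fun _ => pstmt p fun ih adj _ pq => swap p (kn p) ih adj pq) hp) hF v hk hres htr Z hZ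

end Pool.Agent.MP_19ffc6_ag.LargePParked
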