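import Mathlib.RingTheory.Invariant.Defs
import Mathlib.RingTheory.Smooth.Fiber
import Mathlib.RingTheory.SimpleRing.Principal
import Mathlib.RingTheory.TotallySplit
import Mathlib.RingTheory.Henselian
import Mathlib.RingTheory.RegularLocalRing.Defs

/-! Commutative algebra: descent of smoothness, a flatness criterion, Newton interpolation. -/

namespace Pool.Agent.MP_19ffc6_ag.Wild

open Polynomial TensorProduct

lemma formallySmooth_of_retract {k O R : Type} [CommRing k] [CommRing O] [CommRing R]
    [Algebra k O] [Algebra k R] [Algebra.FormallySmooth k R] (i : O →ₐ[k] R) (ρ : R →ₐ[k] O)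
    (h : ∀ x, ρ (i x) = x) : Algebra.FormallySmooth k O := by
  refine .of_comp_surjective fun D _ _ I hI φ => ?_
  obtain ⟨ψ, hψ⟩ := Algebra.FormallySmooth.comp_surjective k R I hI (φ.comp ρ)
  refine ⟨ψ.comp i, AlgHom.ext fun x => ?_⟩
  have := congr($hψ (i x))
  simpa [h] using this

lemma exists_section_of_adjoinRoot {k R D : Type} [CommRing k] [CommRing R] [Algebra k R]
    [CommRing D] [Algebra k D] (π : D →ₐ[k] R) (hπ : Function.Surjective π)
    (hsq : RingHom.ker π.toRingHom ^ 2 = ⊥)
    [Nontrivial R] (χ : R[X]) (hχ : χ.Monic) (h0 : 0 < χ.natDegree)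
    [Algebra.FormallySmooth k (AdjoinRoot χ)] : ∃ g : R →ₐ[k] D, π.comp g = AlgHom.id k R := by
  obtain ⟨χ', h1, h2, h3⟩ := lifts_and_natDegree_eq_and_monic
    (f := π.toRingHom) (p := χ) (mem_lifts_of_surjective hπ χ) hχ
  have : Nontrivial D := π.toRingHom.domain_nontrivial
  let Φ : AdjoinRoot χ' →ₐ[k] AdjoinRoot χ :=
    AdjoinRoot.liftAlgHom χ' ((AdjoinRoot.ofAlgHom k χ).comp π) (AdjoinRoot.root χ) (by
      have : (((AdjoinRoot.ofAlgHom k χ).comp π : D →ₐ[k] _) : D →+* _) =
        (AdjoinRoot.of χ).comp π.toRingHom := rfl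
      rw [this, ← eval₂_map, h1, AdjoinRoot.eval₂_root])
  have hΦ : ∀ p : D[X], Φ (AdjoinRoot.mk χ' p) = AdjoinRoot.mk χ (p.map π.toRingHom) := by
    intro p
    induction p using Polynomial.induction_on' with
    | add p q hp hq => simp only [map_add, Polynomial.map_add, hp, hq]
    | monomial n a =>
      rw [← C_mul_X_pow_eq_monomial]
      simp [Φ]
  have hΦs : Function.Surjective Φ := fun x => by
    obtain ⟨p, rfl⟩ := AdjoinRoot.mk_surjective x
    obtain ⟨p, rfl⟩ := map_surjective π.toRingHom hπ p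
    exact ⟨_, hΦ p⟩
  let c : AdjoinRoot χ' →ₗ[D] D := (lcoeff D 0).comp (AdjoinRoot.modByMonicHom h3)
  have hc : ∀ d : D, c (algebraMap D _ d) = d := fun d => by
    change ((AdjoinRoot.modByMonicHom h3) (AdjoinRoot.mk χ' (C d))).coeff 0 = d
    rw [AdjoinRoot.modByMonicHom_mk, (modByMonic_eq_self_iff h3).2, coeff_C_zero]
    exact degree_C_le.trans_lt (natDegree_pos_iff_degree_pos.1 (by omega))
  have hker : ∀ x, Φ x = 0 → ∀ i, π ((AdjoinRoot.modByMonicHom h3 x).coeff i) = 0 := by
    intro x hx i
    obtain ⟨p, rfl⟩ := AdjoinRoot.mk_surjective x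
    rw [hΦ, AdjoinRoot.mk_eq_zero, ← modByMonic_eq_zero_iff_dvd hχ, ← h1,
      ← map_modByMonic _ h3] at hx
    have := congrArg (fun q => q.coeff i) hx
    simpa using this
  have hker' : RingHom.ker Φ.toRingHom ≤
      (RingHom.ker π.toRingHom).map (algebraMap D (AdjoinRoot χ')) := by
    intro x hx
    have h4 : x = AdjoinRoot.mk χ' (AdjoinRoot.modByMonicHom h3 x) :=
      (AdjoinRoot.mk_leftInverse h3 x).symm
    rw [h4, (AdjoinRoot.modByMonicHom h3 x).as_sum_support, map_sum]
    refine Ideal.sum_mem _ fun i _ => ?_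
    rw [← C_mul_X_pow_eq_monomial, map_mul]
    exact Ideal.mul_mem_right _ _ (Ideal.mem_map_of_mem _ (hker x hx i))
  have hsq' : RingHom.ker Φ.toRingHom ^ 2 = ⊥ := by
    refine eq_bot_iff.2 ((Ideal.pow_right_mono hker' 2).trans ?_)
    rw [← Ideal.map_pow, hsq, Ideal.map_bot]
  let ψ := Algebra.FormallySmooth.liftOfSurjective (AlgHom.id k _) Φ hΦs ⟨2, hsq'⟩
  have hψ : ∀ x, Φ (ψ x) = x := fun x => Algebra.FormallySmooth.liftOfSurjective_apply _ _ _ _ x
  have hδ : ∀ r, ∃ d δ, π d = r ∧ Φ δ = 0 ∧ ψ (AdjoinRoot.of χ r) = algebraMap D _ d + δ := by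
    intro r
    obtain ⟨d, rfl⟩ := hπ r
    refine ⟨d, ψ (AdjoinRoot.of χ (π d)) - algebraMap D _ d, rfl, ?_, by ring⟩
    rw [map_sub, hψ, sub_eq_zero]
    simp [Φ]
  have hmul : ∀ (d : D) x, c (algebraMap D _ d * x) = d * c x := fun d x => by
    rw [← Algebra.smul_def, map_smul, smul_eq_mul]
  refine ⟨{ toFun := fun r => c (ψ (AdjoinRoot.of χ r))
            map_one' := by rw [map_one, map_one, ← map_one (algebraMap D _), hc]
            map_mul' := fun r r' => ?_
            map_zero' := by simp
            map_add' := fun r r' => by simp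
            commutes' := fun r => ?_ }, AlgHom.ext fun r => ?_⟩
  · obtain ⟨d, δ, -, h5, h6⟩ := hδ r
    obtain ⟨d', δ', -, h5', h6'⟩ := hδ r'
    have h7 : δ * δ' = 0 := by
      have := Ideal.mul_mem_mul (show δ ∈ RingHom.ker Φ.toRingHom from h5)
        (show δ' ∈ RingHom.ker Φ.toRingHom from h5')
      rwa [← pow_two, hsq', Ideal.mem_bot] at this
    have h8 : c δ * c δ' = 0 := by
      have := Ideal.mul_mem_mul (show c δ ∈ RingHom.ker π.toRingHom from hker δ h5 0)
        (show c δ' ∈ RingHom.ker π.toRingHom from hker δ' h5' 0)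
      rwa [← pow_two, hsq, Ideal.mem_bot] at this
    have h9 : (algebraMap D _ d + δ) * (algebraMap D _ d' + δ') =
        algebraMap D (AdjoinRoot χ') (d * d') + algebraMap D _ d * δ' + algebraMap D _ d' * δ := by
      rw [map_mul]; linear_combination h7
    rw [map_mul, map_mul, h6, h6', h9]
    simp only [map_add, hmul, hc]
    linear_combination -h8
  · have : AdjoinRoot.of χ (algebraMap k R r) = algebraMap k _ r := rfl
    rw [this, AlgHom.commutes, IsScalarTower.algebraMap_apply k D, hc]
  · obtain ⟨d, δ, h4, h5, h6⟩ := hδ r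
    change π (c (ψ (AdjoinRoot.of χ r))) = r
    rw [h6, map_add, hc, map_add, h4]
    have : π (c δ) = 0 := hker δ h5 0
    rw [this, add_zero]

lemma formallySmooth_of_adjoinRoot {k R : Type} [CommRing k] [CommRing R] [Algebra k R]
    [Nontrivial R] (χ : R[X]) (hχ : χ.Monic) (h0 : 0 < χ.natDegree)
    [Algebra.FormallySmooth k (AdjoinRoot χ)] : Algebra.FormallySmooth k R := by
  let f : MvPolynomial R k →ₐ[k] R := MvPolynomial.aeval id
  have hf : Function.Surjective f := fun r => ⟨MvPolynomial.X r, by simp [f]⟩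
  rw [Algebra.FormallySmooth.iff_split_surjection f hf]
  have hπ : Function.Surjective f.kerSquareLift := fun r => by
    obtain ⟨x, rfl⟩ := hf r
    exact ⟨Ideal.Quotient.mk _ x, rfl⟩
  have hsq : RingHom.ker f.kerSquareLift.toRingHom ^ 2 = ⊥ := by
    rw [AlgHom.ker_kerSquareLift, Ideal.cotangentIdeal_square]
  exact exists_section_of_adjoinRoot _ hπ hsq χ hχ h0

lemma flat_of_param {R S : Type} [CommRing R] [CommRing S] [Algebra R S] [IsNoetherianRing R]
    [IsNoetherianRing S] [IsLocalRing S] (hinj : Function.Injective (algebraMap R S)) (τ : R)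
    (hτ : algebraMap R S τ ∈ IsLocalRing.maximalIdeal S)
    (hreg : ∀ s : S, algebraMap R S τ * s = 0 → s = 0)
    (h1 : ∀ s : S, ∃ r s', s = algebraMap R S r + algebraMap R S τ * s')
    (h2 : ∀ (r : R) (s : S), algebraMap R S r = algebraMap R S τ * s → ∃ r', r = τ * r') :
    Module.Flat R S := by
  have h1' : ∀ (n : ℕ) (s : S), ∃ r s', s = algebraMap R S r + algebraMap R S τ ^ n * s' := by
    intro n s
    induction n with
    | zero => exact ⟨0, s, by simp⟩
    | succ n ih =>
      obtain ⟨r, s', e⟩ := ih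
      obtain ⟨r', s'', e'⟩ := h1 s'
      exact ⟨r + τ ^ n * r', s'', by rw [e, e']; simp only [map_add, map_mul, map_pow]; ring⟩
  have h2' : ∀ (n : ℕ) (r : R) (s : S), algebraMap R S r = algebraMap R S τ ^ n * s →
      ∃ r', r = τ ^ n * r' := by
    intro n
    induction n with
    | zero => exact fun r _ _ => ⟨r, by simp⟩
    | succ n ih =>
      intro r s e
      obtain ⟨r', rfl⟩ := h2 r (algebraMap R S τ ^ n * s) (by rw [e]; ring)
      obtain ⟨r'', rfl⟩ := ih r' s (sub_eq_zero.1 (hreg _ (by
        rw [mul_sub, ← map_mul, e]; ring)))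
      exact ⟨r'', by ring⟩
  refine Module.Flat.of_forall_isTrivialRelation fun {l f x} hx => ?_
  let 𝔟 : Ideal R := Ideal.span (Set.range f)
  obtain ⟨c, hc⟩ : ∃ c : ℕ, ∀ y, τ ^ (c + 1) * y ∈ 𝔟 → τ ^ c * y ∈ 𝔟 := by
    let ch : ℕ →o Ideal R := ⟨fun n => Submodule.comap (LinearMap.mulLeft R (τ ^ n)) 𝔟,
      monotone_nat_of_le_succ fun n y hy => by
        change τ ^ (n + 1) * y ∈ 𝔟
        rw [pow_succ', mul_assoc]
        exact Ideal.mul_mem_left _ _ hy⟩
    obtain ⟨c, hc⟩ := monotone_stabilizes_iff_noetherian.2 inferInstance ch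
    refine ⟨c, fun y hy => ?_⟩
    have : y ∈ ch (c + 1) := hy
    rwa [← hc (c + 1) (by omega)] at this
  let lin : (Fin l → S) →ₗ[S] S := Fintype.linearCombination S fun i => algebraMap R S (f i)
  let linR : (Fin l → R) →ₗ[R] R := Fintype.linearCombination R f
  obtain ⟨m, a, ha⟩ := Submodule.fg_iff_exists_fin_generating_family.1
    (IsNoetherian.noetherian (LinearMap.ker linR))
  let K0 : Submodule S (Fin l → S) :=
    Submodule.span S (Set.range fun j i => algebraMap R S (a j i))
  have hK0 : ∀ v ∈ LinearMap.ker linR, (fun i => algebraMap R S (v i)) ∈ K0 := by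
    intro v hv
    rw [← ha] at hv
    induction hv using Submodule.span_induction with
    | mem v hv => obtain ⟨j, rfl⟩ := hv; exact Submodule.subset_span ⟨j, rfl⟩
    | zero => convert zero_mem K0 using 1; ext; simp
    | add v w _ _ hv hw => convert add_mem hv hw using 1; ext; simp
    | smul r v _ hv => convert K0.smul_mem (algebraMap R S r) hv using 1; ext; simp
  have hle : LinearMap.ker lin ≤ K0 := by
    refine Submodule.le_of_le_smul_of_le_jacobson_bot (I := IsLocalRing.maximalIdeal S)
      (IsNoetherian.noetherian _) (IsLocalRing.maximalIdeal_le_jacobson _) fun o ho => ?_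
    choose p o' hp using fun i => h1' (c + 1) (o i)
    have ho' : ∑ i, o i * algebraMap R S (f i) = 0 := by
      simpa [lin, Fintype.linearCombination_apply] using ho
    obtain ⟨y, hy⟩ := h2' (c + 1) (∑ i, p i * f i) (-∑ i, o' i * algebraMap R S (f i)) (by
      rw [map_sum, mul_neg, eq_neg_iff_add_eq_zero, Finset.mul_sum, ← Finset.sum_add_distrib,
        ← ho']
      exact Finset.sum_congr rfl fun i _ => by rw [hp i, map_mul]; ring)
    have h3 : τ ^ c * y ∈ 𝔟 := hc y (by
      rw [← hy]
      exact Ideal.sum_mem _ fun i _ => Ideal.mul_mem_left _ _ (Ideal.subset_span ⟨i, rfl⟩))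
    obtain ⟨α, hα⟩ := Ideal.mem_span_range_iff_exists_fun.1 h3
    have h4 : (fun i => p i - τ * α i) ∈ LinearMap.ker linR := by
      simp only [linR, LinearMap.mem_ker, Fintype.linearCombination_apply, smul_eq_mul, sub_mul,
        Finset.sum_sub_distrib, hy, mul_assoc, ← Finset.mul_sum, hα]
      ring
    let o'' : Fin l → S := fun i => algebraMap R S (α i) + algebraMap R S τ ^ c * o' i
    have h5 : o = (fun i => algebraMap R S (p i - τ * α i)) + algebraMap R S τ • o'' := by
      ext i
      simp only [o'', Pi.add_apply, Pi.smul_apply, smul_eq_mul, map_sub, map_mul]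
      rw [hp i]; ring
    have h6 : lin (fun i => algebraMap R S (p i - τ * α i)) = 0 := by
      have := congrArg (algebraMap R S) (LinearMap.mem_ker.1 h4)
      simpa [lin, linR, Fintype.linearCombination_apply] using this
    have h7 : o'' ∈ LinearMap.ker lin := by
      apply hreg
      have := LinearMap.mem_ker.1 ho
      rwa [h5, map_add, h6, zero_add, map_smul] at this
    rw [h5]
    exact Submodule.add_mem_sup (hK0 _ h4) (Submodule.smul_mem_smul hτ h7)
  have hxK : x ∈ K0 := hle (by
    simpa [lin, Fintype.linearCombination_apply, Algebra.smul_def, mul_comm] using hx)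
  obtain ⟨y, hy⟩ := (Submodule.mem_span_range_iff_exists_fun S).1 hxK
  refine ⟨m, fun i j => a j i, y, fun i => ?_, fun j => ?_⟩
  · rw [← hy]; simp [Algebra.smul_def, mul_comm]
  · have : a j ∈ LinearMap.ker linR := ha ▸ Submodule.subset_span ⟨j, rfl⟩
    simpa [linR, Fintype.linearCombination_apply, mul_comm] using this

lemma formallySmooth_of_param {R S : Type} [CommRing R] [CommRing S] [Algebra R S]
    [IsNoetherianRing R] [IsLocalRing R] [IsLocalRing S] [IsLocalHom (algebraMap R S)]
    [Module.Flat R S] [Algebra.EssFiniteType R S] (τ : R) (hτ : τ ∈ IsLocalRing.maximalIdeal R)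
    (h1 : ∀ s : S, ∃ r s', s = algebraMap R S r + algebraMap R S τ * s') :
    Algebra.FormallySmooth R S := by
  have : Module.FaithfullyFlat R S := .of_flat_of_isLocalHom
  have : Algebra.FormallySmooth (IsLocalRing.ResidueField R)
      (IsLocalRing.ResidueField R ⊗[R] S) := by
    refine .of_equiv (AlgEquiv.ofBijective (Algebra.ofId _ _) ⟨RingHom.injective _, fun z => ?_⟩)
    induction z with
    | zero => exact ⟨0, map_zero _⟩
    | add x y hx hy =>
      obtain ⟨x, rfl⟩ := hx
      obtain ⟨y, rfl⟩ := hy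
      exact ⟨x + y, map_add _ _ _⟩
    | tmul a s =>
      obtain ⟨r, s', rfl⟩ := h1 s
      refine ⟨r • a, ?_⟩
      have h2 : τ • a = 0 := by
        rw [Algebra.smul_def, IsLocalRing.ResidueField.algebraMap_eq,
          (IsLocalRing.residue_eq_zero_iff _).2 hτ, zero_mul]
      rw [tmul_add, ← Algebra.smul_def, tmul_smul, smul_tmul', h2, zero_tmul, add_zero,
        Algebra.algebraMap_eq_smul_one, tmul_smul, smul_tmul']
      rfl
  have : Algebra.FinitePresentation R (Algebra.EssFiniteType.subalgebra R S) :=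
    Algebra.FinitePresentation.of_finiteType.1 inferInstance
  exact Algebra.FormallySmooth.of_formallySmooth_residueField_tensor
    (Algebra.EssFiniteType.submonoid R S)

lemma newton {B γ : Type} [CommRing B] [DecidableEq γ] (t y : γ → B)
    (hu : ∀ h, ∃ e : B[X], (∀ g, e.eval (t g) * (t g - t h) = y g - y h) ∧
      ∀ g, g ≠ h → IsUnit (e.eval (t g))) (s : Finset γ) :
    ∀ β : B[X], ∃ P : B[X], P.degree < s.card ∧ ∀ g ∈ s, P.eval (y g) = β.eval (t g) := by
  induction s using Finset.induction_on with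
  | empty => exact fun β => ⟨0, by simp, by simp⟩
  | insert h s hh ih =>
    intro β
    obtain ⟨e, he, he'⟩ := hu h
    have hinv : ∀ s' : Finset γ, h ∉ s' →
        ∃ ι : B[X], ∀ g ∈ s', e.eval (t g) * ι.eval (t g) = 1 := by
      intro s' hs'
      induction s' using Finset.induction_on with
      | empty => exact ⟨0, by simp⟩
      | insert g0 s' _ ih' =>
        obtain ⟨ι, hι⟩ := ih' fun h => hs' (Finset.mem_insert_of_mem h)
        obtain ⟨u, hu⟩ := (he' g0 fun e => hs' (e ▸ Finset.mem_insert_self _ _)).exists_right_inv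
        refine ⟨ι + C u - C u * e * ι, fun g hg => ?_⟩
        simp only [eval_sub, eval_add, eval_mul, eval_C]
        rcases Finset.mem_insert.1 hg with rfl | hg
        · linear_combination (1 - eval (t g) e * eval (t g) ι) * hu
        · linear_combination (1 - u * eval (t g) e) * hι g hg
    obtain ⟨ι, hι⟩ := hinv s hh
    obtain ⟨P, hP, hP'⟩ := ih ((β /ₘ (X - C (t h))) * ι)
    refine ⟨C (β.eval (t h)) + (X - C (y h)) * P, ?_, fun g hg => ?_⟩
    · rw [Finset.card_insert_of_notMem hh]
      refine (degree_add_le _ _).trans_lt (max_lt (degree_C_le.trans_lt ?_)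
        ((degree_mul_le _ _).trans_lt ?_))
      · exact_mod_cast Nat.succ_pos _
      refine (add_le_add_left (degree_X_sub_C_le _) _).trans_lt ?_
      rw [add_comm]; push_cast
      exact WithBot.add_lt_add_right (by simp) hP
    · simp only [eval_sub, eval_add, eval_mul, eval_C, eval_X]
      rcases Finset.mem_insert.1 hg with rfl | hg
      · simp
      · have h1 := congrArg (eval (t g)) (modByMonic_add_div β (X - C (t h)))
        rw [modByMonic_X_sub_C_eq_C_eval] at h1
        simp only [eval_sub, eval_add, eval_mul, eval_C, eval_X] at h1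
        rw [hP' g hg, eval_mul, ← he g, ← h1]
        linear_combination (t g - t h) * eval (t g) (β /ₘ (X - C (t h))) * hι g hg

lemma monogenic {R B G : Type} [CommRing R] [CommRing B] [IsDomain B] [Algebra R B] [Group G]
    [Fintype G] [MulSemiringAction G B] [SMulCommClass G R B] [Algebra.IsInvariant R B G]
    (hinj : Function.Injective (algebraMap R B)) (f : B)
    (hf : Function.Injective fun g : G => g • f)
    (hP : ∀ b : B, ∃ P : B[X], P.degree < Fintype.card G ∧ ∀ g : G, P.eval (g • f) = g • b) :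
    Function.Surjective (aeval (R := R) f) ∧ ∃ χ : R[X], χ.Monic ∧ 0 < χ.natDegree ∧
      χ.map (algebraMap R B) = ∏ g : G, (X - C (g • f)) ∧
      RingHom.ker (aeval (R := R) f) = Ideal.span {χ} := by
  have hvan : ∀ P : B[X], P.degree < Fintype.card G → (∀ g : G, P.eval (g • f) = 0) → P = 0 := by
    intro P h1 h2
    by_cases h0 : P = 0
    · exact h0
    exact eq_zero_of_natDegree_lt_card_of_eval_eq_zero P hf h2
      ((natDegree_lt_iff_degree_lt h0).2 h1)
  have hlift : ∀ P : B[X], (∀ g : G, g • P = P) → P ∈ lifts (algebraMap R B) := by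
    intro P h
    rw [lifts_iff_coeff_lifts]
    intro n
    exact Algebra.IsInvariant.isInvariant (G := G) _ fun g => by rw [← coeff_smul, h]
  constructor
  · intro b
    obtain ⟨P, h1, h2⟩ := hP b
    have h4 : ∀ h : G, h • P = P := fun h => by
      refine sub_eq_zero.1 (hvan _ ?_ fun g => ?_)
      · refine (degree_sub_le _ _).trans_lt (max_lt (lt_of_le_of_lt ?_ h1) h1)
        rw [smul_eq_map]; exact degree_map_le
      · have := smul_eval_smul B h P ((h⁻¹ * g) • f)
        rw [smul_smul, mul_inv_cancel_left, h2, smul_smul, mul_inv_cancel_left] at this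
        rw [eval_sub, this, h2, sub_self]
    obtain ⟨P', h3⟩ := hlift P h4
    refine ⟨P', ?_⟩
    have := h2 1
    rw [one_smul, one_smul, ← h3] at this
    rw [← this, aeval_def, eval₂_eq_eval_map]; rfl
  · have hm : (∏ g : G, (X - C (g • f))).Monic := monic_prod_of_monic _ _ fun _ _ => monic_X_sub_C _
    have hd : (∏ g : G, (X - C (g • f))).natDegree = Fintype.card G := by
      rw [natDegree_prod_of_monic _ _ fun _ _ => monic_X_sub_C _]; simp
    obtain ⟨χ, h1, h2, h3⟩ := lifts_and_natDegree_eq_and_monic (hlift _ fun h => by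
      rw [Finset.smul_prod']
      refine Fintype.prod_bijective (h * ·) (Group.mulLeft_bijective h) _ _ fun g => ?_
      rw [smul_sub, smul_X, smul_C, smul_smul]) hm
    have : Nontrivial R := (algebraMap R B).domain_nontrivial
    have hroot : ∀ g : G, aeval (g • f) χ = 0 := fun g => by
      rw [aeval_def, eval₂_eq_eval_map, h1, eval_prod]
      exact Finset.prod_eq_zero (Finset.mem_univ g) (by simp)
    refine ⟨χ, h3, by rw [h2, hd]; exact Fintype.card_pos, h1, le_antisymm (fun p hp => ?_) ?_⟩
    · rw [Ideal.mem_span_singleton, ← modByMonic_eq_zero_iff_dvd h3]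
      apply map_injective _ hinj
      rw [Polynomial.map_zero]
      refine hvan _ (degree_map_le.trans_lt ?_) fun g => ?_
      · rw [← hd, ← h2, ← degree_eq_natDegree h3.ne_zero]
        exact degree_modByMonic_lt _ h3
      · have h4 : aeval (g • f) p = 0 := by
          have := (aeval_algHom_apply (MulSemiringAction.toAlgHom R B g) f p)
          rw [RingHom.mem_ker.1 hp, map_zero] at this
          exact this
        rw [← eval₂_eq_eval_map, ← aeval_def, aeval_modByMonic_eq_self_of_root (hroot g), h4]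
    · rw [Ideal.span_le, Set.singleton_subset_iff]
      simpa using hroot 1

end Pool.Agent.MP_19ffc6_ag.Wild
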