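import Pool.Agent.MP_19ffc6_ag.VecStep

/-! The coordinate ring of a chart is a polynomial ring containing the invariants. -/

namespace Pool.Agent.MP_19ffc6_ag.Wild

open Submodule Matrix

variable {F k L : Type} [Field F] [Fintype F] [Field k] [Field L] [Algebra F k] [Algebra k L]
  [Algebra F L] [IsScalarTower F k L] {m n : ℕ}

lemma isIntegral_of_frob {R : Subalgebra k L} [IsNoetherianRing R] {q : ℕ} (hq : 1 < q) {x : L}
    {W : Submodule R L} (hW : W.FG) (h : ∀ j, x ^ q ^ j ∈ W) : IsIntegral R x := by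
  let N : ℕ →o Submodule R L := ⟨fun j => span R (Set.range fun i : Fin j => x ^ q ^ i.1),
    fun a b hab => span_mono (by rintro _ ⟨i, rfl⟩; exact ⟨i.castLE hab, rfl⟩)⟩
  obtain ⟨j, hj⟩ := (hW.of_le (iSup_le fun j => span_le.2 (by
    rintro _ ⟨i, rfl⟩; exact h i))).stabilizes_of_iSup_eq N rfl
  obtain ⟨r, hr⟩ := (mem_span_range_iff_exists_fun R).1
    (hj.le (le_iSup N (j + 1) (subset_span ⟨Fin.last j, rfl⟩)))
  refine ⟨Polynomial.X ^ q ^ j - ∑ i : Fin j, Polynomial.C (r i) * Polynomial.X ^ q ^ i.1,
    Polynomial.monic_X_pow_sub ((Polynomial.degree_sum_le _ _).trans_lt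
      ((Finset.sup_lt_iff (WithBot.bot_lt_coe _)).2 fun i _ =>
        (Polynomial.degree_C_mul_X_pow_le _ _).trans_lt ?_)), ?_⟩
  · exact_mod_cast Nat.pow_lt_pow_right hq i.2
  · simpa [Polynomial.eval₂_finsetSum, sub_eq_zero, Algebra.smul_def] using hr.symm

lemma exists_eq_of_pow_card {Ω : Type} [Field Ω] [Algebra F Ω] {x : Ω}
    (h : x ^ Fintype.card F = x) : ∃ c, algebraMap F Ω c = x :=
  Polynomial.Splits.mem_range_of_isRoot (f := Polynomial.X ^ Fintype.card F - Polynomial.X)
    (Polynomial.splits_iff_card_roots.2 (by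
      rw [FiniteField.roots_X_pow_card_sub_X,
        FiniteField.X_pow_card_sub_X_natDegree_eq F Fintype.one_lt_card]
      rfl))
    (FiniteField.X_pow_card_sub_X_ne_zero F Fintype.one_lt_card) (by simp [h])

lemma mul_apply_single {Ω : Type} [CommRing Ω] {lev : Fin n → ℕ} {M N : Matrix (Fin n) (Fin n) Ω}
    (hM : M.BlockTriangular lev) (hN : N.BlockTriangular lev) {a : Fin n}
    (ha : ∀ b, lev b = lev a → b = a) : (M * N) a a = M a a * N a a := by
  rw [mul_apply]
  refine Finset.sum_eq_single a (fun b _ hb => ?_) (by simp)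
  rcases lt_trichotomy (lev b) (lev a) with h | h | h
  exacts [by rw [hM h, zero_mul], absurd (ha b h) hb, by rw [hN h, mul_zero]]

open scoped IntermediateField.algebraAdjoinAdjoin in
lemma final [Algebra (MvPolynomial (Fin m × Fin n) k) L]
    [IsScalarTower k (MvPolynomial (Fin m × Fin n) k) L]
    [IsFractionRing (MvPolynomial (Fin m × Fin n) k) L] {lev h : Fin n → ℕ}
    {v : Fin m → Fin n → L}
    (hv0 : ∀ i a, v i a = algebraMap (MvPolynomial (Fin m × Fin n) k) L (.X (i, a)))
    (c : Fin m × Fin n → L) (E : Matrix (Fin n) (Fin n) L) (hE : E.det ≠ 0)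
    (hE0 : E.BlockTriangular lev)
    (hv : ∀ i, v i ∈ span (Algebra.adjoin k (Set.range c)) (Set.range E))
    (hφ : ∀ a, FiniteField.frobeniusAlgHom F L ∘ E a ∈
      span (Algebra.adjoin k (Set.range c)) (Set.range E))
    (hy : ∀ a, (∀ b, lev b = lev a → b = a) → E a a ^ h a ∈ Algebra.adjoin k (Set.range c)) :
    Algebra.FormallySmooth k (Algebra.adjoin k (Set.range c)) ∧
      ∀ f : MvPolynomial (Fin m × Fin n) k, (∀ g : GL (Fin n) F,
        (∀ a b, lev a < lev b → g a b = 0) →
        (∀ a, (∀ b, lev b = lev a → b = a) → g a a ^ h a = 1) → MvPolynomial.aeval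
          (fun x => ∑ b, algebraMap F k (g x.2 b) • MvPolynomial.X (x.1, b)) f = f) →
        algebraMap _ L f ∈ Algebra.adjoin k (Set.range c) := by
  classical
  set R := Algebra.adjoin k (Set.range c)
  let P := MvPolynomial (Fin m × Fin n) k
  let φ := FiniteField.frobeniusAlgHom F L
  have hq : ∀ x, φ.toRingHom x = x ^ Fintype.card F := fun _ => rfl
  have : Algebra.FiniteType k R := .adjoin_of_finite (Set.finite_range c)
  have : IsNoetherianRing R := Algebra.FiniteType.isNoetherianRing k R
  have hae : ∀ f : P, algebraMap P L f = MvPolynomial.aeval (fun x => v x.1 x.2) f := fun f =>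
    DFunLike.congr_fun (MvPolynomial.algHom_ext (f := IsScalarTower.toAlgHom k P L)
      (g := MvPolynomial.aeval fun x => v x.1 x.2) fun x => by
        rw [MvPolynomial.aeval_X, hv0]; rfl) f
  have hint : ∀ f : P, IsIntegral R (algebraMap P L f) := fun f => by
    have : Algebra.adjoin k (Set.range fun x : Fin m × Fin n => v x.1 x.2) ≤
        (integralClosure R L).restrictScalars k := Algebra.adjoin_le (by
      rintro _ ⟨⟨i, a⟩, rfl⟩
      change IsIntegral R (v i a)
      refine isIntegral_of_frob (Fintype.one_lt_card (α := F))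
        ((fg_span (Set.finite_range E)).map (LinearMap.proj a)) fun j => ⟨_, orb_subset hq
          (by rintro _ ⟨a, rfl⟩; exact hφ a) hv _ ⟨i, j, rfl⟩, ?_⟩
      exact congrFun (pow_iterate (Fintype.card F) j) _)
    exact this (by rw [hae, Algebra.adjoin_range_eq_range_aeval]; exact ⟨f, rfl⟩)
  have halg : Algebra.IsAlgebraic R L := ⟨fun x => by
    obtain ⟨a, b, -, rfl⟩ := IsFractionRing.div_surjective P x
    rw [div_eq_mul_inv]
    exact (hint a).isAlgebraic.mul (hint b).isAlgebraic.inv⟩
  have hind : AlgebraicIndependent k c :=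
    (Algebra.IsAlgebraic.isTranscendenceBasis_of_le_trdeg_of_finite k c
      (((MvPolynomial.algebraicIndependent_X _ k).map' (f := IsScalarTower.toAlgHom k P L)
        (IsFractionRing.injective P L)).cardinalMk_le_trdeg)).1
  refine ⟨.of_equiv hind.aevalEquiv, fun f hf => ?_⟩
  have : IsIntegrallyClosed R := .of_equiv hind.aevalEquiv.toRingEquiv
  let K := IntermediateField.adjoin k (Set.range c)
  suffices hK : algebraMap P L f ∈ K by
    obtain ⟨r, hr⟩ := IsIntegrallyClosed.algebraMap_eq_of_integral (R := R) (K := K)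
      (x := ⟨_, hK⟩) ((isIntegral_algebraMap_iff (algebraMap K L).injective).1 (hint f))
    exact (show (r : L) = algebraMap P L f from congrArg Subtype.val hr) ▸ r.2
  choose r hr using fun i => (mem_span_range_iff_exists_fun R).1 (hv i)
  choose C hC using fun a => (mem_span_range_iff_exists_fun R).1 (hφ a)
  let C' : Matrix (Fin n) (Fin n) L := Matrix.of fun a s => C a s
  have hCE : C' * E = E.map φ := by
    ext a b
    simpa [mul_apply, C', φ, Subalgebra.smul_def] using congrFun (hC a) b
  have hC0 : IsUnit C'.det := Ne.isUnit fun e => (map_ne_zero φ).2 hE (by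
    rw [AlgHom.map_det, AlgHom.mapMatrix_apply, ← hCE, det_mul, e, zero_mul])
  have : Algebra.IsAlgebraic K L := .extendScalars (R := R) (FaithfulSMul.algebraMap_injective R K)
  have : Algebra.IsSeparable K L := by
    have : Algebra.EssFiniteType P L := .of_isLocalization L (nonZeroDivisors P)
    have : Algebra.EssFiniteType k L := .comp k P L
    have : Algebra.EssFiniteType K L := .of_comp k K L
    let D := KaehlerDifferential.D K L
    have hR : ∀ (x : R) (y : L), D (x * y) = (x : L) • D y := fun x y => by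
      rw [D.leibniz, show (x : L) = algebraMap K L (algebraMap R K x) from rfl, D.map_algebraMap,
        smul_zero, add_zero]
    have h1 : ∀ a b, ∑ s, C' a s • D (E s b) = 0 := fun a b => by
      have := congrArg D (congrFun (hC a) b)
      simp only [Finset.sum_apply, Pi.smul_apply, Subalgebra.smul_def, smul_eq_mul, map_sum, hR,
        Function.comp_apply, FiniteField.coe_frobeniusAlgHom, Derivation.leibniz_pow] at this
      rw [← Nat.cast_smul_eq_nsmul L, ← map_natCast (algebraMap F L), FiniteField.cast_card_eq_zero,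
        map_zero, zero_smul] at this
      exact this
    have h2 : ∀ s b, D (E s b) = 0 := fun s b => by
      have : ∑ a, C'⁻¹ s a • ∑ s', C' a s' • D (E s' b) = 0 := by simp [h1]
      simp only [Finset.smul_sum, smul_smul] at this
      rw [Finset.sum_comm] at this
      simpa [← Finset.sum_smul, ← mul_apply, nonsing_inv_mul _ hC0, one_apply] using this
    have h3 : ∀ f : P, D (algebraMap P L f) = 0 := fun f => by
      induction f using MvPolynomial.induction_on with
      | C a =>
        rw [← MvPolynomial.algebraMap_eq, ← IsScalarTower.algebraMap_apply,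
          IsScalarTower.algebraMap_apply k K L, D.map_algebraMap]
      | add p q hp hq => rw [map_add, map_add, hp, hq, add_zero]
      | mul_X p x hp =>
        rw [map_mul, D.leibniz, hp, smul_zero, add_zero, ← hv0 x.1 x.2, ← hr]
        simp [Subalgebra.smul_def, hR, h2]
    have : Algebra.FormallyUnramified K L := ⟨subsingleton_of_forall_eq 0 fun w => by
      have : w ∈ span L (Set.range D) := KaehlerDifferential.span_range_derivation K L ▸ mem_top
      refine (mem_bot L).1 (span_le.2 ?_ this)
      rintro _ ⟨x, rfl⟩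
      obtain ⟨a, b, -, rfl⟩ := IsFractionRing.div_surjective P x
      simp [D.leibniz_div, h3]⟩
    exact Algebra.FormallyUnramified.isSeparable K L
  let Ω := AlgebraicClosure L
  let ι := IsScalarTower.toAlgHom k L Ω
  have : IsAlgClosure K Ω := ⟨inferInstance, .trans K L Ω⟩
  by_contra hK
  obtain ⟨y, hy1, hy2⟩ := (notMem_iff_exists_ne_and_isConjRoot (K := K)
    (x := ι (algebraMap P L f)) ((Algebra.IsSeparable.isSeparable K _).map
      (IsScalarTower.toAlgHom K L Ω) (algebraMap L Ω).injective) (IsAlgClosed.splits _)).1 (by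
      rintro ⟨z, hz⟩
      exact hK ((algebraMap L Ω).injective hz ▸ z.2))
  obtain ⟨σ0, rfl⟩ := hy2.symm.exists_algEquiv
  let σ : L →ₐ[k] Ω := (σ0.toAlgHom.restrictScalars k).comp ι
  have hσ : ∀ x ∈ R, σ x = ι x := fun x hx => σ0.commutes (algebraMap R K ⟨x, hx⟩)
  let φ' := FiniteField.frobeniusAlgHom F Ω
  have hEq : ∀ τ : L →ₐ[k] Ω, (∀ x ∈ R, τ x = ι x) → IsUnit (E.map τ).det ∧
      (E.map τ).BlockTriangular lev ∧ C'.map ι * E.map τ = (E.map τ).map φ' := fun τ hτ => by
    refine ⟨Ne.isUnit (by rw [← AlgHom.mapMatrix_apply, ← AlgHom.map_det]; simpa using hE),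
      fun a b hab => by simp [hE0 hab], ?_⟩
    ext a b
    simpa [mul_apply, C', hτ, φ, φ'] using congrArg τ (congrFun (congrFun hCE a) b)
  obtain ⟨u1, t1, e1⟩ := hEq ι fun _ _ => rfl
  obtain ⟨u2, t2, e2⟩ := hEq σ hσ
  let Γ := (E.map ι)⁻¹ * E.map σ
  have hΓ : E.map ι * Γ = E.map σ := mul_nonsing_inv_cancel_left _ _ u1
  have t3 : (E.map ι)⁻¹.BlockTriangular lev := by
    have := (E.map ι).invertibleOfIsUnitDet u1
    exact blockTriangular_inv_of_blockTriangular t1
  have hΓt : Γ.BlockTriangular lev := t3.mul t2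
  have hΓφ : Γ.map φ' = Γ := by
    have u3 : IsUnit ((E.map ι).map φ').det := by
      rw [← AlgHom.mapMatrix_apply, ← AlgHom.map_det]; exact u1.map φ'
    rw [← nonsing_inv_mul_cancel_left _ (Γ.map φ') u3, ← Matrix.map_mul, hΓ, ← e2, ← hΓ,
      ← Matrix.mul_assoc (C'.map ι), e1, nonsing_inv_mul_cancel_left _ _ u3]
  choose γ hγ using fun a b => exists_eq_of_pow_card (F := F) (congrFun (congrFun hΓφ a) b)
  have hγ0 : (Matrix.of γ)ᵀ.det ≠ 0 := fun e => u2.ne_zero (by
    have : Γ = (algebraMap F Ω).mapMatrix (Matrix.of γ) := by ext a b; exact (hγ a b).symm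
    rw [det_transpose] at e
    rw [← hΓ, det_mul, this, ← RingHom.map_det, e, map_zero, mul_zero])
  have := hf (GeneralLinearGroup.mkOfDetNeZero _ hγ0)
    (fun a b hab => (algebraMap F Ω).injective (by simpa [hγ] using hΓt hab)) fun a ha => by
      have h1 : σ (E a a) = ι (E a a) * Γ a a :=
        (congrFun (congrFun hΓ a) a).symm.trans (mul_apply_single t1 hΓt ha)
      have h2 : ι (E a a) ≠ 0 := left_ne_zero_of_mul (by
        have := mul_apply_single t1 t3 ha
        rw [mul_nonsing_inv _ u1, one_apply_eq] at this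
        exact this ▸ one_ne_zero)
      have h3 := hσ _ (hy a ha)
      rw [map_pow, map_pow, h1, mul_pow, mul_eq_left₀ (pow_ne_zero _ h2)] at h3
      exact (algebraMap F Ω).injective (by simpa [hγ] using h3)
  refine hy1 ?_
  change _ = σ (algebraMap P L f)
  conv_lhs => rw [← this]
  refine DFunLike.congr_fun (MvPolynomial.algHom_ext
    (f := (ι.comp (IsScalarTower.toAlgHom k P L)).comp (MvPolynomial.aeval _))
    (g := σ.comp (IsScalarTower.toAlgHom k P L)) fun x => ?_) f
  have h4 : ∀ τ : L →ₐ[k] Ω, (∀ x ∈ R, τ x = ι x) → ∀ a,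
      τ (v x.1 a) = ∑ s, ι (r x.1 s) * E.map τ s a := fun τ hτ a => by
    simp [← hr, Subalgebra.smul_def, hτ]
  have h5 : ∀ a, IsScalarTower.toAlgHom k P L (.X (x.1, a)) = v x.1 a := fun a => (hv0 _ _).symm
  simp only [AlgHom.comp_apply, MvPolynomial.aeval_X, map_sum, map_smul, h5]
  simp only [h4 σ hσ, h4 ι fun _ _ => rfl, ← hΓ, mul_apply, Finset.mul_sum, Finset.smul_sum]
  rw [Finset.sum_comm]
  refine Finset.sum_congr rfl fun s _ => Eq.trans (Finset.sum_congr rfl fun b _ => ?_)
    (Finset.mul_sum Finset.univ (fun b => E.map ι s b * Γ b x.2) _).symm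
  rw [Algebra.smul_def, ← IsScalarTower.algebraMap_apply, ← hγ, mul_comm, mul_assoc]
  rfl

end Pool.Agent.MP_19ffc6_ag.Wild
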