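import Mathlib
import Pool.Agent.MP_19ffc6_ag.WildSub

/-! Standard bases of Frobenius modules over local rings. -/

namespace Pool.Agent.MP_19ffc6_ag.Wild

open Submodule Matrix

lemma greedy {κ X : Type} [Field κ] [AddCommGroup X] [Module κ X] (z : ℕ → X) (m : ℕ)
    (ψ : X →+ X) (hψ : ∀ (c : κ) x, ∃ c' : κ, ψ (c • x) = c' • ψ x)
    (hz : ∀ ω, z (ω + m) = ψ (z ω)) :
    ∃ I : Set ℕ, LinearIndepOn κ z I ∧ (∀ ω, z ω ∈ span κ (z '' I)) ∧ ∀ ω, ω + m ∈ I → ω ∈ I := by
  refine ⟨{ω | z ω ∉ span κ (z '' Set.Iio ω)}, ?_, fun ω => ?_, fun ω hω h => hω ?_⟩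
  · rw [LinearIndepOn, linearIndependent_iff']
    intro s g hg
    by_contra H
    push Not at H
    classical
    obtain ⟨i, hi, hmax⟩ := (s.filter fun i => g i ≠ 0).exists_max_image (fun i => i.1)
      (by obtain ⟨i, h1, h2⟩ := H; exact ⟨i, by simp [h1, h2]⟩)
    rw [Finset.mem_filter] at hi
    apply i.2
    rw [← Finset.add_sum_erase _ _ hi.1, add_eq_zero_iff_eq_neg] at hg
    rw [← smul_mem_iff _ hi.2, hg]
    refine neg_mem (sum_mem fun j hj => ?_)
    by_cases h0 : g j = 0
    · simp [h0]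
    · rw [Finset.mem_erase] at hj
      refine smul_mem _ _ (subset_span ⟨j, lt_of_le_of_ne (hmax j (by simp [hj.2, h0])) ?_, rfl⟩)
      exact fun e => hj.1 (Subtype.ext e)
  · induction ω using Nat.strong_induction_on with
    | _ ω ih =>
      by_cases h : z ω ∈ span κ (z '' Set.Iio ω)
      · exact (span_le.2 (by rintro _ ⟨j, hj, rfl⟩; exact ih j hj) : _ ≤ span κ _) h
      · exact subset_span ⟨ω, h, rfl⟩
  · rw [hz]
    generalize z ω = x at h
    induction h using span_induction with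
    | mem x hx =>
      obtain ⟨j, hj, rfl⟩ := hx
      exact subset_span ⟨j + m, by simpa using hj, hz j⟩
    | zero => simp
    | add x y _ _ hx hy => rw [map_add]; exact add_mem hx hy
    | smul c x _ hx =>
      obtain ⟨c', e⟩ := hψ c x
      rw [e]; exact smul_mem _ _ hx

/-- Standard bases over a local ring. -/
lemma greedy_local {O : Type} [CommRing O] [IsLocalRing O] {S S' : Type} [Fintype S] [Fintype S']
    [DecidableEq S] (ε : S → S' → O) (a : ℕ → S' → O) (m : ℕ) (φ : O →+* O)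
    (hφ : ∀ x ∈ IsLocalRing.maximalIdeal O, φ x ∈ IsLocalRing.maximalIdeal O)
    (Φ : Matrix S' S' O) (ha : ∀ ω, a (ω + m) = (φ ∘ a ω) ᵥ* Φ) (r : Matrix S' S O)
    (hr : ∀ s, ε s ᵥ* r = Pi.single s 1) (hr' : ∀ ω, a ω ᵥ* r = 0)
    (hsp : span O (Set.range ε ∪ Set.range a) = ⊤) :
    ∃ I : Finset ℕ, Fintype.card S + I.card = Fintype.card S' ∧
      span O (Set.range ε ∪ a '' I) = ⊤ ∧ ∀ ω, ω + m ∈ I → ω ∈ I := by
  classical
  let κ := IsLocalRing.ResidueField O
  let π := IsLocalRing.residue O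
  have : RingHomSurjective π := ⟨IsLocalRing.residue_surjective⟩
  let red : (S' → O) →ₛₗ[π] (S' → κ) :=
    { toFun := fun x => π ∘ x
      map_add' := fun x y => by ext; simp
      map_smul' := fun c x => by ext; simp }
  have hred : ∀ x, red x = π ∘ x := fun _ => rfl
  let φ' : κ →+* κ := Ideal.Quotient.lift _ (π.comp φ) fun x hx =>
    (IsLocalRing.residue_eq_zero_iff _).2 (hφ x hx)
  have hφ' : ∀ x, φ' (π x) = π (φ x) := fun _ => rfl
  let ψ : (S' → κ) →+ (S' → κ) :=
    { toFun := fun x => (φ' ∘ x) ᵥ* Φ.map π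
      map_zero' := by ext; simp [vecMul, dotProduct]
      map_add' := fun x y => by ext; simp [vecMul, dotProduct, add_mul, Finset.sum_add_distrib] }
  obtain ⟨I, h1, h2, h3⟩ := greedy (κ := κ) (fun ω => red (a ω)) m ψ
    (fun c x => ⟨φ' c, by ext; simp [ψ, vecMul, dotProduct, Finset.mul_sum, mul_assoc]⟩)
    (fun ω => by ext; simp [ψ, hred, ha, vecMul, dotProduct, hφ'])
  have hfin : I.Finite := Set.finite_coe_iff.1 (LinearIndependent.finite h1)
  have hvm : ∀ x, red x ᵥ* r.map π = π ∘ (x ᵥ* r) := fun x => by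
    ext; simp [hred, vecMul, dotProduct]
  have hε : LinearIndependent κ ((r.map π).vecMulLinear ∘ fun s => red (ε s)) := by
    convert Pi.linearIndependent_single_one S κ using 1
    ext s s'
    simp only [Function.comp_apply, vecMulLinear_apply, hvm, hr, Pi.single_apply]
    split_ifs <;> simp
  have hli := (hε.of_comp _).sum_type h1 ((range_ker_disjoint hε).mono_right (span_le.2 (by
    rintro _ ⟨ω, rfl⟩
    simp only [SetLike.mem_coe, LinearMap.mem_ker, vecMulLinear_apply, hvm, hr']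
    ext; simp)))
  have hsp' : span κ (red '' (Set.range ε ∪ a '' I)) = ⊤ := by
    have h4 : (⊤ : Submodule O (S' → O)).map red = ⊤ := by
      rw [Submodule.map_top, LinearMap.range_eq_top]
      intro x
      choose y hy using fun b => IsLocalRing.residue_surjective (x b)
      exact ⟨y, funext hy⟩
    rw [eq_top_iff, ← h4, ← hsp, map_span, span_le]
    rintro _ ⟨_, ⟨s, rfl⟩ | ⟨ω, rfl⟩, rfl⟩
    · exact subset_span ⟨_, Or.inl ⟨s, rfl⟩, rfl⟩
    · refine span_mono ?_ (h2 ω)
      rintro _ ⟨ω, h, rfl⟩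
      exact ⟨_, Or.inr ⟨ω, h, rfl⟩, rfl⟩
  refine ⟨hfin.toFinset, ?_, ?_, by simpa using h3⟩
  · let := hfin.fintype
    have := finrank_span_eq_card hli
    rw [Set.Sum.elim_range, Fintype.card_sum] at this
    rw [Set.image_union, ← Set.range_comp, Set.image_image, Set.image_eq_range] at hsp'
    rw [hfin.card_toFinset, ← this, ← Module.finrank_fintype_fun_eq_card κ]
    exact (congrArg (fun W : Submodule κ (S' → κ) => Module.finrank κ W) hsp').trans
      (finrank_top _ _)
  · rw [hfin.coe_toFinset, eq_top_iff]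
    refine le_of_le_smul_of_le_jacobson_bot (I := IsLocalRing.maximalIdeal O) Module.Finite.fg_top
      (IsLocalRing.maximalIdeal_le_jacobson _) fun x _ => ?_
    obtain ⟨y, hy, e⟩ : red x ∈ (span O (Set.range ε ∪ a '' I)).map red := by
      rw [map_span, hsp']; trivial
    rw [← add_sub_cancel y x, pi_eq_sum_univ' (x - y)]
    refine add_mem_sup hy (sum_mem fun b _ => smul_mem_smul ?_ trivial)
    rw [← IsLocalRing.residue_eq_zero_iff, Pi.sub_apply, map_sub, sub_eq_zero]
    exact (congrFun e b).symm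

variable {k L : Type} [Field k] [Field L] [Algebra k L]

lemma det_of_span {D : Subalgebra k L} {S : Type} [Fintype S] [DecidableEq S]
    {f y : S → S → L} (h : ∀ a, y a ∈ span D (Set.range f)) :
    ∃ d ∈ D, (Matrix.of y).det = d * (Matrix.of f).det := by
  choose c hc using fun a => (mem_span_range_iff_exists_fun D).1 (h a)
  refine ⟨(D.val.mapMatrix (Matrix.of c)).det, ?_, ?_⟩
  · rw [← AlgHom.map_det]; exact Subtype.prop _
  · rw [← det_mul]
    congr 1
    ext a b
    rw [of_apply, ← hc a]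
    simp [mul_apply, Subalgebra.smul_def]

lemma mem_span_of_det {D : Subalgebra k L} {S : Type} [Fintype S] [DecidableEq S]
    {f : S → S → L} (hf : (Matrix.of f).det ≠ 0) {y : S → L}
    (h : ∀ a, ((Matrix.of f).updateRow a y).det / (Matrix.of f).det ∈ D) :
    y ∈ span D (Set.range f) := by
  refine (mem_span_range_iff_exists_fun D).2 ⟨fun a => ⟨_, h a⟩, ?_⟩
  have h1 := mulVec_cramer (Matrix.of f)ᵀ y
  rw [det_transpose] at h1
  ext b
  have h2 := congrFun h1 b
  simp only [mulVec, dotProduct, transpose_apply, of_apply, cramer_transpose_apply, Pi.smul_apply,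
    smul_eq_mul] at h2
  simp only [Finset.sum_apply, Pi.smul_apply, Subalgebra.smul_def, smul_eq_mul]
  rw [← mul_right_inj' hf, ← h2, Finset.mul_sum]
  refine Finset.sum_congr rfl fun a _ => ?_
  field_simp

lemma inv_mem_loc {D O : Subalgebra k L} (h : D ≤ O) {x : L} (hx : x ∈ loc D O) (hu : Un O x) :
    x⁻¹ ∈ loc D O := by
  obtain ⟨a, ha, b, hb, hu', rfl⟩ := hx
  refine ⟨b, hb, a, ha, ?_, by simp⟩
  have := hu.mul hu'
  rwa [div_mul_cancel₀ _ hu'.2.1] at this

lemma pt_prod {T : Type} [Fintype T] {A O : Subalgebra k L} (X : T → Set L)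
    (h : Pt A (span k {y | ∃ x : T → L, (∀ t, x t ∈ X t) ∧ y = ∏ t, x t}) O) :
    Lcl O ∧ A ≤ O ∧ ∃ g : T → L, (∀ t, g t ∈ X t ∧ g t ≠ 0 ∧ ∀ x ∈ X t, x / g t ∈ O) ∧
      ∀ D ≤ O, A ≤ D → (∀ t, ∀ x ∈ X t, x / g t ∈ loc D O) → IsPoint D O := by
  classical
  obtain ⟨g0, hg, hg0, hP⟩ := h
  have hmem : ∀ x : T → L, (∀ t, x t ∈ X t) → (∏ t, x t) / g0 ∈ O := fun x hx =>
    hP.le (div_mem_chart _ _ (subset_span ⟨x, hx, rfl⟩))
  obtain ⟨_, ⟨g, hgX, rfl⟩, hu⟩ := exists_un_of_span hP.lcl
    (S := {y | ∃ x : T → L, (∀ t, x t ∈ X t) ∧ y = ∏ t, x t}) hg0 (by rintro _ ⟨x, hx, rfl⟩; exact hmem x hx) (by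
      rw [← one_mul g0]; exact mul_mem_mul (one_mem O) hg)
  have hne : ∀ t, g t ≠ 0 := fun t e => hu.2.1 (by
    rw [Finset.prod_eq_zero (Finset.mem_univ t) e, zero_div])
  have hne' : ∏ t, g t ≠ 0 := Finset.prod_ne_zero_iff.2 fun t _ => hne t
  refine ⟨hP.lcl, (le_chart _ _ _).trans hP.le, g, fun t => ⟨hgX t, hne t, fun x hx => ?_⟩,
    fun D hD hA hX => hP.of_le_loc hD (chart_le (hA.trans (le_loc _ _)) fun y hy => ?_)⟩
  · have := O.mul_mem (hmem (Function.update g t x) fun t' => by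
      by_cases e : t' = t
      · subst e; simpa using hx
      · simpa [Function.update_of_ne e] using hgX t') hu.2.2
    convert this using 1
    rw [Finset.prod_update_of_mem (Finset.mem_univ t), Finset.sdiff_singleton_eq_erase,
      ← Finset.mul_prod_erase _ _ (Finset.mem_univ t)]
    have : ∏ t' ∈ Finset.univ.erase t, g t' ≠ 0 := Finset.prod_ne_zero_iff.2 fun t _ => hne t
    have := hne t
    field_simp
  · have h1 : ∀ y ∈ span k {y | ∃ x : T → L, (∀ t, x t ∈ X t) ∧ y = ∏ t, x t},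
        y / ∏ t, g t ∈ loc D O := by
      intro y hy
      induction hy using span_induction with
      | mem x hx =>
        obtain ⟨x, hx, rfl⟩ := hx
        rw [← Finset.prod_div_distrib]
        exact prod_mem fun t _ => hX t _ (hx t)
      | zero => simp
      | add a b _ _ ha hb => rw [add_div]; exact add_mem ha hb
      | smul c a _ ha => rw [smul_div_assoc]; exact Subalgebra.smul_mem _ ha c
    have := mul_mem (h1 y hy) (inv_mem_loc hD (h1 g0 hg) (by simpa using hu.inv))
    convert this using 1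
    field_simp

end Pool.Agent.MP_19ffc6_ag.Wild
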