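import Pool.Agent.MP_19ffc6_ag.VecStep

/-! The polynomial chart through a point of the blow-up of the Pluecker coordinates. -/

namespace Pool.Agent.MP_19ffc6_ag.Wild

open Submodule Matrix

variable {k L : Type} [Field k] [Field L] [Algebra k L] {m n : ℕ}

lemma det_succ {Ω : Type} [CommRing Ω] {lev : Fin n → ℕ} (N : Fin n → Fin n → Ω) {a : Fin n}
    (ha : ∀ b, lev b = lev a → b = a) (hN : ∀ b, lev b < lev a → N a b = 0) :
    (Matrix.of fun s b : {b // lev b < lev a + 1} => N s b).det =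
      (Matrix.of fun s b : {b // lev b < lev a} => N s b).det * N a a := by
  have h1 : ∀ s : {b // lev b < lev a + 1}, ¬lev s < lev a → s.1 = a := fun s hs =>
    ha _ (by have := s.2; omega)
  rw [twoBlockTriangular_det _ (fun s => lev s.1 < lev a) fun i hi j hj => by
    rw [of_apply, h1 i hi, hN _ hj]]
  congr 1
  · exact (det_submatrix_equiv_self (Equiv.subtypeSubtypeEquivSubtype (p := fun b => lev b < lev a + 1)
      (q := fun b => lev b < lev a) Nat.lt_succ_of_lt) (Matrix.of fun s b => N s b))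
  · have : Unique {s : {b // lev b < lev a + 1} // ¬lev s < lev a} :=
      ⟨⟨⟨⟨a, Nat.lt_succ_self _⟩, lt_irrefl _⟩⟩, fun s => Subtype.ext (Subtype.ext (h1 _ s.2))⟩
    rw [det_unique]
    exact congrArg₂ N (h1 _ this.default.2) (h1 _ this.default.2)

/-- The Pluecker coordinates of level `t`. -/
def Pl (φ : L →+* L) (lev : Fin n → ℕ) (v : Fin m → Fin n → L) (t : ℕ) : Set L :=
  {x | ∃ f : {b // lev b < t} → Fin n → L, (∀ s, f s ∈ orb φ v) ∧
    x = (Matrix.of fun s => res lev t (f s)).det}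

/-- The powers of the Pluecker coordinates of two consecutive levels. -/
def Pl2 (φ : L →+* L) (lev h : Fin n → ℕ) (v : Fin m → Fin n → L) (a : Fin n) : Set L :=
  {x | ∃ y ∈ Pl φ lev v (lev a) ∪ Pl φ lev v (lev a + 1), x = y ^ h a}

lemma local_chart {φ : L →+* L} {q : ℕ} (hφ : ∀ x, φ x = x ^ (q + 1)) (hq : 0 < q) (hm : 0 < m)
    {lev h : Fin n → ℕ} {T : ℕ} (hT : ∀ a, lev a < T) (hh : ∀ a, h a ∣ q) {O : Subalgebra k L}
    (hO : Lcl O) {v : Fin m → Fin n → L} (g : Fin (T + 1) → L)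
    (hg : ∀ t, g t ∈ Pl φ lev v t.1 ∧ g t ≠ 0 ∧ ∀ x ∈ Pl φ lev v t.1, x / g t ∈ O)
    (g' : {a // ∀ b, lev b = lev a → b = a} → L)
    (hg' : ∀ a, g' a ∈ Pl2 φ lev h v a.1 ∧ g' a ≠ 0 ∧ ∀ x ∈ Pl2 φ lev h v a.1, x / g' a ∈ O) :
    ∃ (c : Fin m × Fin n → L) (E : Matrix (Fin n) (Fin n) L), E.det ≠ 0 ∧ E.BlockTriangular lev ∧
      (∀ i, v i ∈ span (Algebra.adjoin k (Set.range c)) (Set.range E)) ∧
      (∀ a, φ ∘ E a ∈ span (Algebra.adjoin k (Set.range c)) (Set.range E)) ∧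
      (∀ a, (∀ b, lev b = lev a → b = a) → E a a ^ h a ∈ Algebra.adjoin k (Set.range c)) ∧
      Algebra.adjoin k (Set.range c) ≤ O ∧
      (∀ t, ∀ x ∈ Pl φ lev v t.1, x / g t ∈ loc (Algebra.adjoin k (Set.range c)) O) ∧
      ∀ a, ∀ x ∈ Pl2 φ lev h v a.1, x / g' a ∈ loc (Algebra.adjoin k (Set.range c)) O := by
  classical
  choose f hf hgf using fun t => (hg t).1
  have hf1 : ∀ t : Fin (T + 1), ∀ y ∈ orb φ v,
      res lev t y ∈ span O (Set.range fun b => res lev t (f t b)) := fun t y hy =>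
    mem_span_of_det (hgf t ▸ (hg t).2.1) fun a => hgf t ▸ (hg t).2.2 _
      ⟨Function.update (f t) a y, fun s => by
        by_cases e : s = a
        · simpa [e] using hy
        · simpa [e] using hf t s, by
        congr 1
        ext s b
        by_cases e : s = a <;> simp [e]⟩
  have hex : ∀ t ≤ T, ∃ c e u, Inv φ lev O v t c e u := fun t => by
    induction t with
    | zero =>
      haveI : IsEmpty {b // lev b < 0} := ⟨fun b => absurd b.2 (by simp)⟩
      exact fun _ => ⟨0, 0, v, fun _ _ => zero_mem _, by simp, fun i => subset_span (mem_orb φ v i),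
        by simp, by simp, fun i => subset_span (.inr (mem_orb φ v i)), by simp, by simp, by simp⟩
    | succ t ih =>
      intro ht
      obtain ⟨c, e, u, H⟩ := ih (by omega)
      exact H.step hφ q.succ_pos hm hO (f ⟨t + 1, by omega⟩) (hf ⟨t + 1, by omega⟩)
        (hgf ⟨t + 1, by omega⟩ ▸ (hg _).2.1) (hf1 ⟨t + 1, by omega⟩)
  obtain ⟨c, e, u, H⟩ := hex T le_rfl
  set R := Rt k lev c T
  have hRO : R ≤ O := Algebra.adjoin_le (by rintro _ ⟨i, a, -, rfl⟩; exact H.hc i a)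
  have hsp : ∀ y ∈ e '' {a | lev a < T} ∪ orb φ u, y ∈ span R (Set.range e) := by
    rintro y (⟨a, -, rfl⟩ | hy)
    · exact subset_span ⟨a, rfl⟩
    · rw [show y = 0 from funext fun b =>
        orb_zero (R := R) (fun i => H.hu0 i b (hT b)) (subset_span hy)]
      exact zero_mem _
  have hv : ∀ i, v i ∈ span R (Set.range e) := fun i => span_mono_alg le_rfl hsp (H.hv i)
  have hφe : ∀ a, φ ∘ e a ∈ span R (Set.range e) := fun a =>
    span_mono_alg le_rfl hsp (H.hφ a (hT a))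
  let δ : ℕ → L := fun t => (Matrix.of fun s : {b // lev b < t} => res lev t (e s)).det
  have hA : ∀ t, ∀ x ∈ Pl φ lev v t, ∃ d ∈ R, x = d * δ t := by
    rintro t _ ⟨f, hf, rfl⟩
    refine det_of_span fun s => (span_le.2 ?_ : _ ≤ comap (LinearMap.funLeft R L Subtype.val)
      (span R (Set.range fun s : {b // lev b < t} => res lev t (e s))))
      (orb_subset hφ (by rintro _ ⟨a, rfl⟩; exact hφe a) hv _ (hf s))
    rintro _ ⟨a, rfl⟩
    by_cases ha : lev a < t
    · exact subset_span ⟨⟨a, ha⟩, rfl⟩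
    · have : LinearMap.funLeft R L (Subtype.val : {b // lev b < t} → _) (e a) = 0 :=
        funext fun b => H.he0 a b (by have := b.2; omega) (hT a)
      exact mem_comap.2 (this ▸ zero_mem _)
  have hB : ∀ t : Fin (T + 1), ∃ d ∈ R, Un O d ∧ g t = d * δ t := fun t => by
    obtain ⟨d, hd, e1⟩ := hA t _ (hg t).1
    obtain ⟨d', hd', e2⟩ := det_of_span (D := O) (f := fun b => res lev t (f t b))
      (y := fun s : {b // lev b < t} => res lev t (e s)) fun s =>
        (span_le.2 (hf1 t) : span O (orb φ v) ≤ comap (LinearMap.funLeft O L Subtype.val)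
          (span O (Set.range fun b => res lev t (f t b))))
          (span_mono_alg hRO (fun _ h => subset_span h) (H.he s (hT s)))
    refine ⟨d, hd, Un.of_mul (hRO hd) hd' ?_, e1⟩
    rw [← hgf, e1, ← mul_assoc] at e2
    rw [mul_comm, (mul_eq_right₀ (right_ne_zero_of_mul (e1 ▸ (hg t).2.1))).1 e2.symm]
    exact Un.one O
  choose dg hdg hdu hgd using hB
  have hδ : ∀ t : Fin (T + 1), δ t ≠ 0 := fun t => right_ne_zero_of_mul (hgd t ▸ (hg t).2.1)
  have hC : ∀ a, (∀ b, lev b = lev a → b = a) → δ (lev a + 1) = δ (lev a) * e a a := fun a ha =>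
    det_succ e ha fun b hb => H.he0 a b hb (hT a)
  let t0 : Fin n → Fin (T + 1) := fun a => ⟨lev a, (hT a).trans T.lt_succ_self⟩
  let t1 : Fin n → Fin (T + 1) := fun a => ⟨lev a + 1, Nat.succ_lt_succ (hT a)⟩
  have hy0 : ∀ a, (∀ b, lev b = lev a → b = a) → e a a ≠ 0 := fun a ha =>
    right_ne_zero_of_mul (hC a ha ▸ hδ (t1 a))
  choose i0 hi0 using fun a : {a // ∀ b, lev b = lev a → b = a} => H.hy a (hT a) a.2
  have hi1 : ∀ a, c (i0 a) a = e a a ^ q := fun a =>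
    mul_right_cancel₀ (hy0 a a.2) (by rw [hi0, hφ, pow_succ])
  have hD : ∀ a : {a // ∀ b, lev b = lev a → b = a}, e a a ^ h a ∈ O := fun a => by
    obtain ⟨y, hy, e1⟩ := (hg' a).1
    have h0 := (hg' a).2.1
    have h1 : δ (lev a) ≠ 0 := hδ (t0 a)
    have h2 := hy0 a a.2
    rcases hy with hy | hy <;> obtain ⟨d, hd, rfl⟩ := hA _ _ hy
    · have := mul_mem (mul_mem ((hg' a).2.2 _ ⟨_, .inr (hg (t1 a)).1, rfl⟩)
        (pow_mem (hRO hd) (h a))) (pow_mem (hdu (t1 a)).2.2 (h a))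
      convert this using 1
      have h3 := (hdu (t1 a)).2.1
      rw [e1] at h0 ⊢
      have h4 : d ≠ 0 := by rintro rfl; simp [(ne_zero_of_dvd_ne_zero hq.ne' (hh a))] at h0
      rw [hgd, hC a a.2]
      simp only [mul_pow, inv_pow]
      field_simp
    · have := mul_mem (mul_mem ((hg' a).2.2 _ ⟨_, .inl (hg (t0 a)).1, rfl⟩)
        (pow_mem (hRO hd) (h a))) (pow_mem (hdu (t0 a)).2.2 (h a))
      obtain ⟨w, hw⟩ := hh a
      obtain ⟨w, rfl⟩ := Nat.exists_eq_succ_of_ne_zero (n := w) (by rintro rfl; omega)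
      convert mul_mem (H.hc (i0 a) a) (pow_mem this w) using 1
      have h3 := (hdu (t0 a)).2.1
      rw [e1] at h0 ⊢
      have h4 : d ≠ 0 := by rintro rfl; simp [(ne_zero_of_dvd_ne_zero hq.ne' (hh a))] at h0
      rw [hi1, hw, hgd, hC a a.2, pow_mul, pow_succ]
      simp only [mul_pow, inv_pow, div_pow, show (t0 a).1 = lev a from rfl]
      field_simp
  let c' : Fin m × Fin n → L := fun x =>
    if ∃ hs, x.1 = i0 ⟨x.2, hs⟩ then e x.2 x.2 ^ h x.2 else c x.1 x.2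
  have hy : ∀ a, (∀ b, lev b = lev a → b = a) → e a a ^ h a ∈ Algebra.adjoin k (Set.range c') :=
    fun a ha => Algebra.subset_adjoin ⟨(i0 ⟨a, ha⟩, a), if_pos ⟨ha, rfl⟩⟩
  have hRR : R ≤ Algebra.adjoin k (Set.range c') := Algebra.adjoin_le (by
    rintro _ ⟨i, a, -, rfl⟩
    by_cases hs : ∃ hs, i = i0 ⟨a, hs⟩
    · obtain ⟨hs, rfl⟩ := hs
      obtain ⟨w, hw⟩ := hh a
      rw [hi1 ⟨a, hs⟩, hw, pow_mul]
      exact pow_mem (hy a hs) w
    · exact Algebra.subset_adjoin ⟨(i, a), if_neg hs⟩)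
  have hRO' : Algebra.adjoin k (Set.range c') ≤ O := Algebra.adjoin_le (by
    rintro _ ⟨x, rfl⟩
    simp only [c']
    split_ifs with hs
    exacts [hD ⟨_, hs.1⟩, H.hc _ _])
  refine ⟨c', Matrix.of e, ?_, fun a b hab => H.he0 a b hab (hT a),
    fun i => span_mono_alg hRR (fun _ h => subset_span h) (hv i),
    fun a => span_mono_alg hRR (fun _ h => subset_span h) (hφe a), hy, hRO', fun t x hx => ?_,
    fun a => ?_⟩
  · rw [← det_submatrix_equiv_self (Equiv.subtypeUnivEquiv hT)]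
    exact H.hdet
  · obtain ⟨d, hd, rfl⟩ := hA _ _ hx
    exact ⟨d, hRR hd, dg t, hRR (hdg t), hdu t, by rw [hgd, mul_div_mul_right _ _ (hδ t)]⟩
  · have h1 : ∀ x ∈ Pl2 φ lev h v a.1, ∃ d ∈ Algebra.adjoin k (Set.range c'),
        x = d * δ (lev a) ^ h a := by
      rintro _ ⟨y, hy' | hy', rfl⟩ <;> obtain ⟨d, hd, rfl⟩ := hA _ _ hy'
      · exact ⟨_, pow_mem (hRR hd) _, mul_pow ..⟩
      · exact ⟨_, mul_mem (pow_mem (hRR hd) (h a)) (hy a a.2), by rw [hC a a.2]; ring⟩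
    obtain ⟨r, hr, e1⟩ := h1 _ (hg' a).1
    have h2 := pow_ne_zero (h a) (hδ (t0 a))
    have h3 : r ≠ 0 := left_ne_zero_of_mul (e1 ▸ (hg' a).2.1)
    intro x hx
    obtain ⟨d, hd, rfl⟩ := h1 x hx
    refine ⟨d, hd, r, hr, ⟨hRO' hr, h3, ?_⟩, by rw [e1, mul_div_mul_right _ _ h2]⟩
    convert mul_mem ((hg' a).2.2 _ ⟨_, .inl (hg (t0 a)).1, rfl⟩)
      (pow_mem (hdu (t0 a)).2.2 (h a)) using 1
    have h4 := (hdu (t0 a)).2.1
    rw [e1, hgd, mul_pow, mul_div_mul_right _ _ h2, inv_pow]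
    field_simp

end Pool.Agent.MP_19ffc6_ag.Wild
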