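import Pool.Agent.MP_19ffc6_ag.WildInit
import Pool.Agent.MP_19ffc6_ag.WildBridge

/-! Linear actions on polynomial rings. -/

namespace Pool.Agent.MP_19ffc6_ag.Wild

open MvPolynomial AlgebraicGeometry CategoryTheory Matrix

lemma algInd_of_span {k L κ κ' : Type} [Field k] [Field L] [Algebra k L] {x : κ → L} {y : κ' → L}
    (hx : AlgebraicIndependent k x) (hy : LinearIndependent k y)
    (h : Submodule.span k (Set.range y) = Submodule.span k (Set.range x)) :
    AlgebraicIndependent k y := by
  let V := Submodule.span k (Set.range x)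
  have key : ∀ {σ : Type} (b : Module.Basis σ k V), (aeval fun i => (b i : L)) =
      (SymmetricAlgebra.lift V.subtype).comp (SymmetricAlgebra.equivMvPolynomial b).symm := by
    intro σ b
    ext i
    simp
  let b := Module.Basis.span hx.linearIndependent
  let b' := (Module.Basis.span hy).map (LinearEquiv.ofEq _ _ h)
  have h1 : (fun i => (b i : L)) = x := _root_.funext fun i => by simp [b]
  have h2 : (fun i => (b' i : L)) = y := _root_.funext fun i => by simp [b']
  rw [algebraicIndependent_iff_injective_aeval, ← h1, key b] at hx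
  rw [algebraicIndependent_iff_injective_aeval, ← h2, key b']
  exact ((SymmetricAlgebra.equivMvPolynomial b).symm.injective_comp _).1 hx |>.comp
    (SymmetricAlgebra.equivMvPolynomial b').symm.injective

variable {k : Type} [Field k] {n : ℕ}

/-- Linear substitution. -/
noncomputable def sb (M : Matrix (Fin n) (Fin n) k) :
    MvPolynomial (Fin n) k →ₐ[k] MvPolynomial (Fin n) k := aeval fun i => ∑ j, M i j • X j

lemma sb_lin (M : Matrix (Fin n) (Fin n) k) (v : Fin n → k) :
    sb M (∑ i, v i • X i) = ∑ j, (v ᵥ* M) j • X j := by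
  simp only [sb, map_sum, map_smul, aeval_X, Finset.smul_sum, smul_smul, vecMul, dotProduct,
    Finset.sum_smul]
  exact Finset.sum_comm

lemma sb_one (f : MvPolynomial (Fin n) k) : sb 1 f = f := by
  have : sb (1 : Matrix (Fin n) (Fin n) k) = AlgHom.id _ _ := by
    ext1 i; simp [sb, one_apply]
  rw [this]; rfl

lemma sb_mul (M M' : Matrix (Fin n) (Fin n) k) (f : MvPolynomial (Fin n) k) :
    sb (M' * M) f = sb M (sb M' f) := by
  have : sb (M' * M) = (sb M).comp (sb M') := by
    ext1 i
    have h : ∀ M : Matrix (Fin n) (Fin n) k, sb M (X i) = ∑ j, M i j • X j := fun M => aeval_X _ _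
    rw [AlgHom.comp_apply, h, h, sb_lin]
    rfl
  rw [this]; rfl

/-- An action given by algebra maps. -/
abbrev actOf {G P : Type} [Group G] [CommRing P] [Algebra k P] (σ : G → P →ₐ[k] P)
    (h1 : ∀ f, σ 1 f = f) (hm : ∀ g h f, σ (g * h) f = σ g (σ h f)) : MulSemiringAction G P where
  smul g f := σ g f
  one_smul := h1
  mul_smul := hm
  smul_zero g := map_zero (σ g)
  smul_add g := map_add (σ g)
  smul_one g := map_one (σ g)
  smul_mul g := map_mul (σ g)

/-- The action of a group of matrices on polynomials. -/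
noncomputable abbrev glAct (G : Subgroup (GL (Fin n) k)) :
    MulSemiringAction G (MvPolynomial (Fin n) k) :=
  actOf (fun g => sb (g⁻¹.1 : GL (Fin n) k)) (fun f => by rw [inv_one]; exact sb_one f)
    fun g h f => by rw [← sb_mul, _root_.mul_inv_rev]; rfl

theorem main (p : ℕ) [Fact p.Prime] [CharP k p] (N : Matrix (Fin n) (Fin n) k) (hN : N ^ p = 0)
    (b : ℕ → Polynomial k) (hb : ∀ r, (b r).natDegree ≤ r) (hb0 : b 0 = 1)
    (hb1 : b 1 = Polynomial.X) (G : Subgroup (GL (Fin n) k)) [Finite G]
    (hG : ∀ g ∈ G, ∃ t : k, g.1 = ∑ r ∈ Finset.range p, (b r).eval t • N ^ r)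
    (A : Subalgebra k (MvPolynomial (Fin n) k)) (hA : ∀ f, f ∈ A ↔ ∀ g ∈ G, sb g.1 f = f) :
    ∃ (Y : Scheme.{0}) (sY : Y ⟶ Spec (CommRingCat.of k)) (f : Y ⟶ Spec (CommRingCat.of A)),
      IsIntegral Y ∧ Smooth sY ∧ f ≫ Spec.map (CommRingCat.ofHom (algebraMap k A)) = sY ∧
      IsProper f ∧ ∃ V : (Spec (CommRingCat.of A)).Opens, V ≠ ⊥ ∧ IsIso (f ∣_ V) := by
  classical
  have hp : 0 < p := (Fact.out : p.Prime).pos
  let P := MvPolynomial (Fin n) k
  let L := FractionRing P
  let := glAct G
  let := IsFractionRing.mulSemiringAction G P L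
  let := Fintype.ofFinite G
  let ι0 : P →ₐ[k] L := IsScalarTower.toAlgHom k P L
  have hι0 : Function.Injective ι0 := IsFractionRing.injective P L
  have hact : ∀ (g : G) (f : P), g • ι0 f = ι0 (sb (g⁻¹.1 : GL (Fin n) k) f) := fun g f =>
    IsFractionRing.ringEquivOfRingEquiv_algebraMap _ f
  have : SMulCommClass G k L := ⟨fun g c x => by
    rw [Algebra.smul_def, Algebra.smul_def, smul_mul', ← ι0.commutes, hact, AlgHom.commutes]⟩
  have hx : AlgebraicIndependent k (ι0 ∘ X) := (algebraicIndependent_X _ _).map' hι0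
  let ℓ := Fintype.linearCombination k (ι0 ∘ X)
  have hℓ : ∀ v, ℓ v = ι0 (∑ i, v i • X i) := fun v => by
    simp [ℓ, Fintype.linearCombination_apply]
  obtain ⟨ρ, hρ⟩ := ℓ.exists_leftInverse_of_injective
    (LinearMap.ker_eq_bot.2 (hx.linearIndependent.fintypeLinearCombination_injective))
  let NL : L →ₗ[k] L := ℓ ∘ₗ N.vecMulLinear ∘ₗ ρ
  have hNL : ∀ r v, (NL ^ r) (ℓ v) = ℓ (v ᵥ* N ^ r) := by
    intro r v
    induction r with
    | zero => simp
    | succ r ih =>
      rw [pow_succ', Module.End.mul_apply, ih, pow_succ, ← vecMul_vecMul]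
      exact congrArg (fun w => ℓ (w ᵥ* N)) (LinearMap.congr_fun hρ _)
  choose t ht using hG
  have hV : LinearMap.range ℓ = Submodule.span k (Set.range (ι0 ∘ X)) :=
    Fintype.range_linearCombination _ _
  have H : Setting G p (LinearMap.range ℓ) NL b fun g => t g⁻¹.1 g⁻¹.2 :=
    { hN := by
        rintro _ ⟨v, rfl⟩
        exact ⟨_, rfl⟩
      hNp := by
        rintro _ ⟨v, rfl⟩
        rw [hNL, hN, vecMul_zero, map_zero]
      hb := hb
      hb0 := hb0
      hb1 := hb1
      hlam := fun g h e => inv_injective (Subtype.ext (Units.ext (by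
        rw [ht _ g⁻¹.2, ht _ h⁻¹.2]
        simp only at e
        rw [e])))
      hact := by
        rintro g _ ⟨v, rfl⟩
        simp only [hNL]
        rw [hℓ, hact, sb_lin, ← hℓ, ht _ g⁻¹.2, vecMul_sum, map_sum]
        simp only [vecMul_smul, map_smul]
      hcard := by
        rw [← Nat.card_eq_fintype_card, ← IsPGroup.iff_card]
        refine fun g => ⟨1, Subtype.ext (Units.ext ?_)⟩
        have : g.1.1 = Polynomial.aeval N (∑ r ∈ Finset.range p,
            Polynomial.C ((b r).eval (t g.1 g.2)) * Polynomial.X ^ r) := by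
          rw [ht _ g.2]
          simp [Algebra.smul_def]
        rw [pow_one, Subgroup.coe_pow, Units.val_pow_eq_pow_val, this, ← map_pow, sum_pow_char,
          map_sum, Finset.sum_eq_single 0 (fun r _ hr => ?_) (by simp; omega), hb0]
        · simp
        · rw [mul_pow, ← pow_mul, mul_comm r, pow_mul, map_mul, map_pow, map_pow, map_pow,
            Polynomial.aeval_X, hN, zero_pow hr, mul_zero]
      hfin := inferInstance
      hind := fun S h1 h2 => algInd_of_span hx h1 (by rw [Subtype.range_coe, h2, hV]) }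
  have h1 : Algebra.adjoin k (LinearMap.range ℓ : Set L) = ι0.range := by
    rw [hV, Algebra.adjoin_span, Algebra.adjoin_range_eq_range_aeval]
    congr 1
    ext1 i; simp
  have h2 : (ι0.comp A.val).range = fix G (Algebra.adjoin k (LinearMap.range ℓ : Set L)) := by
    rw [h1]
    ext x
    constructor
    · rintro ⟨f, rfl⟩
      exact ⟨⟨f.1, rfl⟩, fun g => (hact g f.1).trans (congrArg ι0 ((hA _).1 f.2 _ g⁻¹.2))⟩
    · rintro ⟨⟨f, rfl⟩, hf⟩
      exact ⟨⟨f, (hA _).2 fun g hg => hι0 (by
        simpa using (hact (⟨g, hg⟩ : G)⁻¹ f).symm.trans (hf _))⟩, rfl⟩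
  have h3 : Function.Injective (ι0.comp A.val) := hι0.comp Subtype.val_injective
  have : Algebra.FiniteType k (ι0.comp A.val).range := by
    rw [h2, h1]
    have : Algebra.FiniteType k ι0.range :=
      .of_surjective ι0.rangeRestrict ι0.rangeRestrict_surjective
    refine fix_finiteType ?_
    rintro g _ ⟨f, rfl⟩
    exact ⟨_, (hact g f).symm⟩
  have : Algebra.FiniteType k A := .equiv this (AlgEquiv.ofInjective _ h3).symm
  obtain ⟨M, e1, e2, e3⟩ := H.resolved h2
  exact bridge _ M h3 e1 e2 e3

end Pool.Agent.MP_19ffc6_ag.Wild
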