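import Pool.Agent.MP_19ffc6_ag.VecLocal
import Pool.Agent.MP_19ffc6_ag.VecFinal
import Pool.Agent.MP_19ffc6_ag.WildMain

/-! Resolution of the quotients of several copies of the natural representation. -/

namespace Pool.Agent.MP_19ffc6_ag.Wild

open Submodule Matrix AlgebraicGeometry CategoryTheory

variable {F k L : Type} [Field F] [Fintype F] [Field k] [Field L] [Algebra F k] [Algebra k L]

section Semi

variable {P Γ : Type} [CommRing P] [Algebra k P] [Algebra F P] [IsScalarTower F k P]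
  (ι0 : P →ₐ[k] L) (τ : Γ → P →ₐ[k] P)

/-- Semi-invariants with a given character. -/
def SI (χ : Γ → F) (y : L) : Prop := ∃ f, ι0 f = y ∧ ∀ g, τ g f = χ g • f

variable {ι0 τ}

lemma SI.mul {χ χ' : Γ → F} {y y' : L} (h : SI ι0 τ χ y) (h' : SI ι0 τ χ' y') :
    SI ι0 τ (χ * χ') (y * y') := by
  obtain ⟨f, rfl, hf⟩ := h
  obtain ⟨f', rfl, hf'⟩ := h'
  exact ⟨f * f', map_mul .., fun g => by rw [map_mul, hf, hf', smul_mul_smul_comm]; rfl⟩

lemma SI.prod {T : Type} (s : Finset T) {χ : T → Γ → F} {y : T → L}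
    (h : ∀ t, SI ι0 τ (χ t) (y t)) : SI ι0 τ (∏ t ∈ s, χ t) (∏ t ∈ s, y t) := by
  classical
  induction s using Finset.induction_on with
  | empty => exact ⟨1, by simp, by simp⟩
  | insert t s ht ih =>
    rw [Finset.prod_insert ht, Finset.prod_insert ht]
    exact (h t).mul ih

lemma SI.pow {χ : Γ → F} {y : L} (h : SI ι0 τ χ y) (j : ℕ) : SI ι0 τ (χ ^ j) (y ^ j) := by
  simpa using SI.prod (Finset.range j) fun _ => h

theorem bridge_semi [IsDomain P] (hι0 : Function.Injective ι0)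
    (hτ : ∀ g, Function.Injective (τ g)) (A : Subalgebra k P) [Algebra.FiniteType k A]
    (hA : ∀ f, (∀ g, τ g f = f) → f ∈ A) {T : Type} [Fintype T] (X : T → Set L) (χ : T → Γ → F)
    (hX : ∀ t, ∀ x ∈ X t, SI ι0 τ (χ t) x) (hne : ∀ t, ∃ x ∈ X t, x ≠ 0)
    (H : ∀ O, Lcl O → ∀ g : T → L, (∀ t, g t ∈ X t ∧ g t ≠ 0 ∧ ∀ x ∈ X t, x / g t ∈ O) →
      ∃ D ≤ O, (ι0.comp A.val).range ≤ D ∧ Algebra.FormallySmooth k D ∧
        ∀ t, ∀ x ∈ X t, x / g t ∈ loc D O) :
    ∃ (Y : Scheme.{0}) (sY : Y ⟶ Spec (CommRingCat.of k)) (f : Y ⟶ Spec (CommRingCat.of A)),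
      IsIntegral Y ∧ Smooth sY ∧ f ≫ Spec.map (CommRingCat.ofHom (algebraMap k A)) = sY ∧
      IsProper f ∧ ∃ V : (Spec (CommRingCat.of A)).Opens, V ≠ ⊥ ∧ IsIso (f ∣_ V) := by
  choose x0 hx0 hx1 using hne
  obtain ⟨q, hq⟩ := Nat.exists_eq_add_of_le' (Fintype.one_lt_card (α := F))
  have h0 : ∏ t, x0 t ≠ 0 := Finset.prod_ne_zero_iff.2 fun t _ => hx1 t
  have h1 := SI.prod Finset.univ fun t => hX t _ (hx0 t)
  let X' : Option T → Set L := fun o => o.elim {(∏ t, x0 t) ^ q} X
  refine bridge (ι0.comp A.val) (span k {y | ∃ x : Option T → L, (∀ t, x t ∈ X' t) ∧ y = ∏ t, x t})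
    (hι0.comp Subtype.val_injective) (span_le.2 ?_) ((Submodule.ne_bot_iff _).2
      ⟨_, subset_span ⟨fun o => o.elim ((∏ t, x0 t) ^ q) x0, by rintro (_ | t); exacts [rfl, hx0 t],
        rfl⟩, ?_⟩) fun O hO => ?_
  · rintro _ ⟨x, hx, rfl⟩
    obtain ⟨f, e, hf⟩ := (h1.pow q).mul (SI.prod Finset.univ fun t => hX t _ (hx (some t)))
    refine ⟨⟨f, hA f fun g => ?_⟩, e.trans (by rw [Fintype.prod_option, hx none])⟩
    obtain ⟨f0, e0, hf0⟩ := h1
    have : (∏ t, χ t) g ≠ 0 := fun e => h0 (by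
      rw [← e0, hτ g ((hf0 g).trans (by rw [e, zero_smul, map_zero])), map_zero])
    rw [hf, Pi.mul_apply, Pi.pow_apply, ← pow_succ, show q + 1 = Fintype.card F - 1 by omega,
      FiniteField.pow_card_sub_one_eq_one _ this, one_smul]
  · rw [Fintype.prod_option]
    exact mul_ne_zero (pow_ne_zero q h0) h0
  · obtain ⟨h2, -, g, hg, h3⟩ := pt_prod X' hO
    obtain ⟨D, hD, h4, _, h5⟩ := H O h2 (fun t => g (some t)) fun t => hg (some t)
    refine (h3 D hD h4 ?_).sf.formallySmooth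
    rintro (_ | t) x hx
    · rw [show x = g none from hx.trans (hg none).1.symm, div_self (hg none).2.1]
      exact one_mem _
    · exact h5 t x hx

end Semi

variable {m n : ℕ}

/-- The substitution given by a matrix acting on each vector. -/
noncomputable def vs (k : Type) [Field k] [Algebra F k] (m : ℕ) (g : Matrix (Fin n) (Fin n) F) :
    MvPolynomial (Fin m × Fin n) k →ₐ[k] MvPolynomial (Fin m × Fin n) k :=
  MvPolynomial.aeval fun x => ∑ b, algebraMap F k (g x.2 b) • MvPolynomial.X (x.1, b)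

lemma vs_X (g : Matrix (Fin n) (Fin n) F) (i : Fin m) (a : Fin n) :
    vs k m g (.X (i, a)) = ∑ b, g a b • MvPolynomial.X (i, b) := by
  simp [vs]

lemma vs_one (f : MvPolynomial (Fin m × Fin n) k) : vs k m (1 : Matrix (Fin n) (Fin n) F) f = f := by
  have : vs k m (1 : Matrix (Fin n) (Fin n) F) = AlgHom.id _ _ := by
    ext1 ⟨i, a⟩; simp [vs_X, one_apply]
  rw [this]; rfl

lemma vs_mul (M M' : Matrix (Fin n) (Fin n) F) (f : MvPolynomial (Fin m × Fin n) k) :
    vs k m (M' * M) f = vs k m M (vs k m M' f) := by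
  have : vs k m (M' * M) = (vs k m M).comp (vs k m M') := by
    ext1 ⟨i, a⟩
    simp only [AlgHom.comp_apply, vs_X, map_sum, AlgHom.map_smul_of_tower, Finset.smul_sum,
      smul_smul, mul_apply, Finset.sum_smul]
    exact Finset.sum_comm
  rw [this]; rfl

variable [Algebra F L] [IsScalarTower F k L] (ι0 : MvPolynomial (Fin m × Fin n) k →ₐ[k] L)
  {lev : Fin n → ℕ}

lemma si_pl {Γ : Type} (γ : Γ → Matrix (Fin n) (Fin n) F)
    (hγ : ∀ g a b, lev a < lev b → γ g a b = 0) (t : ℕ) :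
    ∀ x ∈ Pl (FiniteField.frobeniusAlgHom F L).toRingHom lev (fun i a => ι0 (.X (i, a))) t,
      SI ι0 (fun g => vs k m (γ g))
        (fun g => (Matrix.of fun s b : {b // lev b < t} => γ g s b).det) x := by
  rintro _ ⟨f, hf, rfl⟩
  choose i j hf using hf
  let φ := FiniteField.frobeniusAlgHom F (MvPolynomial (Fin m × Fin n) k)
  have hφ : ∀ j x, (φ ^ j) x = x ^ Fintype.card F ^ j := fun j x => by
    rw [AlgHom.coe_pow, FiniteField.coe_frobeniusAlgHom, pow_iterate]
  let N := Matrix.of fun s b : {b // lev b < t} => (φ ^ j s) (.X (i s, b))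
  refine ⟨N.det, ?_, fun g => ?_⟩
  · rw [AlgHom.map_det]
    congr 1
    ext s b
    simp only [AlgHom.mapMatrix_apply, map_apply, N, of_apply, hφ, map_pow, res, hf]
    exact (congrFun (pow_iterate (Fintype.card F) (j s)) _).symm
  · have : (vs k m (γ g)).mapMatrix N = N * ((algebraMap F _).mapMatrix
        (Matrix.of fun s b : {b // lev b < t} => γ g s b))ᵀ := by
      ext1 s b
      simp only [AlgHom.mapMatrix_apply, map_apply, N, of_apply, mul_apply, transpose_apply,
        RingHom.mapMatrix_apply]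
      rw [hφ, map_pow, ← hφ, vs_X, map_sum, ← Finset.sum_subset (Finset.subset_univ
        (Finset.univ.filter fun b => lev b < t)) fun b' _ hb' => by
          rw [hγ g b b' (by have := b.2; simp at hb'; omega), zero_smul, map_zero],
        Finset.sum_subtype _ (p := fun b => lev b < t) (by simp)]
      exact Finset.sum_congr rfl fun b' _ => by rw [map_smul, Algebra.smul_def, mul_comm]
    rw [AlgHom.map_det, this, det_mul, det_transpose, ← RingHom.map_det, Algebra.smul_def,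
      mul_comm]

lemma exists_pl (hι0 : Function.Injective ι0) (hm : 0 < m) (t : ℕ) :
    ∃ x ∈ Pl (FiniteField.frobeniusAlgHom F L).toRingHom lev (fun i a => ι0 (.X (i, a))) t,
      x ≠ 0 := by
  classical
  refine ⟨_, ⟨fun s => _, fun s => ⟨⟨0, hm⟩, s.1.1, rfl⟩, rfl⟩, ?_⟩
  let d : Equiv.Perm {b // lev b < t} → Fin m × Fin n →₀ ℕ := fun σ =>
    ∑ b, Finsupp.single (⟨0, hm⟩, b.1) (Fintype.card F ^ (σ b).1.1)
  have hd : ∀ σ b, d σ (⟨0, hm⟩, b.1) = Fintype.card F ^ (σ b).1.1 := fun σ b => by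
    simp [d, Finsupp.single_apply, Subtype.val_inj]
  have hli := (((MvPolynomial.basisMonomials _ k).linearIndependent.comp d fun σ σ' h =>
    Equiv.ext fun b => Subtype.ext (Fin.ext (Nat.pow_right_injective Fintype.one_lt_card
      ((hd σ b).symm.trans (h ▸ hd σ' b))))).map_injOn ι0.toLinearMap hι0.injOn)
  rw [det_apply']
  intro h
  have := Fintype.linearIndependent_iff.1 hli (fun σ => ((Equiv.Perm.sign σ : ℤ) : k))
    (Eq.trans (Finset.sum_congr rfl fun σ _ => ?_) h) 1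
  · simp at this
  · rw [Algebra.smul_def, map_intCast]
    congr 1
    simp only [d, Function.comp_apply, MvPolynomial.coe_basisMonomials, AlgHom.toLinearMap_apply,
      MvPolynomial.monomial_sum_one, map_prod, ← MvPolynomial.X_pow_eq_monomial, map_pow]
    exact Finset.prod_congr rfl fun b _ => (congrFun (pow_iterate (Fintype.card F) _) _).symm

theorem vec_main (F k : Type) [Field F] [Fintype F] [Field k] [Algebra F k] (hm : 0 < m)
    (lev h : Fin n → ℕ) (hh : ∀ a, h a ∣ Fintype.card F - 1) (G : Subgroup (GL (Fin n) F))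
    (hG : ∀ g, g ∈ G ↔ (∀ a b, lev a < lev b → g a b = 0) ∧
      ∀ a, (∀ b, lev b = lev a → b = a) → g a a ^ h a = 1)
    (A : Subalgebra k (MvPolynomial (Fin m × Fin n) k))
    (hA : ∀ f, f ∈ A ↔ ∀ g ∈ G, vs k m g.1 f = f) :
    ∃ (Y : Scheme.{0}) (sY : Y ⟶ Spec (CommRingCat.of k)) (f : Y ⟶ Spec (CommRingCat.of A)),
      IsIntegral Y ∧ Smooth sY ∧ f ≫ Spec.map (CommRingCat.ofHom (algebraMap k A)) = sY ∧
      IsProper f ∧ ∃ V : (Spec (CommRingCat.of A)).Opens, V ≠ ⊥ ∧ IsIso (f ∣_ V) := by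
  classical
  let P := MvPolynomial (Fin m × Fin n) k
  let L := FractionRing P
  let ι0 : P →ₐ[k] L := IsScalarTower.toAlgHom k P L
  have hι0 : Function.Injective ι0 := IsFractionRing.injective P L
  have : Algebra.FiniteType k A := by
    let : MulSemiringAction G P := actOf (fun g => vs k m (g⁻¹.1 : GL (Fin n) F).1)
      (fun f => by rw [inv_one]; exact vs_one f)
      fun g h f => by rw [← vs_mul, _root_.mul_inv_rev]; rfl
    have : SMulCommClass G k P := ⟨fun g c x => map_smul (vs k m (g⁻¹.1 : GL (Fin n) F).1) c x⟩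
    have e : A = fix G ⊤ := Subalgebra.ext fun f => (hA f).trans
      ⟨fun h => ⟨trivial, fun g => h _ g⁻¹.2⟩, fun h g hg => by
        have : vs k m ((⟨g, hg⟩ : G)⁻¹⁻¹.1 : GL (Fin n) F).1 f = f := h.2 _
        rwa [inv_inv] at this⟩
    have : Algebra.FiniteType k (⊤ : Subalgebra k P) := .equiv inferInstance Subalgebra.topEquiv.symm
    exact e ▸ fix_finiteType fun _ _ _ => trivial
  let T := Finset.univ.sup lev + 1
  have hT : ∀ a, lev a < T := fun a => Nat.lt_succ_of_le (Finset.le_sup (Finset.mem_univ a))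
  let φ := (FiniteField.frobeniusAlgHom F L).toRingHom
  let v : Fin m → Fin n → L := fun i a => ι0 (.X (i, a))
  have hsi := si_pl (lev := lev) ι0 (fun g : G => g.1.1) fun g => ((hG _).1 g.2).1
  have hq := Fintype.one_lt_card (α := F)
  refine bridge_semi (F := F) (τ := fun g : G => vs k m g.1.1) hι0 (fun g => ?_) A
    (fun f hf => (hA f).2 fun g hg => hf ⟨g, hg⟩)
    (Sum.elim (fun t : Fin (T + 1) => Pl φ lev v t)
      fun a : {a // ∀ b, lev b = lev a → b = a} => Pl2 φ lev h v a)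
    (Sum.elim (fun t g => (Matrix.of fun s b : {b // lev b < t.1} => g.1.1 s b).det)
      fun a => (fun g => (Matrix.of fun s b : {b // lev b < lev a} => g.1.1 s b).det) ^ h a)
    ?_ ?_ fun O hO g hg => ?_
  · refine Function.LeftInverse.injective (g := vs k m g.1⁻¹.1) fun f => ?_
    rw [← vs_mul, Units.mul_inv, vs_one]
  · rintro (t | a)
    · exact hsi t
    · rintro _ ⟨y, hy | hy, rfl⟩
      · exact (hsi _ y hy).pow _
      · convert (hsi _ y hy).pow (h a) using 1
        ext g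
        have := det_succ (fun a b => g.1.1 b a) a.2 fun b hb => ((hG _).1 g.2).1 b a hb
        rw [← det_transpose, ← det_transpose (Matrix.of fun s b : {b // lev b < lev a} => _)] at this
        refine Eq.trans ?_ (congrArg (· ^ h a) this.symm)
        rw [mul_pow, ((hG _).1 g.2).2 a a.2, mul_one]
        rfl
  · rintro (t | a)
    · exact exists_pl ι0 hι0 hm t
    · obtain ⟨x, hx, hx0⟩ := exists_pl (F := F) (lev := lev) ι0 hι0 hm (lev a)
      exact ⟨_, ⟨x, .inl hx, rfl⟩, pow_ne_zero _ hx0⟩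
  · obtain ⟨c, E, h1, h2, h3, h4, h5, h6, h7, h8⟩ := local_chart (φ := φ)
      (q := Fintype.card F - 1) (fun x => by rw [Nat.sub_add_cancel hq.le]; rfl) (by omega) hm hT
      hh hO (fun t => g (.inl t)) (fun t => hg (.inl t)) (fun a => g (.inr a)) fun a => hg (.inr a)
    obtain ⟨h9, h10⟩ := final (F := F) (fun _ _ => rfl) c E h1 h2 h3 h4 h5
    refine ⟨_, h6, ?_, h9, ?_⟩
    · rintro _ ⟨f, rfl⟩
      exact h10 f fun g e1 e2 => (hA _).1 f.2 g ((hG g).2 ⟨e1, e2⟩)
    · rintro (t | a)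
      exacts [h7 t, h8 a]

end Pool.Agent.MP_19ffc6_ag.Wild
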