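import Pool.Agent.MP_19ffc6_ag.VecGreedy

/-! Local coordinates on the flag Quot scheme of Frobenius modules. -/

namespace Pool.Agent.MP_19ffc6_ag.Wild

open Submodule Matrix

variable {k L : Type} [Field k] [Field L] [Algebra k L] {m n : ℕ}

/-- The Frobenius orbit of a family of vectors. -/
def orb (φ : L →+* L) (u : Fin m → Fin n → L) : Set (Fin n → L) := {y | ∃ i j, y = φ^[j] ∘ u i}

lemma mem_orb (φ : L →+* L) (u : Fin m → Fin n → L) (i : Fin m) : u i ∈ orb φ u := ⟨i, 0, rfl⟩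

lemma comp_mem_orb {φ : L →+* L} {u : Fin m → Fin n → L} {y : Fin n → L} (h : y ∈ orb φ u) :
    φ ∘ y ∈ orb φ u := by
  obtain ⟨i, j, rfl⟩ := h
  exact ⟨i, j + 1, by rw [Function.iterate_succ']; rfl⟩

lemma span_mono_alg {R O : Subalgebra k L} (h : R ≤ O) {σ : Type} {X Z : Set (σ → L)}
    (hX : ∀ x ∈ X, x ∈ span O Z) {y : σ → L} (hy : y ∈ span R X) : y ∈ span O Z := by
  induction hy using span_induction with
  | mem x hx => exact hX x hx
  | zero => exact zero_mem _
  | add x y _ _ hx hy => exact add_mem hx hy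
  | smul c x _ hx => exact smul_mem _ (⟨c.1, h c.2⟩ : O) hx

lemma comp_mem_span {φ : L →+* L} {q : ℕ} (hφ : ∀ x, φ x = x ^ q) {R : Subalgebra k L} {σ : Type}
    {X Z : Set (σ → L)} (hX : ∀ x ∈ X, φ ∘ x ∈ span R Z) {y : σ → L} (hy : y ∈ span R X) :
    φ ∘ y ∈ span R Z := by
  induction hy using span_induction with
  | mem x hx => exact hX x hx
  | zero => convert zero_mem (span R Z); ext; simp
  | add x y _ _ hx hy => convert add_mem hx hy; ext; simp
  | smul c x _ hx => convert smul_mem _ (c ^ q) hx; ext; simp [Subalgebra.smul_def, hφ, mul_pow]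

lemma orb_subset {φ : L →+* L} {q : ℕ} (hφ : ∀ x, φ x = x ^ q) {R : Subalgebra k L}
    {Z : Set (Fin n → L)} (hZ : ∀ x ∈ Z, φ ∘ x ∈ span R Z) {u : Fin m → Fin n → L}
    (hu : ∀ i, u i ∈ span R Z) : ∀ y ∈ orb φ u, y ∈ span R Z := by
  rintro _ ⟨i, j, rfl⟩
  induction j with
  | zero => exact hu i
  | succ j ih => rw [Function.iterate_succ']; exact comp_mem_span hφ hZ ih

variable (k) in
/-- The ring generated by the coordinates of level below `t`. -/
def Rt (lev : Fin n → ℕ) (c : Fin m → Fin n → L) (t : ℕ) : Subalgebra k L :=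
  Algebra.adjoin k {x | ∃ i a, lev a < t ∧ x = c i a}

/-- Restriction to the indices of level below `t`. -/
def res (lev : Fin n → ℕ) (t : ℕ) (y : Fin n → L) : {b // lev b < t} → L := fun b => y b

/-- The data of the first `t` steps. -/
structure Inv (φ : L →+* L) (lev : Fin n → ℕ) (O : Subalgebra k L) (v : Fin m → Fin n → L) (t : ℕ)
    (c : Fin m → Fin n → L) (e : Fin n → Fin n → L) (u : Fin m → Fin n → L) : Prop where
  hc : ∀ i a, c i a ∈ O
  he : ∀ a, lev a < t → e a ∈ span (Rt k lev c t) (orb φ v)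
  hu : ∀ i, u i ∈ span (Rt k lev c t) (orb φ v)
  hu0 : ∀ i b, lev b < t → u i b = 0
  he0 : ∀ a b, lev b < lev a → lev a < t → e a b = 0
  hv : ∀ i, v i ∈ span (Rt k lev c t) (e '' {a | lev a < t} ∪ orb φ u)
  hφ : ∀ a, lev a < t → φ ∘ e a ∈ span (Rt k lev c t) (e '' {a | lev a < t} ∪ orb φ u)
  hdet : (Matrix.of fun a : {b // lev b < t} => res lev t (e a)).det ≠ 0
  hy : ∀ a, lev a < t → (∀ b, lev b = lev a → b = a) → ∃ i, c i a * e a a = φ (e a a)

lemma orb_zero {φ : L →+* L} {u : Fin m → Fin n → L} {b : Fin n} (h : ∀ i, u i b = 0)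
    {R : Subalgebra k L} {y : Fin n → L} (hy : y ∈ span R (orb φ u)) : y b = 0 := by
  induction hy using span_induction with
  | mem x hx =>
    obtain ⟨i, j, rfl⟩ := hx
    rw [Function.comp_apply, h, iterate_map_zero]
  | zero => rfl
  | add x y _ _ hx hy => simp [hx, hy]
  | smul c x _ hx => simp [hx]

lemma Inv.step {φ : L →+* L} {q : ℕ} (hφ : ∀ x, φ x = x ^ q) (hq : 0 < q) (hm : 0 < m)
    {lev : Fin n → ℕ} {O : Subalgebra k L} (hO : Lcl O) {v : Fin m → Fin n → L} {t : ℕ}
    {c : Fin m → Fin n → L} {e : Fin n → Fin n → L} {u : Fin m → Fin n → L}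
    (H : Inv φ lev O v t c e u) (f : {b // lev b < t + 1} → Fin n → L) (hf : ∀ b, f b ∈ orb φ v)
    (hf0 : (Matrix.of fun b => res lev (t + 1) (f b)).det ≠ 0)
    (hf1 : ∀ y ∈ orb φ v,
      res lev (t + 1) y ∈ span O (Set.range fun b => res lev (t + 1) (f b))) :
    ∃ c' e' u', Inv φ lev O v (t + 1) c' e' u' := by
  classical
  have := hO.isLocalRing
  have hRO : Rt k lev c t ≤ O := Algebra.adjoin_le (by rintro _ ⟨i, a, -, rfl⟩; exact H.hc i a)
  let ρ : (Fin n → L) →ₗ[O] ({b // lev b < t + 1} → L) := LinearMap.funLeft O L Subtype.val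
  have hρ : ∀ y, ρ y = res lev (t + 1) y := fun _ => rfl
  let T := Fintype.linearCombination O fun b => ρ (f b)
  have hT : ∀ x b, T x b = ∑ b', (x b' : L) * f b' b := fun x b => by
    simp [T, Fintype.linearCombination_apply, Subalgebra.smul_def, hρ, res]
  have hTi : Function.Injective T := by
    rw [injective_iff_map_eq_zero]
    intro x hx
    have := eq_zero_of_vecMul_eq_zero hf0 (v := fun b => (x b : L)) (by
      ext b; exact (hT x b).symm.trans (congrFun hx b))
    ext b; exact congrFun this b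
  have hex : ∀ y ∈ span O (orb φ v), ∃ x, T x = ρ y := fun y hy => by
    have : ρ y ∈ LinearMap.range T := by
      rw [Fintype.range_linearCombination]
      exact (span_le.2 hf1 : span O (orb φ v) ≤ comap ρ (span O (Set.range fun b => ρ (f b)))) hy
    exact this
  have hst : ∀ {R : Subalgebra k L}, ∀ x ∈ orb φ v, φ ∘ x ∈ span R (orb φ v) := fun x hx =>
    subset_span (comp_mem_orb hx)
  let z : ℕ → Fin n → L := fun ω => φ^[ω / m] ∘ u ⟨ω % m, Nat.mod_lt _ hm⟩
  have hz : ∀ ω, z (ω + m) = φ ∘ z ω := fun ω => by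
    simp only [z, Nat.add_div_right _ hm, Nat.add_mod_right, Function.iterate_succ']; rfl
  have hz' : ∀ (i : Fin m) j, z (i + j * m) = φ^[j] ∘ u i := fun i j => by
    simp only [z, Nat.add_mul_div_right _ _ hm, Nat.add_mul_mod_self_right, Nat.div_eq_of_lt i.2,
      Nat.mod_eq_of_lt i.2, zero_add]
  have hzu : ∀ ω, z ω ∈ orb φ u := fun ω => ⟨_, _, rfl⟩
  have hzR : ∀ ω, z ω ∈ span (Rt k lev c t) (orb φ v) := fun ω =>
    orb_subset hφ hst H.hu _ (hzu ω)
  have hz0 : ∀ ω b, lev b < t → z ω b = 0 := fun ω b hb =>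
    orb_zero (R := O) (fun i => H.hu0 i b hb) (subset_span (hzu ω))
  choose a ha using fun ω => hex _ (span_mono_alg hRO (fun _ h => subset_span h) (hzR ω))
  choose ε hε using fun s : {b // lev b < t} =>
    hex _ (span_mono_alg hRO (fun _ h => subset_span h) (H.he s s.2))
  choose Φ hΦ using fun b => hex _ (hst _ (hf b))
  have him : e '' {a | lev a < t} = Set.range fun s : {b // lev b < t} => e s :=
    Set.image_eq_range _ _
  have hvsp : ∀ y ∈ orb φ v, y ∈ span (Rt k lev c t) (e '' {a | lev a < t} ∪ orb φ u) :=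
    orb_subset hφ (by
      rintro x (⟨a, ha, rfl⟩ | hx)
      exacts [H.hφ a ha, subset_span (Or.inr (comp_mem_orb hx))]) H.hv
  have hfr : ∀ b, ∃ r : {b // lev b < t} → O, ∀ b0, lev b0 < t →
      f b b0 = ∑ s, (r s : L) * e s b0 := by
    intro b
    have := span_mono_alg hRO (fun _ h => subset_span h) (hvsp _ (hf b))
    rw [span_union, mem_sup, him] at this
    obtain ⟨y, hy, w, hw, e1⟩ := this
    obtain ⟨r, rfl⟩ := (mem_span_range_iff_exists_fun O).1 hy
    refine ⟨r, fun b0 hb0 => ?_⟩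
    rw [← e1, Pi.add_apply, orb_zero (fun i => H.hu0 i b0 hb0) hw]
    simp [Subalgebra.smul_def]
  choose r hr using hfr
  have hkey : ∀ (x : {b // lev b < t + 1} → O) (y : {b // lev b < t} → O),
      (∀ b0 (h : lev b0 < t), T x ⟨b0, h.trans t.lt_succ_self⟩ = ∑ s, (y s : L) * e s b0) →
      x ᵥ* Matrix.of r = y := by
    intro x y h
    have := eq_zero_of_vecMul_eq_zero H.hdet (v := fun s => ((x ᵥ* Matrix.of r) s - y s : L)) (by
      ext b0
      have h1 := h b0 b0.2
      rw [hT] at h1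
      simp only [hr _ _ b0.2, Finset.mul_sum] at h1
      rw [Finset.sum_comm] at h1
      simp only [vecMul, dotProduct, of_apply, res, sub_mul, Finset.sum_sub_distrib, ← h1,
        AddSubmonoidClass.coe_finsetSum, Subalgebra.coe_mul, Finset.sum_mul, mul_assoc, sub_self,
        Pi.zero_apply])
    ext s; exact sub_eq_zero.1 (congrFun this s)
  have hr1 : ∀ s, ε s ᵥ* Matrix.of r = Pi.single s 1 := fun s => hkey _ _ fun b0 h => by
    rw [hε, Finset.sum_eq_single s (fun s' _ hs => by simp [Pi.single_eq_of_ne hs]) (by simp)]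
    simp [hρ, res]
  have hr2 : ∀ ω, a ω ᵥ* Matrix.of r = 0 := fun ω => hkey _ _ fun b0 h => by
    rw [ha]; simpa [hρ, res] using hz0 ω b0 h
  let φO : O →+* O := (φ.comp O.val.toRingHom).codRestrict O fun x => by
    change φ x ∈ O
    rw [hφ]; exact pow_mem x.2 q
  obtain ⟨I, h1, h2, h3⟩ := greedy_local ε a m φO (fun x hx hu => hx (by
      have : φO x = x ^ q := Subtype.ext (hφ x)
      rwa [this, isUnit_pow_iff hq.ne'] at hu)) (Matrix.of Φ) (fun ω => hTi (by
      ext b
      have e1 := congrFun (ha ω) b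
      rw [ha, hz, hT]
      rw [hT] at e1
      have e2 : ∀ b', ∑ b'', (Φ b' b'' : L) * f b'' b = φ (f b' b) := fun b' =>
        (hT _ b).symm.trans (congrFun (hΦ b') b)
      simp only [vecMul, dotProduct, of_apply, AddSubmonoidClass.coe_finsetSum,
        Subalgebra.coe_mul, Finset.sum_mul, mul_assoc]
      rw [Finset.sum_comm]
      simp only [← Finset.mul_sum, e2]
      change φ (ρ (z ω) b) = _
      rw [← e1, map_sum]
      exact Finset.sum_congr rfl fun b' _ => map_mul _ _ _)) (Matrix.of r) hr1 hr2 (by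
      rw [eq_top_iff, ← map_le_map_iff_of_injective hTi, Submodule.map_top,
        Fintype.range_linearCombination, span_le, map_span]
      rintro _ ⟨b, rfl⟩
      refine (span_le.2 ?_ : _ ≤ comap ρ (span O (T '' (Set.range ε ∪ Set.range a))))
        (span_mono_alg hRO (fun _ h => subset_span h) (hvsp _ (hf b)))
      rintro _ (⟨s, hs, rfl⟩ | ⟨i, j, rfl⟩)
      · exact subset_span ⟨_, Or.inl ⟨⟨s, hs⟩, rfl⟩, hε _⟩
      · exact subset_span ⟨_, Or.inr ⟨i + j * m, rfl⟩, by rw [ha, hz']⟩)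
  have hcard : Fintype.card {b // lev b = t} = Fintype.card I := by
    have : Fintype.card {b // lev b < t + 1} =
        Fintype.card {b // lev b < t} + Fintype.card {b // lev b = t} := by
      rw [← Fintype.card_subtype_or_disjoint _ _ (Pi.disjoint_iff.2 fun b => by
        simp only [Prop.disjoint_iff]; omega)]
      exact Fintype.card_congr (Equiv.subtypeEquivRight fun b => Nat.lt_succ_iff_lt_or_eq)
    rw [Fintype.card_coe]; omega
  let σ := Fintype.equivOfCardEq hcard
  have hIσ : ∀ {X : Type} (w : ℕ → X), w '' I = Set.range fun p => w (σ p) := fun w => by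
    rw [Set.image_eq_range]
    exact (σ.surjective.range_comp fun x : I => w x).symm
  have hbord : ∀ i : Fin m, ∃ j, i + j * m ∉ I := fun i => ⟨I.sup id + 1, fun h => by
    have h4 : (i : ℕ) + (I.sup id + 1) * m ≤ I.sup id := Finset.le_sup (f := id) h
    nlinarith⟩
  let β : Fin m → ℕ := fun i => i + Nat.find (hbord i) * m
  have hβ1 : ∀ i : Fin m, i.1 ∈ I ∨ β i = i := fun i => by
    by_cases h : i.1 ∈ I
    · exact Or.inl h
    · simp [β, (Nat.find_eq_zero (hbord i)).2 (by simpa using h)]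
  have hβ2 : ∀ ω ∈ I, ω + m ∈ I ∨ ω + m = β ⟨ω % m, Nat.mod_lt _ hm⟩ := fun ω hω => by
    rw [or_iff_not_imp_left]
    intro h
    have e1 : ω % m + (ω / m + 1) * m = ω + m := by
      have := Nat.mod_add_div' ω m; linarith
    have : Nat.find (hbord ⟨ω % m, Nat.mod_lt _ hm⟩) = ω / m + 1 := by
      rw [Nat.find_eq_iff]
      refine ⟨by rwa [e1], fun j hj => not_not.2 ?_⟩
      obtain ⟨d, hd⟩ := Nat.exists_eq_add_of_le (Nat.lt_succ_iff.1 hj)
      have : ∀ d, ω % m + j * m + d * m ∈ I → ω % m + j * m ∈ I := fun d => by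
        induction d with
        | zero => simp
        | succ d ih => exact fun h => ih (h3 _ (by rwa [add_assoc, ← add_one_mul]))
      refine this d ?_
      rwa [add_assoc, ← add_mul, ← hd, Nat.mod_add_div']
    simp only [β, this, e1]
  have hcc : ∀ i, ∃ cc : {b // lev b = t} → O, ∑ p, cc p • a (σ p) = a (β i) := by
    intro i
    have : a (β i) ∈ span O (Set.range ε ∪ a '' I) := h2 ▸ mem_top
    rw [span_union, mem_sup, hIσ] at this
    obtain ⟨y, hy, w, hw, e1⟩ := this
    obtain ⟨α, rfl⟩ := (mem_span_range_iff_exists_fun O).1 hy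
    obtain ⟨cc, rfl⟩ := (mem_span_range_iff_exists_fun O).1 hw
    have e2 := congrArg (· ᵥ* Matrix.of r) e1
    simp only [add_vecMul, sum_vecMul, smul_vecMul, hr1, hr2, smul_zero, Finset.sum_const_zero,
      add_zero, ← pi_eq_sum_univ' α] at e2
    exact ⟨cc, by simpa [e2] using e1⟩
  choose cc hcc using hcc
  let e' : Fin n → Fin n → L := fun b => if h : lev b = t then z (σ ⟨b, h⟩) else e b
  let c' : Fin m → Fin n → L := fun i b => if h : lev b = t then cc i ⟨b, h⟩ else c i b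
  let u' : Fin m → Fin n → L := fun i => z (β i) - ∑ p, (cc i p : L) • z (σ p)
  have he1 : ∀ b, lev b < t → e' b = e b := fun b hb => dif_neg hb.ne
  have he2 : ∀ p : {b // lev b = t}, e' p = z (σ p) := fun p => dif_pos p.2
  have hRR : Rt k lev c t ≤ Rt k lev c' (t + 1) := Algebra.adjoin_mono (by
    rintro _ ⟨i, b, hb, rfl⟩
    exact ⟨i, b, hb.trans t.lt_succ_self, by simp only [c', dif_neg hb.ne]⟩)
  have hsum : ∀ i (W : Submodule (Rt k lev c' (t + 1)) (Fin n → L)), (∀ p, z (σ p) ∈ W) →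
      ∑ p, (cc i p : L) • z (σ p) ∈ W := fun i W hW => sum_mem fun p _ =>
    smul_mem W (⟨cc i p, Algebra.subset_adjoin ⟨i, p, by rw [p.2]; exact t.lt_succ_self,
      by simp only [c', dif_pos p.2]⟩⟩ : Rt k lev c' (t + 1)) (hW p)
  have hzR' : ∀ ω, z ω ∈ span (Rt k lev c' (t + 1)) (orb φ v) := fun ω =>
    span_mono_alg hRR (fun _ h => subset_span h) (hzR ω)
  have hu0 : ∀ i b, lev b < t + 1 → u' i b = 0 := fun i b hb => by
    have := congrFun (congrArg T (hcc i)) ⟨b, hb⟩
    simp only [map_sum, map_smul, ha] at this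
    simpa [u', sub_eq_zero, hρ, res, Subalgebra.smul_def] using this.symm
  have horb : ∀ y ∈ orb φ u, y ∈ span (Rt k lev c' (t + 1)) (z '' I ∪ orb φ u') := by
    have h4 : ∀ i, z (β i) ∈ span (Rt k lev c' (t + 1)) (z '' I ∪ orb φ u') := fun i => by
      rw [← sub_add_cancel (z (β i)) (∑ p, (cc i p : L) • z (σ p))]
      exact add_mem (subset_span (Or.inr (mem_orb φ u' i)))
        (hsum i _ fun p => subset_span (Or.inl ⟨_, (σ p).2, rfl⟩))
    refine orb_subset hφ ?_ fun i => ?_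
    · rintro x (⟨ω, hω, rfl⟩ | hx)
      · rw [← hz]
        rcases hβ2 ω hω with h | h
        exacts [subset_span (Or.inl ⟨_, h, rfl⟩), h ▸ h4 _]
      · exact subset_span (Or.inr (comp_mem_orb hx))
    · have : u i = z i := by simpa using (hz' i 0).symm
      rw [this]
      rcases hβ1 i with h | h
      exacts [subset_span (Or.inl ⟨_, h, rfl⟩), h ▸ h4 _]
  have hsub : ∀ y ∈ z '' I ∪ orb φ u',
      y ∈ span (Rt k lev c' (t + 1)) (e' '' {a | lev a < t + 1} ∪ orb φ u') := by
    rintro y (hy | hy)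
    · rw [hIσ] at hy
      obtain ⟨p, rfl⟩ := hy
      exact subset_span (Or.inl ⟨p, by simp [p.2], he2 p⟩)
    · exact subset_span (Or.inr hy)
  have hold : ∀ y ∈ e '' {a | lev a < t} ∪ orb φ u,
      y ∈ span (Rt k lev c' (t + 1)) (e' '' {a | lev a < t + 1} ∪ orb φ u') := by
    rintro y (⟨b, hb, rfl⟩ | hy)
    · exact subset_span (Or.inl ⟨b, Nat.lt_succ_of_lt hb, he1 b hb⟩)
    · exact span_mono_alg le_rfl hsub (horb y hy)
  refine ⟨c', e', u', fun i b => ?_, fun b hb => ?_, fun i => sub_mem (hzR' _)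
    (hsum i _ fun p => hzR' _), hu0, fun b b' h hb => ?_,
    fun i => span_mono_alg hRR hold (H.hv i), fun b hb => ?_, ?_, fun b hb hs => ?_⟩
  · simp only [c']
    split_ifs
    exacts [Subtype.prop _, H.hc i b]
  · rcases Nat.lt_succ_iff_lt_or_eq.1 hb with h | h
    · rw [he1 b h]; exact span_mono_alg hRR (fun _ h => subset_span h) (H.he b h)
    · rw [he2 ⟨b, h⟩]; exact hzR' _
  · rcases Nat.lt_succ_iff_lt_or_eq.1 hb with h' | h'
    · rw [he1 b h']; exact H.he0 b b' h h'
    · rw [he2 ⟨b, h'⟩]; exact hz0 _ _ (h' ▸ h)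
  · rcases Nat.lt_succ_iff_lt_or_eq.1 hb with h | h
    · rw [he1 b h]; exact span_mono_alg hRR hold (H.hφ b h)
    · rw [he2 ⟨b, h⟩]; exact span_mono_alg le_rfl hsub (horb _ (comp_mem_orb (hzu _)))
  · obtain ⟨d, -, hd⟩ := det_of_span (D := O) (y := fun b => res lev (t + 1) (f b))
      (f := fun b : {b // lev b < t + 1} => res lev (t + 1) (e' b)) fun b => by
        have : T (Pi.single b 1) ∈ (span O (Set.range ε ∪ a '' I)).map T :=
          mem_map_of_mem (h2 ▸ mem_top)
        rw [map_span, Fintype.linearCombination_apply_single, one_smul, hIσ] at this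
        refine span_mono ?_ this
        rintro _ ⟨_, ⟨s, rfl⟩ | ⟨p, rfl⟩, rfl⟩
        · exact ⟨⟨s, Nat.lt_succ_of_lt s.2⟩, by simp only [hε, he1 _ s.2, hρ]⟩
        · exact ⟨⟨p, by simp [p.2]⟩, by simp only [ha, he2, hρ]⟩
    exact fun h => hf0 (by rw [hd, h, mul_zero])
  · rcases Nat.lt_succ_iff_lt_or_eq.1 hb with h | h
    · obtain ⟨i, hi⟩ := H.hy b h hs
      exact ⟨i, by simpa only [he1 b h, c', dif_neg h.ne] using hi⟩
    · have hun : ∀ p : {b // lev b = t}, p = ⟨b, h⟩ := fun p => Subtype.ext (hs _ (p.2.trans h.symm))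
      have hI : ∀ ω ∈ I, ω = σ ⟨b, h⟩ := fun ω hω => by
        rw [← hun (σ.symm ⟨ω, hω⟩), Equiv.apply_symm_apply]
      have h5 := (hβ2 _ (σ ⟨b, h⟩).2).resolve_left fun e => by have := hI _ e; omega
      refine ⟨⟨_, Nat.mod_lt (σ ⟨b, h⟩) hm⟩, ?_⟩
      have h6 := hu0 ⟨_, Nat.mod_lt (σ ⟨b, h⟩) hm⟩ b hb
      simp only [u', ← h5, hz, Pi.sub_apply, Finset.sum_apply, sub_eq_zero] at h6
      rw [Finset.sum_eq_single ⟨b, h⟩ (fun p _ hp => absurd (hun p) hp) (by simp)] at h6
      rw [he2 ⟨b, h⟩]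
      simp only [c', dif_pos h]
      exact h6.symm

end Pool.Agent.MP_19ffc6_ag.Wild
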