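import Pool.Agent.MP_19ffc6_ag.VecMain

/-! Resolution of singularities of the spectra of the rings of vector invariants of the finite
general linear groups, their parabolic subgroups and their Sylow subgroups in the defining
characteristic. -/

open AlgebraicGeometry CategoryTheory

namespace Pool.Agent.Results.MP_19ffc6_ag.VectorInvariants

theorem result (F k : Type) [Field F] [Fintype F] [Field k] [Algebra F k] (m n : ℕ) (hm : 0 < m)
    (lev h : Fin n → ℕ) (hh : ∀ a, h a ∣ Fintype.card F - 1)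
    (G : Subgroup (Matrix.GeneralLinearGroup (Fin n) F))
    (hG : ∀ g, g ∈ G ↔
      (∀ a b, lev a < lev b → (g : Matrix (Fin n) (Fin n) F) a b = 0) ∧
      ∀ a, (∀ b, lev b = lev a → b = a) → (g : Matrix (Fin n) (Fin n) F) a a ^ h a = 1)
    (A : Subalgebra k (MvPolynomial (Fin m × Fin n) k))
    (hA : ∀ f, f ∈ A ↔ ∀ g ∈ G, MvPolynomial.aeval (fun x : Fin m × Fin n =>
      ∑ b, algebraMap F k ((g : Matrix (Fin n) (Fin n) F) x.2 b) • MvPolynomial.X (x.1, b)) f = f) :
    ∃ (Y : Scheme.{0}) (sY : Y ⟶ Spec (CommRingCat.of k)) (f : Y ⟶ Spec (CommRingCat.of A)),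
      IsIntegral Y ∧ Smooth sY ∧ f ≫ Spec.map (CommRingCat.ofHom (algebraMap k A)) = sY ∧
      IsProper f ∧ ∃ V : (Spec (CommRingCat.of A)).Opens, V ≠ ⊥ ∧ IsIso (morphismRestrict f V) :=
  Pool.Agent.MP_19ffc6_ag.Wild.vec_main F k hm lev h hh G hG A hA

end Pool.Agent.Results.MP_19ffc6_ag.VectorInvariants
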