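import Pool.Agent.MP_19ffc6_ag.WildToric
import Pool.Agent.MP_19ffc6_ag.WildKL

/-! Graded subalgebras of Laurent polynomials over a field. -/

namespace Pool.Agent.MP_19ffc6_ag.Wild

open AddMonoidAlgebra

attribute [-simp] LaurentPolynomial.single_eq_C_mul_T LaurentPolynomial.single_eq_C

variable {k L : Type} [Field k] [Field L] [Algebra k L]

/-- Laurent polynomials over `L`. -/
abbrev La (L : Type) [Field L] : Type := AddMonoidAlgebra L ℤ

noncomputable instance laAction (G : Type) [Group G] [MulSemiringAction G L] :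
    MulSemiringAction G (La L) where
  __ := (inferInstance : DistribMulAction G (La L))
  smul_one g := by rw [one_def, smul_single, smul_one]
  smul_mul g x y := by
    induction x using induction_linear with
    | zero => simp
    | add a b ha hb => rw [add_mul, smul_add, smul_add, ha, hb, add_mul]
    | single m a =>
      induction y using induction_linear with
      | zero => simp
      | add a b ha hb => rw [mul_add, smul_add, smul_add, ha, hb, mul_add]
      | single n b => simp only [single_mul_single, smul_single, smul_mul']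

lemma coeff_single_mul' (m n : ℤ) (c : L) (x : La L) :
    (single m c * x).coeff n = c * x.coeff (n - m) := by
  rw [coeff_single_mul_apply]; congr 2; ring

lemma single_coeff_mul (m n : ℤ) (c : L) (x : La L) :
    single n ((single m c * x).coeff n) = single m c * single (n - m) (x.coeff (n - m)) := by
  rw [coeff_single_mul', single_mul_single, add_sub_cancel]

lemma coeff_single_same (n : ℤ) (c : L) : (single n c : La L).coeff n = c := by simp

lemma single_mul_inv (n : ℤ) {c : L} (hc : c ≠ 0) :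
    (single n c * single (-n) c⁻¹ : La L) = 1 := by
  rw [single_mul_single, add_neg_cancel, mul_inv_cancel₀ hc]; rfl

lemma single_pow' (n : ℤ) (c : L) (m : ℕ) : (single n c : La L) ^ m = single (m * n) (c ^ m) := by
  rw [single_pow, nsmul_eq_mul]

/-- Graded subalgebras. -/
def Grd (D : Subalgebra k (La L)) : Prop := ∀ x ∈ D, ∀ n, single n (x.coeff n) ∈ D

/-- The graded pieces of a subalgebra. -/
noncomputable def pc (D : Subalgebra k (La L)) (n : ℤ) : Submodule k L where
  carrier := {c | single n c ∈ D}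
  add_mem' := fun {x y} hx hy => by
    change single n (x + y) ∈ D
    rw [single_add]; exact D.add_mem hx hy
  zero_mem' := by
    change single n 0 ∈ D
    rw [single_zero]; exact D.zero_mem
  smul_mem' := fun c x hx => by
    change single n (c • x) ∈ D
    rw [← smul_single]; exact D.smul_mem hx c

lemma mem_pc {D : Subalgebra k (La L)} {n : ℤ} {c : L} : c ∈ pc D n ↔ single n c ∈ D := Iff.rfl

lemma mul_mem_pc {D : Subalgebra k (La L)} {m n : ℤ} {c d : L} (hc : c ∈ pc D m)
    (hd : d ∈ pc D n) : c * d ∈ pc D (m + n) := by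
  rw [mem_pc, ← single_mul_single]; exact D.mul_mem hc hd

lemma one_mem_pc (D : Subalgebra k (La L)) : (1 : L) ∈ pc D 0 := D.one_mem

lemma pow_mem_pc {D : Subalgebra k (La L)} {n : ℤ} {c : L} (hc : c ∈ pc D n) (m : ℕ) :
    c ^ m ∈ pc D (m * n) := by
  rw [mem_pc, ← single_pow']; exact D.pow_mem hc m

lemma zpow_mem_pc {D : Subalgebra k (La L)} {n : ℤ} {c : L} (hc : c ∈ pc D n)
    (hc' : c⁻¹ ∈ pc D (-n)) (m : ℤ) : c ^ m ∈ pc D (m * n) := by
  obtain ⟨m, rfl | rfl⟩ := Int.eq_nat_or_neg m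
  · simpa using pow_mem_pc hc m
  · simpa using pow_mem_pc hc' m

lemma mem_of_coeff {D : Subalgebra k (La L)} {x : La L} (h : ∀ n, x.coeff n ∈ pc D n) : x ∈ D := by
  rw [← sum_coeff_single x]
  exact D.sum_mem fun n _ => h n

/-- The graded subalgebra with given pieces. -/
def Gr (F : ℤ → Submodule k L) (h1 : (1 : L) ∈ F 0)
    (hm : ∀ m n, F m * F n ≤ F (m + n)) : Subalgebra k (La L) where
  carrier := {x | ∀ n, x.coeff n ∈ F n}
  mul_mem' := fun {x y} hx hy n => by
    classical
    rw [coeff_mul_apply_left]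
    refine Submodule.sum_mem _ fun m _ => ?_
    have := hm _ _ (Submodule.mul_mem_mul (hx m) (hy (-m + n)))
    rwa [add_neg_cancel_left] at this
  add_mem' := fun {x y} hx hy n => add_mem (hx n) (hy n)
  algebraMap_mem' := fun r n => by
    classical
    rw [coe_algebraMap, Function.comp_apply, coeff_single_apply]
    split_ifs with h
    · subst h
      rw [Algebra.algebraMap_eq_smul_one]; exact Submodule.smul_mem _ _ h1
    · exact zero_mem _

lemma single_mem_Gr {F : ℤ → Submodule k L} {h1 hm} {n : ℤ} {c : L} :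
    single n c ∈ Gr F h1 hm ↔ c ∈ F n := by
  classical
  constructor
  · intro h; simpa using h n
  · intro h m
    rw [coeff_single_apply]
    split_ifs with e
    · exact e ▸ h
    · exact zero_mem _

lemma grd_adjoin {S : Set (La L)} (hS : ∀ x ∈ S, ∃ n c, x = single n c) :
    Grd (Algebra.adjoin k S) := by
  have : Algebra.adjoin k S ≤ Gr (pc (Algebra.adjoin k S)) (one_mem_pc _)
      fun m n => Submodule.mul_le.2 fun _ hc _ hd => mul_mem_pc hc hd := by
    refine Algebra.adjoin_le fun x hx => ?_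
    obtain ⟨n, c, rfl⟩ := hS x hx
    exact single_mem_Gr.2 (Algebra.subset_adjoin hx)
  exact fun x hx n => this hx n

variable {ι : Type} [Fintype ι]

lemma single_mon (Y : ι → Lˣ) (a : ι → ℤ) (s : ι → ℕ) :
    (single (dg a fun j => s j) (mon Y fun j => s j) : La L) =
      ∏ j, single (a j) (Y j : L) ^ s j := by
  simp only [single_pow', prod_single, dg, mon, zpow_natCast, Units.coe_prod, Units.val_pow_eq_pow_val,
    mul_comm]

lemma single_mon_mem {D : Subalgebra k (La L)} {Y : ι → Lˣ} {a : ι → ℤ} {I : Set ι}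
    (h : ∀ j, (Y j : L) ∈ pc D (a j)) (h' : ∀ j ∈ I, (Y j : L)⁻¹ ∈ pc D (-a j)) {c : ι → ℤ}
    (hc : Cn I c) : mon Y c ∈ pc D (dg a c) := by
  have : (single (dg a c) (mon Y c) : La L) = ∏ j, single (c j * a j) ((Y j : L) ^ c j) := by
    simp only [prod_single, dg, mon, Units.coe_prod, Units.val_zpow_eq_zpow_val, mul_comm]
  rw [mem_pc, this]
  refine D.prod_mem fun j _ => ?_
  by_cases hj : j ∈ I
  · exact zpow_mem_pc (h j) (h' j hj) _
  · obtain ⟨e, he⟩ := Int.eq_ofNat_of_zero_le (hc j hj)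
    rw [he, zpow_natCast]; exact pow_mem_pc (h j) e

lemma Vs_le_pc {D : Subalgebra k (La L)} {Y : ι → Lˣ} {a : ι → ℤ} {I : Set ι}
    (h : ∀ j, (Y j : L) ∈ pc D (a j)) (h' : ∀ j ∈ I, (Y j : L)⁻¹ ∈ pc D (-a j)) (n : ℤ) :
    Vs k Y a I n ≤ pc D n := Vs_le fun _ hc hn => hn ▸ single_mon_mem h h' hc

lemma pc_adjoin (Y : ι → Lˣ) (a : ι → ℤ) (n : ℤ) :
    pc (Algebra.adjoin k (Set.range fun j => (single (a j) (Y j : L) : La L))) n =
      Vs k Y a ∅ n := by
  classical
  refine le_antisymm (fun c hc => ?_)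
    (Vs_le_pc (fun j => Algebra.subset_adjoin (Set.mem_range_self j)) (fun _ h => h.elim) n)
  have : Algebra.adjoin k (Set.range fun j => (single (a j) (Y j : L) : La L)) ≤
      Gr (Vs k Y a ∅) (one_mem_Vs _ _ _) (Vs_mul_le _ _ _) := by
    refine Algebra.adjoin_le ?_
    rintro _ ⟨j, rfl⟩
    refine single_mem_Gr.2 ?_
    have := mon_mem_Vs (k := k) (Y := Y) (a := a) (cn_single ∅ j (e := 1) fun _ => zero_le_one)
      (by rw [dg_single, mul_one])
    rwa [mon_single, zpow_one] at this
  exact single_mem_Gr.1 (this hc)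

lemma ind_of_algInd {Y : ι → Lˣ} {a : ι → ℤ}
    (h : AlgebraicIndependent k fun j => (single (a j) (Y j : L) : La L)) : Ind k Y a := by
  classical
  rw [algInd_iff] at h
  rw [Ind, linearIndependent_iff_finset_linearIndependent]
  intro s
  let e : ι → ℤ := fun j => ∑ c ∈ s, |c.1 j|
  have he : ∀ c ∈ s, ∀ j, 0 ≤ c.1 j + e j := fun c hc j => by
    have : |c.1 j| ≤ e j := Finset.single_le_sum (f := fun c : {c // dg a c = 0} => |c.1 j|)
      (fun _ _ => abs_nonneg _) hc
    have := neg_abs_le (c.1 j)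
    omega
  let ℓ : L →ₗ[k] La L := (lsingle (dg a e)).comp (LinearMap.mulRight k (mon Y e))
  let φ : s → ι →₀ ℕ := fun c => Finsupp.equivFunOnFinite.symm fun j => (c.1.1 j + e j).toNat
  have hφ : ∀ c : s, (fun j => (φ c j : ℤ)) = c.1.1 + e := fun c => by
    ext j; simp [φ, he c.1 c.2 j]
  refine LinearIndependent.of_comp ℓ ?_
  have h1 := h.comp φ fun c c' hc => by
    have := hφ c
    rw [hc, hφ] at this
    exact Subtype.ext (Subtype.ext (add_right_cancel this).symm)
  have h2 : ℓ ∘ (fun c : {c // dg a c = 0} => mon Y c.1) ∘ (Subtype.val : s → _) =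
      (fun s : ι →₀ ℕ => s.prod fun i e => (single (a i) (Y i : L) : La L) ^ e) ∘ φ := by
    ext1 c
    simp only [Function.comp_apply]
    rw [Finsupp.prod_fintype _ _ (by simp), ← single_mon, hφ, dg_add, c.1.2, zero_add, mon_add]
    rfl
  rw [h2]; exact h1

lemma V0_finiteType (Y : ι → Lˣ) (a : ι → ℤ) (i : ι) : Algebra.FiniteType k (V0 k Y a {i}) := by
  classical
  let φ : (ι → ℕ) × ℕ →+ ι → ℤ :=
    { toFun := fun c => (fun j => (c.1 j : ℤ)) - Pi.single i (c.2 : ℤ)
      map_zero' := by ext; simp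
      map_add' := fun c c' => by
        simp only [Prod.fst_add, Prod.snd_add, Nat.cast_add, Pi.single_add]
        ext; simp; ring }
  let δ : (ι → ℤ) →+ ℤ := ⟨⟨dg a, dg_zero a⟩, dg_add a⟩
  obtain ⟨s, hs⟩ := AddSubmonoid.fg_eqLocusM (δ.comp φ) 0
  refine ⟨(Subalgebra.fg_top _).2 ⟨s.image fun c => mon Y (φ c), le_antisymm ?_ ?_⟩⟩
  · refine Algebra.adjoin_le fun x hx => ?_
    obtain ⟨c, hc, rfl⟩ := Finset.mem_image.1 hx
    have : c ∈ (δ.comp φ).eqLocusM 0 := hs ▸ AddSubmonoid.subset_closure hc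
    exact mon_mem_Vs (fun j hj => by simp [φ, Pi.single_eq_of_ne (show j ≠ i from hj)]) this
  · intro x hx
    refine (Vs_le (Z := (Algebra.adjoin k _).toSubmodule) fun c hc hn => ?_) hx
    have h1 : c = φ (fun j => (c j).toNat, (-c i).toNat) := by
      ext j
      by_cases hj : j = i
      · subst hj; simp [φ]
      · simp [φ, Pi.single_eq_of_ne hj, hc j hj]
    have h2 : (fun j => (c j).toNat, (-c i).toNat) ∈ AddSubmonoid.closure (s : Set _) := by
      rw [hs]; change dg a (φ _) = 0; rw [← h1, hn]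
    rw [h1]
    generalize (fun j => (c j).toNat, (-c i).toNat) = e at h2
    induction h2 using AddSubmonoid.closure_induction with
    | mem e he => exact Algebra.subset_adjoin (Finset.mem_image_of_mem _ he)
    | zero => rw [map_zero, mon_zero]; exact Subalgebra.one_mem _
    | add e e' _ _ he he' => rw [map_add, mon_add]; exact Subalgebra.mul_mem _ he he'

/-- Localization of a subalgebra at a monoid of denominators. -/
def locD (D : Subalgebra k (La L)) (S : Submonoid (La L)) (hS : ∀ δ ∈ S, δ ∈ D) :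
    Subalgebra k (La L) where
  carrier := {x | ∃ δ ∈ S, x * δ ∈ D}
  mul_mem' := by
    rintro x y ⟨δ, hδ, hx⟩ ⟨δ', hδ', hy⟩
    exact ⟨δ * δ', mul_mem hδ hδ', by convert D.mul_mem hx hy using 1; ring⟩
  add_mem' := by
    rintro x y ⟨δ, hδ, hx⟩ ⟨δ', hδ', hy⟩
    exact ⟨δ * δ', mul_mem hδ hδ', by
      convert D.add_mem (D.mul_mem hx (hS _ hδ')) (D.mul_mem hy (hS _ hδ)) using 1; ring⟩
  algebraMap_mem' r := ⟨1, one_mem _, by rw [mul_one]; exact D.algebraMap_mem r⟩

lemma le_locD (D : Subalgebra k (La L)) (S : Submonoid (La L)) (hS : ∀ δ ∈ S, δ ∈ D) :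
    D ≤ locD D S hS := fun x hx => ⟨1, one_mem _, by rwa [mul_one]⟩

lemma Grd.locD {D : Subalgebra k (La L)} (hD : Grd D) {S : Submonoid (La L)}
    (hS : ∀ δ ∈ S, δ ∈ D) (hS' : ∀ δ ∈ S, ∃ n c, δ = single n c) : Grd (locD D S hS) := by
  rintro x ⟨δ, hδ, hx⟩ n
  obtain ⟨m, c, rfl⟩ := hS' δ hδ
  refine ⟨_, hδ, ?_⟩
  have := hD _ hx (n + m)
  rwa [mul_comm, single_coeff_mul, add_sub_cancel_right, mul_comm] at this

lemma formallySmooth_locD (D : Subalgebra k (La L)) [Algebra.FormallySmooth k D]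
    (S : Submonoid (La L)) (hS : ∀ δ ∈ S, δ ∈ D) (hS' : ∀ δ ∈ S, IsUnit δ) :
    Algebra.FormallySmooth k (locD D S hS) := by
  let := (Subalgebra.inclusion (le_locD D S hS)).toRingHom.toAlgebra
  have : IsScalarTower k D (locD D S hS) := .of_algebraMap_eq fun _ => rfl
  have : IsLocalization (S.comap D.val) (locD D S hS) := by
    refine ⟨fun y => ?_, fun z => ?_, fun {x y} hxy => ⟨1, ?_⟩⟩
    · obtain ⟨u, hu⟩ := (hS' _ y.2).exists_right_inv
      refine IsUnit.of_mul_eq_one ⟨u, _, y.2, ?_⟩ (Subtype.ext hu)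
      rw [mul_comm, hu]; exact one_mem _
    · obtain ⟨δ, hδ, hx⟩ := z.2
      exact ⟨⟨⟨_, hx⟩, ⟨⟨δ, hS _ hδ⟩, hδ⟩⟩, rfl⟩
    · have : x = y := Subtype.ext (congrArg Subtype.val hxy :)
      rw [this]
  have : Algebra.FormallySmooth D (locD D S hS) := .of_isLocalization (S.comap D.val)
  exact .comp k D _

/-- The trivial local model: a unit of degree one. -/
lemma triv_model {R : Subalgebra k (La L)} (hR : Grd R) [Algebra.FormallySmooth k R]
    {O : Subalgebra k L} (hO : pc R 0 = O.toSubmodule) {c : L} (hc0 : c ≠ 0) (hc : c ∈ pc R 1)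
    (hc' : c⁻¹ ∈ pc R (-1)) :
    Ind k (fun _ : Unit => Units.mk0 c hc0) (fun _ => 1) ∧
    SF (V0 k (fun _ : Unit => Units.mk0 c hc0) (fun _ => 1) {()}) O ∧
    ∀ n : ℤ, pc R n = sp O (Vs k (fun _ : Unit => Units.mk0 c hc0) (fun _ => 1) {()} n) := by
  have hmon : ∀ e : Unit → ℤ, mon (fun _ : Unit => Units.mk0 c hc0) e = c ^ e () := fun e => by
    simp [mon]
  have hdg : ∀ e : Unit → ℤ, dg (fun _ => 1) e = e () := fun e => by simp [dg]
  have hdiv : ∀ n, ∀ x ∈ pc R n, x / c ^ n ∈ O := fun n x hx => by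
    have := mul_mem_pc hx (zpow_mem_pc hc hc' (-n))
    rw [mul_one, add_neg_cancel, hO, zpow_neg] at this
    rwa [div_eq_mul_inv]
  have hsm : Algebra.FormallySmooth k O := by
    let ρ0 : La L →ₐ[k] L := (AddMonoidAlgebra.lift L L ℤ
      ((Units.coeHom L).comp (zpowersHom Lˣ (Units.mk0 c hc0)⁻¹))).restrictScalars k
    have hρ0 : ∀ n x, ρ0 (single n x) = x / c ^ n := fun n x => by
      simp [ρ0, div_eq_mul_inv]
    let ρ : R →ₐ[k] O := (ρ0.comp R.val).codRestrict O fun x => by
      change ρ0 x ∈ O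
      rw [← sum_coeff_single x.1, Finsupp.sum, map_sum]
      exact O.sum_mem fun n _ => by rw [hρ0]; exact hdiv n _ (hR _ x.2 n)
    let i : O →ₐ[k] R := ((singleZeroAlgHom (R := k) (M := ℤ)).comp O.val).codRestrict R fun x => by
      have : (x : L) ∈ pc R 0 := by rw [hO]; exact x.2
      exact this
    exact formallySmooth_of_retract i ρ fun x => Subtype.ext ((hρ0 0 x).trans (by simp))
  have hV : V0 k (fun _ : Unit => Units.mk0 c hc0) (fun _ => 1) {()} = ⊥ := by
    refine le_antisymm (fun x hx => ?_) bot_le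
    refine (Vs_le (Z := (⊥ : Subalgebra k L).toSubmodule) fun e _ he => ?_) hx
    rw [hmon, ← hdg e, he, zpow_zero]; exact one_mem (⊥ : Subalgebra k L)
  refine ⟨?_, ?_, fun n => le_antisymm (fun x hx => ?_) (sp_le (Vs_le fun e _ he => ?_) ?_)⟩
  · have : Unique {e : Unit → ℤ // dg (fun _ => 1) e = 0} :=
      ⟨⟨⟨0, dg_zero _⟩⟩, fun e => Subtype.ext (funext fun _ => (hdg _).symm.trans e.2)⟩
    exact linearIndependent_unique_iff.2 (mon_ne_zero _ _)
  · rw [hV]
    have h : (Subalgebra.inclusion (bot_le : ⊥ ≤ O)).toRingHom =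
        (algebraMap k O).comp (Algebra.botEquiv k L).toRingHom := by
      ext x
      obtain ⟨x, rfl⟩ := (Algebra.botEquiv k L).symm.surjective x
      simp
    refine ⟨bot_le, ?_, ?_⟩
    · rw [h]
      exact (RingHom.FormallySmooth.of_bijective (Algebra.botEquiv k L).bijective).comp
        (RingHom.formallySmooth_algebraMap.2 hsm)
    · rw [h]
      exact (RingHom.Flat.of_bijective (Algebra.botEquiv k L).bijective).comp
        (RingHom.flat_algebraMap_iff.2 inferInstance)
  · have h1 : c ^ n ∈ Vs k (fun _ : Unit => Units.mk0 c hc0) (fun _ => 1) {()} n := by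
      rw [← hmon fun _ => n]
      exact mon_mem_Vs (fun j hj => absurd rfl hj) (hdg _)
    have := mul_mem_sp (hdiv n x hx) (le_sp O _ h1)
    rwa [div_mul_cancel₀ _ (zpow_ne_zero _ hc0)] at this
  · rw [hmon, ← hdg e, he]; simpa using zpow_mem_pc hc hc' n
  · intro o ho x hx
    have : o ∈ pc R 0 := by rw [hO]; exact ho
    simpa using mul_mem_pc this hx

end Pool.Agent.MP_19ffc6_ag.Wild
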