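import Pool.Agent.MP_19ffc6_ag.WildLocal

/-! The first blow-up, and the resolution of the ring of invariants. -/

namespace Pool.Agent.MP_19ffc6_ag.Wild

open AddMonoidAlgebra Polynomial

attribute [-simp] LaurentPolynomial.single_eq_C_mul_T LaurentPolynomial.single_eq_C

variable {k L : Type} [Field k] [Field L] [Algebra k L]

lemma veronese {C : Subalgebra k (La L)} (hC : Grd C) [Algebra.FiniteType k C] :
    ∃ N0 : ℕ, 0 < N0 ∧ ∀ n : ℤ, N0 ≤ n → pc C (n + N0) ≤ pc C N0 * pc C n := by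
  classical
  obtain ⟨s, hs⟩ : C.FG := (Subalgebra.fg_top _).1 Algebra.FiniteType.out
  let t : Finset (ℤ × L) := s.biUnion fun x => x.coeff.support.image fun n => (n, x.coeff n)
  have ht : ∀ j : t, j.1.2 ≠ 0 ∧ j.1.2 ∈ pc C j.1.1 := by
    rintro ⟨j, hj⟩
    obtain ⟨x, hx, hj⟩ := Finset.mem_biUnion.1 hj
    obtain ⟨n, hn, rfl⟩ := Finset.mem_image.1 hj
    exact ⟨Finsupp.mem_support_iff.1 hn, hC x (hs ▸ Algebra.subset_adjoin hx) n⟩
  let Y : t → Lˣ := fun j => Units.mk0 j.1.2 (ht j).1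
  let a : t → ℤ := fun j => j.1.1
  have h1 : C = Algebra.adjoin k (Set.range fun j => (single (a j) (Y j : L) : La L)) := by
    refine le_antisymm ?_ (Algebra.adjoin_le ?_)
    · rw [← hs]
      refine Algebra.adjoin_le fun x hx => mem_of_coeff fun n => ?_
      by_cases h0 : x.coeff n = 0
      · rw [h0]; exact zero_mem _
      · exact Algebra.subset_adjoin ⟨⟨(n, x.coeff n), Finset.mem_biUnion.2 ⟨x, hx,
          Finset.mem_image.2 ⟨n, Finsupp.mem_support_iff.2 h0, rfl⟩⟩⟩, rfl⟩
    · rintro _ ⟨j, rfl⟩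
      exact (ht j).2
  let D : ℕ := ∏ j, max 1 (a j).toNat
  have hD : 0 < D := Finset.prod_pos fun j _ => by omega
  refine ⟨(Fintype.card t + 1) * D, by positivity, fun n hn => ?_⟩
  rw [h1, pc_adjoin, pc_adjoin, pc_adjoin]
  refine Vs_le fun c hc hd => ?_
  obtain ⟨c1, h2, h3, h4⟩ := extract a D hD (fun j hj => by
    have h5 : (max 1 (a j).toNat : ℕ) ∣ D := Finset.dvd_prod_of_mem _ (Finset.mem_univ j)
    have h6 : ((max 1 (a j).toNat : ℕ) : ℤ) = a j := by omega
    rw [← h6]; exact_mod_cast h5) (Fintype.card t + 1) c hc (by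
      rw [hd]; push_cast at hn ⊢
      have : (0 : ℤ) ≤ D := by positivity
      linarith)
  rw [← add_sub_cancel c1 c, mon_add]
  exact Submodule.mul_mem_mul (mon_mem_Vs h2 (by rw [h4]; push_cast; rfl))
    (mon_mem_Vs h3 (by rw [dg_sub, hd, h4]; push_cast; ring))

lemma chart_finiteType (A : Subalgebra k L) [Algebra.FiniteType k A] {M : Submodule k L}
    (hM : M ≤ A.toSubmodule) (h : L) : Algebra.FiniteType k (chart A M h) := by
  classical
  obtain ⟨s, hs⟩ : A.FG := (Subalgebra.fg_top _).1 Algebra.FiniteType.out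
  have : IsNoetherianRing A := Algebra.FiniteType.isNoetherianRing k A
  obtain ⟨t, ht, ht'⟩ := (Submodule.fg_span_iff_fg_span_finset_subset _).1
    (IsNoetherian.noetherian (Ideal.span {x : A | x.1 ∈ M}))
  refine ⟨(Subalgebra.fg_top _).2 ⟨s ∪ t.image fun x => x.1 / h, le_antisymm ?_ ?_⟩⟩
  · refine Algebra.adjoin_le fun x hx => ?_
    rcases Finset.mem_union.1 hx with hx | hx
    · exact le_chart _ _ _ (hs ▸ Algebra.subset_adjoin hx)
    · obtain ⟨y, hy, rfl⟩ := Finset.mem_image.1 hx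
      exact div_mem_chart _ _ (ht hy)
  · have h1 : A ≤ Algebra.adjoin k ((s ∪ t.image fun x => x.1 / h : Finset L) : Set L) := by
      conv_lhs => rw [← hs]
      exact Algebra.adjoin_mono (by simp)
    refine chart_le h1 fun m hm => ?_
    have h2 : (⟨m, hM hm⟩ : A) ∈ Submodule.span A (t : Set A) :=
      ht' ▸ Ideal.subset_span hm
    suffices ∀ x ∈ Submodule.span A (t : Set A),
        x.1 / h ∈ Algebra.adjoin k ((s ∪ t.image fun x => x.1 / h : Finset L) : Set L) from
      this _ h2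
    intro x hx
    induction hx using Submodule.span_induction with
    | mem x hx =>
      exact Algebra.subset_adjoin (Finset.mem_union_right _ (Finset.mem_image_of_mem _ hx))
    | zero => simp
    | add x y _ _ hx hy => rw [Subalgebra.coe_add, add_div]; exact add_mem hx hy
    | smul c x _ hx => rw [smul_eq_mul, Subalgebra.coe_mul, mul_div_assoc]; exact mul_mem (h1 c.2) hx

lemma pc_anti {C : Subalgebra k (La L)} (hs : (1 : L) ∈ pc C (-1)) {m n : ℤ} (h : m ≤ n) :
    pc C n ≤ pc C m := fun x hx => by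
  obtain ⟨r, rfl⟩ := Int.le.dest h
  simpa using mul_mem_pc hx (pow_mem_pc hs r)

variable {G : Type} [Group G] [MulSemiringAction G L] [SMulCommClass G k L] [Fintype G] {p : ℕ}
  {V : Submodule k L} {N : L →ₗ[k] L} {b : ℕ → k[X]} {lam : G → k}

lemma Setting.mod [Fact p.Prime] [CharP k p] (H : Setting G p V N b lam) {A : Subalgebra k L}
    [Algebra.FiniteType k A] (hA : pc (fix G (Bal V N)) 0 = A.toSubmodule) {N0 : ℕ} (hN0 : 0 < N0)
    (hver : ∀ n : ℤ, N0 ≤ n →
      pc (fix G (Bal V N)) (n + N0) ≤ pc (fix G (Bal V N)) N0 * pc (fix G (Bal V N)) n)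
    {O : Subalgebra k L} (hO : Pt A (pc (fix G (Bal V N)) N0) O) :
    Mod (p + 1) (Module.finrank k V + 1) O fun n =>
      pc (fix G (Bal V N)) ((n + N0 : ℕ) : ℤ) * pc (fix G (Bal V N)) N0 ^ (n - 1) := by
  set C := fix G (Bal V N) with hC
  obtain ⟨h, hh, h0, hP⟩ := hO
  have hs : (1 : L) ∈ pc C (-1) := mem_pc_fix.2 ⟨s_mem_Bal V N, fun g => smul_one g⟩
  have := chart_finiteType A (hA ▸ pc_anti hs (Int.natCast_nonneg N0)) h
  have := Algebra.FiniteType.isNoetherianRing k (chart A (pc C N0) h)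
  have := hP.essFiniteType
  have := hP.isNoetherianRing
  have hAO : A ≤ O := (le_chart _ _ _).trans hP.le
  have h1 : ∀ n : ℤ, 0 ≤ n → ∀ m : ℕ, ∀ y ∈ pc C (n + N0 + m * N0),
      y / h ^ m ∈ sp O (pc C (n + N0)) := by
    intro n hn m
    induction m with
    | zero => intro y hy; exact le_sp _ _ (by simpa using hy)
    | succ m ih =>
      intro y hy
      have hy' := hver (n + N0 + m * N0) (by have : (0 : ℤ) ≤ m * N0 := by positivity
                                             omega) (by convert hy using 2; push_cast; ring)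
      refine Submodule.mul_induction_on hy' (fun μ hμ y hy => ?_) fun x y hx hy => ?_
      · rw [pow_succ', ← div_mul_div_comm]
        exact mul_mem_sp (hP.le (div_mem_chart _ _ hμ)) (ih y hy)
      · rw [add_div]; exact add_mem hx hy
  have h2 : ∀ m : ℕ, ∀ y ∈ pc C (m * N0), y / h ^ m ∈ O := by
    intro m y hy
    cases m with
    | zero => simpa using hAO (show y ∈ A.toSubmodule by simpa [hA] using hy)
    | succ m =>
      rw [pow_succ, ← div_div]
      exact div_mem_of_mem_sp le_rfl (fun x hx => hP.le (div_mem_chart _ _ (by simpa using hx)))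
        (h1 0 le_rfl m y (by convert hy using 2; push_cast; ring))
  have h3 : ∀ y ∈ chart A (pc C N0) h, ∃ m : ℕ, y * h ^ m ∈ pc C (m * N0) := by
    intro y hy
    induction hy using Algebra.adjoin_induction with
    | mem y hy =>
      rcases hy with hy | ⟨μ, hμ, rfl⟩
      · exact ⟨0, by simpa [hA] using hy⟩
      · exact ⟨1, by simpa [h0] using hμ⟩
    | algebraMap r => exact ⟨0, by simpa [hA] using A.algebraMap_mem r⟩
    | add x y _ _ hx hy =>
      obtain ⟨m, hx⟩ := hx
      obtain ⟨m', hy⟩ := hy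
      refine ⟨m + m', ?_⟩
      have e1 := mul_mem_pc hx (pow_mem_pc hh m')
      have e2 := mul_mem_pc (pow_mem_pc hh m) hy
      convert add_mem e1 e2 using 1
      · congr 1; push_cast; ring
      · ring
    | mul x y _ _ hx hy =>
      obtain ⟨m, hx⟩ := hx
      obtain ⟨m', hy⟩ := hy
      refine ⟨m + m', ?_⟩
      convert mul_mem_pc hx hy using 1
      · congr 1; push_cast; ring
      · ring
  let 𝒟 : Submonoid (La L) :=
    { carrier := {δ | ∃ m : ℕ, ∃ d ∈ pc C (m * N0), Un O (d / h ^ m) ∧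
        δ = single (m * N0 : ℤ) d}
      mul_mem' := by
        rintro _ _ ⟨m, d, e1, e2, rfl⟩ ⟨m', d', e1', e2', rfl⟩
        refine ⟨m + m', d * d', ?_, ?_, ?_⟩
        · convert mul_mem_pc e1 e1' using 2; push_cast; ring
        · rw [pow_add, ← div_mul_div_comm]; exact e2.mul e2'
        · rw [single_mul_single]; congr 1; push_cast; ring
      one_mem' := ⟨0, 1, by simpa using one_mem_pc C, by simpa using Un.one O, by
        simp [one_def]⟩ }
  have hS : ∀ δ ∈ 𝒟, δ ∈ Bal V N := by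
    rintro _ ⟨m, d, e1, -, rfl⟩
    exact e1.1
  set R := fix G (locD (Bal V N) 𝒟 hS) with hR
  have hmem : ∀ n x, x ∈ pc R n ↔
      ∃ m : ℕ, ∃ d ∈ pc C (m * N0), Un O (d / h ^ m) ∧ x * d ∈ pc C (n + m * N0) := by
    intro n x
    rw [mem_pc_fix]
    constructor
    · rintro ⟨⟨_, ⟨m, d, e1, e2, rfl⟩, e3⟩, e4⟩
      rw [single_mul_single] at e3
      exact ⟨m, d, e1, e2, mem_pc_fix.2 ⟨e3, fun g => by
        rw [smul_mul', e4, (mem_pc_fix.1 e1).2]⟩⟩
    · rintro ⟨m, d, e1, e2, e3⟩
      refine ⟨⟨_, ⟨m, d, e1, e2, rfl⟩, by rw [single_mul_single]; exact e3.1⟩, fun g => ?_⟩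
      have := (mem_pc_fix.1 e3).2 g
      rw [smul_mul', (mem_pc_fix.1 e1).2] at this
      exact mul_right_cancel₀ (left_ne_zero_of_mul (div_eq_mul_inv d _ ▸ e2.2.1)) this
  have hO0 : pc R 0 = O.toSubmodule := by
    ext x
    rw [hmem]
    constructor
    · rintro ⟨m, d, e1, e2, e3⟩
      have := O.mul_mem (h2 m _ (by simpa using e3)) e2.2.2
      rwa [mul_div_assoc, mul_inv_cancel_right₀ e2.2.1] at this
    · intro hx0
      obtain ⟨x, hx, y, hy, hu, rfl⟩ := hP.le_loc hx0
      clear hx0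
      obtain ⟨m, hx⟩ := h3 x hx
      obtain ⟨m', hy⟩ := h3 y hy
      refine ⟨m + m', y * h ^ (m + m'), ?_, by rwa [mul_div_cancel_right₀ _ (pow_ne_zero _ h0)], ?_⟩
      · convert mul_mem_pc hy (pow_mem_pc hh m) using 1
        · congr 1; push_cast; ring
        · ring
      · convert mul_mem_pc hx (pow_mem_pc hh m') using 1
        · congr 1; push_cast; ring
        · have := hu.2.1
          field_simp
          ring
  have hsR : (1 : L) ∈ pc R (-1) :=
    mem_pc_fix.2 ⟨le_locD _ _ hS (s_mem_Bal V N), fun g => smul_one g⟩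
  obtain ⟨ι, _, _, Y, a, i, e1, e2, e3, e4, e5, e6⟩ := H.local_model hS (by
      rintro _ ⟨m, d, e1, e2, rfl⟩
      exact ⟨_, d, left_ne_zero_of_mul (div_eq_mul_inv d _ ▸ e2.2.1), rfl, (mem_pc_fix.1 e1).2⟩)
    hP.lcl hO0 (h := h) hN0 ⟨1, h, by simpa using hh, by simpa [h0] using Un.one O, by simp⟩
    fun n => ⟨1, one_ne_zero, fun x hx => by
      have := pc_anti hsR (Int.natCast_nonneg n) hx
      rw [hO0] at this
      simpa using this⟩
  refine mod_of_chart (G := fun n => pc C n) (Units.mk0 h h0) e1 e2 e3 e4 e5 fun n => ?_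
  rw [mul_comm, sp_mul_left, ← e6, Nat.cast_add]
  refine le_antisymm (sp_le (fun y hy => ?_) fun o ho y hy => ?_) (Submodule.mul_le.2 ?_)
  · rw [← div_mul_cancel₀ y h0]
    refine Submodule.mul_mem_mul ((hmem _ _).2 ⟨1, h, by simpa using hh,
      by simpa [h0] using Un.one O, by simpa [h0] using hy⟩) (Submodule.mem_span_singleton_self _)
  · rw [e6, ← sp_mul_left] at hy ⊢
    exact mul_mem_sp ho hy
  · intro x hx y hy
    obtain ⟨c, rfl⟩ := Submodule.mem_span_singleton.1 hy
    rw [mul_smul_comm]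
    refine Submodule.smul_mem _ _ ?_
    obtain ⟨m, d, e1, e2, e3⟩ := (hmem _ _).1 hx
    have := mul_mem_sp e2.2.2 (h1 n (Int.natCast_nonneg n) m _ (by
      convert mul_mem_pc e3 hh using 2; ring))
    convert this using 1
    have := left_ne_zero_of_mul (div_eq_mul_inv d _ ▸ e2.2.1)
    simp only [Units.val_mk0]
    field_simp

lemma Setting.pc_zero (H : Setting G p V N b lam) :
    pc (Bal V N) 0 = (Algebra.adjoin k (V : Set L)).toSubmodule := by
  refine le_antisymm (fun x hx => ?_) fun x hx => ?_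
  · have : Bal V N ≤ Gr (fun _ => (Algebra.adjoin k (V : Set L)).toSubmodule)
        (Subalgebra.one_mem _)         fun _ _ => Submodule.mul_le.2 fun _ h _ h' => Subalgebra.mul_mem _ h h' := by
      refine Algebra.adjoin_le ?_
      rintro _ (rfl | ⟨m, φ, hφ, rfl⟩)
      · exact single_mem_Gr.2 (Subalgebra.one_mem _)
      · exact single_mem_Gr.2 (Algebra.subset_adjoin (H.le_V m hφ))
    exact single_mem_Gr.1 (this hx)
  · induction hx using Algebra.adjoin_induction with
    | mem x hx => exact single_mem_Bal (m := 0) (by rwa [Vm_zero])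
    | algebraMap r =>
      rw [Algebra.algebraMap_eq_smul_one]; exact Submodule.smul_mem _ _ (one_mem_pc _)
    | add x y _ _ hx hy => exact add_mem hx hy
    | mul x y _ _ hx hy => simpa using mul_mem_pc hx hy

theorem Setting.resolved [Fact p.Prime] [CharP k p] (H : Setting G p V N b lam)
    {A : Subalgebra k L} [Algebra.FiniteType k A] (hA : A = fix G (Algebra.adjoin k (V : Set L))) :
    ∃ M ≤ A.toSubmodule, M ≠ ⊥ ∧ ∀ O, Pt A M O → Algebra.FormallySmooth k O := by
  classical
  have hp : 0 < p := (Fact.out : p.Prime).pos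
  have hfix : ∀ m, Vm V N (m + 1) = ⊥ → ∀ g : G, ∀ φ ∈ Vm V N m, g • φ = φ := by
    intro m hm g φ hφ
    rw [H.hact g φ (H.le_V m hφ), Finset.sum_eq_single 0 (fun r _ hr => ?_) (by simp; omega), H.hb0]
    · simp
    · have := H.anti (show m + 1 ≤ m + r by omega) (pow_mem_Vm hφ r)
      rw [hm, Submodule.mem_bot] at this
      rw [this, smul_zero]
  by_cases h1 : Vm V N 1 = ⊥
  · have h2 : A = Algebra.adjoin k (V : Set L) := by
      rw [hA]
      refine le_antisymm (fix_le _) (Algebra.adjoin_le fun φ hφ => ⟨Algebra.subset_adjoin hφ,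
        fun g => hfix 0 h1 g φ (by rwa [Vm_zero])⟩)
    obtain ⟨S, hS, hS', hS''⟩ := exists_linearIndependent k (V : Set L)
    rw [Submodule.span_eq] at hS'
    have h3 : Algebra.FormallySmooth k A := by
      rw [h2, ← hS', Algebra.adjoin_span]
      have := H.hind S hS'' hS'
      have e := this.aevalEquiv
      rw [Subtype.range_coe] at e
      exact .of_equiv e
    refine ⟨1, Submodule.one_le.2 A.one_mem, one_ne_zero, ?_⟩
    rintro O ⟨g, hg, hg0, hP⟩
    refine (hP.of_le_loc ((le_chart _ _ _).trans hP.le) ((chart_le le_rfl fun m hm => ?_).trans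
      (le_loc _ _))).sf.formallySmooth
    obtain ⟨c, rfl⟩ := Submodule.mem_one.1 hg
    obtain ⟨c', rfl⟩ := Submodule.mem_one.1 hm
    rw [← map_div₀]
    exact A.algebraMap_mem _
  obtain ⟨m, hm, hm'⟩ : ∃ m, Vm V N (m + 1) ≠ ⊥ ∧ Vm V N (m + 2) = ⊥ := by
    by_contra h2
    push Not at h2
    have : ∀ m, Vm V N (m + 1) ≠ ⊥ := fun m => by
      induction m with
      | zero => exact h1
      | succ m ih => exact h2 m ih
    exact this p (le_bot_iff.1 (H.Vm_p ▸ H.succ_le p))
  obtain ⟨ψ, hψ, hψ0⟩ := (Submodule.ne_bot_iff _).1 hm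
  have hs : (1 : L) ∈ pc (fix G (Bal V N)) (-1) :=
    mem_pc_fix.2 ⟨s_mem_Bal V N, fun g => smul_one g⟩
  have hne : ∀ n : ℕ, pc (fix G (Bal V N)) n ≠ ⊥ := fun n =>
    (Submodule.ne_bot_iff _).2 ⟨ψ ^ n, pc_anti hs (by push_cast; nlinarith) (pow_mem_pc
      (mem_pc_fix.2 ⟨single_mem_Bal hψ, fun g => hfix _ hm' g ψ hψ⟩) n), pow_ne_zero _ hψ0⟩
  have hA0 : pc (fix G (Bal V N)) 0 = A.toSubmodule := by
    ext x
    rw [mem_pc_fix, H.pc_zero, hA]; rfl
  have hle : ∀ n : ℕ, pc (fix G (Bal V N)) n ≤ A.toSubmodule := fun n =>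
    hA0 ▸ pc_anti hs (Int.natCast_nonneg n)
  have := H.finiteType
  have := fix_finiteType H.stable
  obtain ⟨N0, hN0, hver⟩ := veronese ((grd_Bal V N).fix (G := G))
  refine resolve _ A p _ _ (hle N0) (hne N0) (fun n => ?_) (by simpa using hne (1 + N0))
    fun O hO => H.mod hA0 hN0 hver hO
  refine (mul_le_mul' (hle _) (pow_le_pow_left' (hle _) _)).trans ?_
  rw [← pow_succ']
  exact (Subalgebra.isIdempotentElem_toSubmodule A).pow_succ_eq _ |>.le

end Pool.Agent.MP_19ffc6_ag.Wild
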