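import Pool.Agent.MP_19ffc6_ag.WildSet

/-! The local structure of the invariants of the weighted blow-up. -/

namespace Pool.Agent.MP_19ffc6_ag.Wild

open AddMonoidAlgebra Polynomial

attribute [-simp] LaurentPolynomial.single_eq_C_mul_T LaurentPolynomial.single_eq_C

variable {k L : Type} [Field k] [Field L] [Algebra k L]
variable {G : Type} [Group G] [MulSemiringAction G L] [SMulCommClass G k L]

lemma Grd.fix {D : Subalgebra k (La L)} (hD : Grd D) : Grd (fix G D) := fun x hx n =>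
  ⟨hD x hx.1 n, fun g => by
    rw [smul_single, ← coeff_smul_apply, hx.2 g]⟩

lemma mem_pc_fix {D : Subalgebra k (La L)} {n : ℤ} {c : L} :
    c ∈ pc (fix G D) n ↔ c ∈ pc D n ∧ ∀ g : G, g • c = c := by
  rw [mem_pc, mem_fix, mem_pc]
  simp only [smul_single, single_right_inj]

lemma exists_Q [Finite G] {BR : Subalgebra k (La L)} (hst : ∀ g : G, ∀ x ∈ BR, g • x ∈ BR)
    (hBR : Grd BR) {O : Subalgebra k L} (hO : Lcl O) (hO0 : pc (fix G BR) 0 = O.toSubmodule)
    {h : L} (h0 : h ≠ 0) {N0 : ℕ} (hN0 : 0 < N0) (hh : h ∈ pc (fix G BR) N0)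
    (hh' : h⁻¹ ∈ pc (fix G BR) (-N0)) :
    ∃ Q : Submodule k (La L), (∀ x ∈ Q, ∀ y ∈ BR, x * y ∈ Q) ∧ 1 ∉ Q ∧
      (∀ x ∈ BR, ∀ y ∈ BR, x * y ∈ Q → x ∈ Q ∨ y ∈ Q) ∧
      ∀ n, ∀ c ∈ pc (fix G BR) n, single n c ∉ Q → c ≠ 0 ∧ c⁻¹ ∈ pc (fix G BR) (-n) := by
  have hR : Grd (fix G BR) := hBR.fix
  obtain ⟨Q, h1, h2, h3, h4⟩ := exists_prime_over hst
    (Ideal.span {r : fix G BR | ∃ o ∈ mx hO, r.1 = single 0 o}) (by
      rw [Ne, Ideal.eq_top_iff_one]
      intro h1
      have : ∀ x ∈ Ideal.span {r : fix G BR | ∃ o ∈ mx hO, r.1 = single 0 o},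
          ∀ r : fix G BR, (x * r).1.coeff 0 ∈ mx hO := by
        intro x hx
        induction hx using Submodule.span_induction with
        | mem x hx =>
          obtain ⟨o, ho, e⟩ := hx
          intro r
          rw [Subalgebra.coe_mul, e, coeff_single_mul', sub_zero]
          refine mul_mem_mx hO ho ?_
          have : r.1.coeff 0 ∈ pc (fix G BR) 0 := hR _ r.2 0
          rwa [hO0] at this
        | zero => intro r; simp
        | add x y _ _ hx hy =>
          intro r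
          rw [add_mul, Subalgebra.coe_add, AddMonoidAlgebra.coeff_add]
          exact add_mem (hx r) (hy r)
        | smul c x _ hx => intro r; rw [smul_eq_mul, mul_comm c, mul_assoc]; exact hx _
      have := this 1 h1 1
      rw [mul_one, Subalgebra.coe_one, one_def, coeff_single_same] at this
      exact this.2 (Un.one _))
  refine ⟨Q, h1, h2, h3, fun n c hc hcQ => ?_⟩
  have hc0 : c ≠ 0 := by rintro rfl; exact hcQ (by simp)
  have hpow : ∀ j : ℕ, (single n c : La L) ^ j ∉ Q := by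
    intro j
    induction j with
    | zero => simpa using h2
    | succ j ih =>
      rw [pow_succ]
      exact fun h => (h3 _ (BR.pow_mem hc.1 j) _ hc.1 h).elim ih hcQ
  have h5 : c ^ N0 * h ^ (-n) ∈ pc (fix G BR) 0 := by
    convert mul_mem_pc (pow_mem_pc hc N0) (zpow_mem_pc hh hh' (-n)) using 2; ring
  have h6 : Un O (c ^ N0 * h ^ (-n)) := by
    by_contra h6
    have h7 := h4 ⟨_, h5⟩ (Ideal.subset_span ⟨_, ⟨by rwa [hO0] at h5, h6⟩, rfl⟩)
    refine hpow N0 ?_
    convert h1 _ h7 _ (zpow_mem_pc hh hh' n).1 using 1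
    rw [single_pow', single_mul_single, zpow_neg, inv_mul_cancel_right₀ (zpow_ne_zero _ h0)]
    congr 1; ring
  refine ⟨hc0, ?_⟩
  obtain ⟨N1, rfl⟩ : ∃ N1, N0 = N1 + 1 := ⟨N0 - 1, by omega⟩
  have h7 : (c ^ (N1 + 1) * h ^ (-n))⁻¹ ∈ pc (fix G BR) 0 := by rw [hO0]; exact h6.2.2
  convert mul_mem_pc (mul_mem_pc h7 (pow_mem_pc hc N1)) (zpow_mem_pc hh hh' (-n)) using 1
  · congr 1; push_cast; ring
  · have : h ^ (-n) ≠ 0 := zpow_ne_zero _ h0
    field_simp
    ring

lemma norm_mem [Fintype G] {BR : Subalgebra k (La L)} (hst : ∀ g : G, ∀ x ∈ BR, g • x ∈ BR)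
    {n : ℤ} {c : L} (hc : c ∈ pc BR n) :
    ∏ g : G, g • c ∈ pc (fix G BR) (Fintype.card G * n) ∧
      (single (Fintype.card G * n) (∏ g : G, g • c) : La L) = ∏ g : G, g • single n c := by
  have h1 : (single (Fintype.card G * n) (∏ g : G, g • c) : La L) = ∏ g : G, g • single n c := by
    simp only [smul_single, prod_single, Finset.sum_const, Finset.card_univ, nsmul_eq_mul]
  refine ⟨mem_pc_fix.2 ⟨?_, fun h => ?_⟩, h1⟩
  · rw [mem_pc, h1]; exact BR.prod_mem fun g _ => hst g _ hc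
  · rw [Finset.smul_prod']
    exact Fintype.prod_bijective (h * ·) (Group.mulLeft_bijective h) _ _ fun g => smul_smul _ _ _

lemma prod_notMem {BR : Subalgebra k (La L)} {Q : Submodule k (La L)} (h2 : 1 ∉ Q)
    (h3 : ∀ x ∈ BR, ∀ y ∈ BR, x * y ∈ Q → x ∈ Q ∨ y ∈ Q) {γ : Type} (s : Finset γ)
    (x : γ → La L) (hx : ∀ i, x i ∈ BR) (hx' : ∀ i, x i ∉ Q) : ∏ i ∈ s, x i ∉ Q := by
  induction s using Finset.cons_induction with
  | empty => simpa using h2
  | cons i s hi ih =>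
    rw [Finset.prod_cons]
    exact fun h => (h3 _ (hx i) _ (BR.prod_mem fun j _ => hx j) h).elim (hx' i) ih

variable [Fintype G] {p : ℕ} {V : Submodule k L} {N : L →ₗ[k] L} {b : ℕ → k[X]} {lam : G → k}

lemma Setting.divided (H : Setting G p V N b lam) {BR : Subalgebra k (La L)}
    (hs : single (-1) 1 ∈ BR) (g h : G) :
    ∃ κ : ℕ → BR[X], (∀ g : G, g ≠ h → (κ 0).eval (algebraMap k BR (lam g) * ⟨_, hs⟩) = 0 ∧
        (κ 1).eval (algebraMap k BR (lam g) * ⟨_, hs⟩) = 1) ∧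
      ∀ (g : G) (m : ℕ), ∀ φ ∈ Vm V N m, g • (single (m : ℤ) φ : La L) - h • single (m : ℤ) φ =
        (algebraMap k _ (lam g - lam h) * single (-1) 1) * ∑ r ∈ Finset.range p,
          ((κ r).eval (algebraMap k BR (lam g) * ⟨_, hs⟩) : BR) *
            single ((m + r : ℕ) : ℤ) ((N ^ r) φ) := by
  let s : BR := ⟨_, hs⟩
  let κ : ℕ → BR[X] := fun r => hmg (b r) r s /ₘ (X - C (algebraMap k BR (lam h) * s))
  have hκ : ∀ r (g : G), algebraMap k BR (lam g - lam h) * s *
      (κ r).eval (algebraMap k BR (lam g) * s) =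
      algebraMap k BR ((b r).eval (lam g)) * s ^ r -
        algebraMap k BR ((b r).eval (lam h)) * s ^ r := by
    intro r g
    have h1 := congrArg (eval (algebraMap k BR (lam g) * s))
      (modByMonic_add_div (hmg (b r) r s) (X - C (algebraMap k BR (lam h) * s)))
    rw [modByMonic_X_sub_C_eq_C_eval] at h1
    simp only [eval_sub, eval_add, eval_mul, eval_C, eval_X, eval_hmg (H.hb r)] at h1
    rw [← h1, map_sub]; ring
  refine ⟨κ, fun g hg => ?_, fun g m φ hφ => ?_⟩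
  · have h0 : algebraMap k BR (lam g - lam h) * s ≠ 0 :=
      mul_ne_zero ((_root_.map_ne_zero _).2 (sub_ne_zero.2 fun e => hg (H.hlam e)))
        fun e => single_ne_zero.2 one_ne_zero (congrArg Subtype.val e)
    refine ⟨mul_left_cancel₀ h0 ?_, mul_left_cancel₀ h0 ?_⟩
    · rw [hκ, H.hb0]; simp
    · rw [hκ, H.hb1]; simp [sub_mul]
  · rw [H.smul_single_eq g hφ, H.smul_single_eq h hφ, ← Finset.sum_sub_distrib, Finset.mul_sum]
    refine Finset.sum_congr rfl fun r _ => ?_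
    have := congrArg Subtype.val (hκ r g)
    simp only [Subalgebra.coe_mul, Subalgebra.coe_sub, Subalgebra.coe_algebraMap,
      Subalgebra.coe_pow, s] at this
    rw [← sub_mul, ← this, mul_assoc _ _ (single _ _)]

theorem Setting.local_model [Fact p.Prime] [CharP k p] (H : Setting G p V N b lam)
    {𝒟 : Submonoid (La L)} (hS : ∀ δ ∈ 𝒟, δ ∈ Bal V N)
    (hS' : ∀ δ ∈ 𝒟, ∃ n c, c ≠ 0 ∧ δ = single n c ∧ ∀ g : G, g • c = c)
    {O : Subalgebra k L} (hO : Lcl O) [IsNoetherianRing O] [Algebra.EssFiniteType k O]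
    (hO0 : pc (fix G (locD (Bal V N) 𝒟 hS)) 0 = O.toSubmodule)
    {h : L} {N0 : ℕ} (hN0 : 0 < N0) (hh : single (N0 : ℤ) h ∈ 𝒟)
    (hfg : ∀ n : ℕ, ∃ h, h ≠ 0 ∧ ∀ x ∈ pc (fix G (locD (Bal V N) 𝒟 hS)) n, x * h ∈ O) :
    ∃ (ι : Type) (_ : Fintype ι) (_ : DecidableEq ι) (Y : ι → Lˣ) (a : ι → ℤ) (i : ι),
      Fintype.card ι ≤ Module.finrank k V + 1 ∧ a i ≠ 0 ∧ |a i| ≤ (p + 1 : ℕ) ∧ Ind k Y a ∧
      SF (V0 k Y a {i}) O ∧
      ∀ n : ℕ, pc (fix G (locD (Bal V N) 𝒟 hS)) n = sp O (Vs k Y a {i} n) := by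
  classical
  set BR := locD (Bal V N) 𝒟 hS with hBRdef
  set R := fix G BR with hRdef
  have hp1 : 1 < p := (Fact.out : p.Prime).one_lt
  have hBle : Bal V N ≤ BR := le_locD _ _ _
  have hst : ∀ g : G, ∀ x ∈ BR, g • x ∈ BR := by
    rintro g x ⟨δ, hδ, hx⟩
    obtain ⟨n, c, -, rfl, hc⟩ := hS' δ hδ
    refine ⟨_, hδ, ?_⟩
    have := H.stable g _ hx
    rwa [smul_mul', smul_single, hc] at this
  have hBR : Grd BR := (grd_Bal V N).locD hS fun δ hδ => by
    obtain ⟨n, c, -, e, -⟩ := hS' δ hδ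
    exact ⟨n, c, e⟩
  have hR : Grd R := hBR.fix
  have hRB : R ≤ BR := fix_le _
  have hinv : ∀ n c, c ≠ 0 → (∀ g : G, g • c = c) → single n c ∈ 𝒟 →
      c ∈ pc R n ∧ c⁻¹ ∈ pc R (-n) := fun n c hc hc' hδ =>
    ⟨mem_pc_fix.2 ⟨hBle (hS _ hδ), hc'⟩, mem_pc_fix.2 ⟨⟨_, hδ, by
      rw [mul_comm, single_mul_inv _ hc]; exact one_mem _⟩, fun g => by rw [smul_inv'', hc']⟩⟩
  obtain ⟨h0, hhg⟩ : h ≠ 0 ∧ ∀ g : G, g • h = h := by
    obtain ⟨n, c, hc, e, hc'⟩ := hS' _ hh
    rcases single_inj.1 e with ⟨-, rfl⟩ | ⟨-, e⟩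
    · exact ⟨hc, hc'⟩
    · exact absurd e hc
  have hsm : Algebra.FormallySmooth k BR := by
    have := H.formallySmooth
    refine formallySmooth_locD _ _ hS fun δ hδ => ?_
    obtain ⟨n, c, hc, rfl, -⟩ := hS' δ hδ
    exact IsUnit.of_mul_eq_one _ (single_mul_inv n hc)
  obtain ⟨Q, hQ, hQ1, hQp, hQu⟩ := exists_Q hst hBR hO hO0 h0 hN0 (hinv _ _ h0 hhg hh).1
    (hinv _ _ h0 hhg hh).2
  have hnorm : ∀ n, ∀ c ∈ pc BR n, (∀ g : G, g • single n c ∉ Q) →
      (∏ g : G, g • c) ≠ 0 ∧ (∏ g : G, g • c)⁻¹ ∈ pc R (-(Fintype.card G * n)) := by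
    intro n c hc hc'
    refine hQu _ _ (norm_mem hst hc).1 ?_
    rw [(norm_mem hst hc).2]
    exact prod_notMem hQ1 hQp _ _ (fun g => hst g _ hc) hc'
  have hs : (single (-1) 1 : La L) ∈ BR := hBle (s_mem_Bal V N)
  have hsR : (1 : L) ∈ pc R (-1) := mem_pc_fix.2 ⟨hs, fun g => smul_one g⟩
  have hex : ∃ m : ℕ, ∀ m' : ℕ, m < m' → ∀ ψ ∈ Vm V N m', single (m' : ℤ) ψ ∈ Q :=
    ⟨p, fun m' hm' ψ hψ => by
      have := H.anti hm'.le hψ
      rw [H.Vm_p, Submodule.mem_bot] at this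
      rw [this, single_zero]; exact zero_mem _⟩
  have hmax := Nat.find_spec hex
  obtain ⟨m, hm⟩ : ∃ m, Nat.find hex = m + 1 := by
    refine Nat.exists_eq_succ_of_ne_zero fun e => hQ1 ?_
    rw [e] at hmax
    rw [← single_mul_inv N0 h0]
    exact hQ _ (H.pos_mem (fun x hx y hy => hQ x hx y (hBle hy)) hmax (by omega) (hS _ hh)) _
      (hRB (hinv _ _ h0 hhg hh).2)
  obtain ⟨ψ, hψ, hψQ⟩ : ∃ ψ ∈ Vm V N (m + 1), single ((m + 1 : ℕ) : ℤ) ψ ∉ Q := by
    have := Nat.find_min hex (m := m) (by omega)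
    push Not at this
    obtain ⟨m', h1, ψ, h2, h3⟩ := this
    obtain rfl : m' = m + 1 := by
      by_contra h4
      exact h3 (hmax m' (by omega) ψ h2)
    exact ⟨ψ, h2, h3⟩
  rw [hm] at hmax
  have hψ' : ψ ∉ Vm V N (m + 2) := fun h1 => hψQ (by
    rw [single_eq_mul (m + 1) 1, mul_comm]
    exact hQ _ (hmax _ (by omega) _ h1) _ (pow_mem hs _))
  have hmp : m + 1 < p := by
    by_contra h1
    exact hψ' (by
      have := H.anti (not_lt.1 h1) hψ
      rw [H.Vm_p, Submodule.mem_bot] at this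
      rw [this]; exact zero_mem _)
  obtain ⟨φ, hφ, rfl⟩ : ∃ φ ∈ Vm V N m, N φ = ψ := by
    obtain ⟨φ0, h1, rfl⟩ := hψ
    exact ⟨(N ^ m) φ0, ⟨φ0, h1, rfl⟩, by rw [pow_succ']; rfl⟩
  have hφ' : φ ∉ Vm V N (m + 1) := fun h1 => hψ' (by simpa using pow_mem_Vm h1 1)
  set f : La L := single (m : ℤ) φ with hf
  set x' : La L := single ((m + 1 : ℕ) : ℤ) (N φ) with hx'
  have hfB : f ∈ BR := hBle (single_mem_Bal hφ)
  have hxB : x' ∈ BR := hBle (single_mem_Bal hψ)
  have hgx : ∀ g : G, g • x' - x' ∈ Q := by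
    intro g
    rw [H.smul_single_eq g hψ, Finset.sum_eq_add_sum_sdiff_singleton 0 _ (by simp; omega), H.hb0]
    simp only [eval_one, map_one, pow_zero, one_mul, Nat.add_zero, Module.End.one_apply]
    rw [add_sub_cancel_left]
    refine Q.sum_mem fun r hr => ?_
    rw [mul_comm]
    refine hQ _ (hmax _ ?_ _ (pow_mem_Vm hψ r)) _ (mul_mem (BR.algebraMap_mem _) (pow_mem hs _))
    simp only [Finset.mem_sdiff, Finset.mem_singleton] at hr
    omega
  let t : G → BR := fun g => algebraMap k BR (lam g) * ⟨_, hs⟩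
  have hθ : ∀ g h : G, g ≠ h →
      (algebraMap k (La L) (lam g - lam h) * single (-1) 1 : La L) ≠ 0 := fun g h hg =>
    mul_ne_zero ((_root_.map_ne_zero _).2 (sub_ne_zero.2 fun e => hg (H.hlam e)))
      (single_ne_zero.2 one_ne_zero)
  have hE : ∀ h : G, ∃ e : BR[X], (∀ g : G, g • f - h • f =
        (algebraMap k (La L) (lam g - lam h) * single (-1) 1) * ((e.eval (t g) : BR) : La L)) ∧
      (∀ g, g ≠ h → (∀ g' : G, g' • ((e.eval (t g) : BR) : La L) ∉ Q) ∧
        ∃ ε' ∈ Q, g • x' - h • x' = (algebraMap k (La L) (lam g - lam h) * single (-1) 1) * ε') := by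
    intro h
    obtain ⟨κ, h1, h2⟩ := H.divided hs h h
    let e : BR[X] := ∑ r ∈ Finset.range p, κ r * C ⟨_, hBle (single_mem_Bal (pow_mem_Vm hφ r))⟩
    have he : ∀ g, ((e.eval (t g) : BR) : La L) = ∑ r ∈ Finset.range p,
        ((κ r).eval (t g) : BR) * (single ((m + r : ℕ) : ℤ) ((N ^ r) φ) : La L) := by
      intro g
      simp only [e, eval_finsetSum, eval_mul, eval_C, AddSubmonoidClass.coe_finsetSum,
        Subalgebra.coe_mul]
    refine ⟨e, fun g => by rw [he]; exact h2 g m φ hφ, fun g hg => ⟨fun g' hg' => ?_, _, ?_,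
      h2 g (m + 1) _ hψ⟩⟩
    · apply hψQ
      have h3 : g' • ((e.eval (t g) : BR) : La L) - g' • x' ∈ Q := by
        rw [he, Finset.sum_eq_add_sum_sdiff_singleton 1 _ (by simp; omega), (h1 g hg).2, smul_add,
          Finset.smul_sum]
        simp only [Subalgebra.coe_one, one_mul, pow_one]
        rw [add_sub_cancel_left]
        refine Q.sum_mem fun r hr => ?_
        simp only [Finset.mem_sdiff, Finset.mem_singleton] at hr
        rcases Nat.eq_zero_or_pos r with rfl | hr0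
        · rw [(h1 g hg).1]; simp
        · rw [smul_mul', mul_comm, smul_single]
          exact hQ _ (hmax _ (by omega) _ (H.smul_mem g' (pow_mem_Vm hφ r))) _
            (hst _ _ (Subtype.prop _))
      convert sub_mem (sub_mem hg' h3) (hgx g') using 1
      ring
    · refine Q.sum_mem fun r _ => ?_
      rcases Nat.eq_zero_or_pos r with rfl | hr0
      · rw [(h1 g hg).1]; simp
      · rw [mul_comm]
        exact hQ _ (hmax _ (by omega) _ (pow_mem_Vm hψ r)) _ (Subtype.prop _)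
  obtain ⟨hK1, hK2, hK3⟩ := monogenic' hst hfB (fun g h e => by
      by_contra hg
      obtain ⟨e', h1, h2⟩ := hE h
      have h3 := h1 g
      rw [sub_eq_zero.2 e, eq_comm, mul_eq_zero, or_iff_right (hθ g h hg)] at h3
      exact (h2 g hg).1 1 (by rw [h3, smul_zero]; exact zero_mem _)) t (fun h => by
      obtain ⟨e, h1, h2⟩ := hE h
      refine ⟨e, fun g => ?_, fun g hg => ?_⟩
      · rw [h1, mul_comm]
        simp only [t, Subalgebra.coe_mul, Subalgebra.coe_sub, Subalgebra.coe_algebraMap, map_sub,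
          sub_mul]
      · have hl : lam g - lam h ≠ 0 := sub_ne_zero.2 fun e => hg (H.hlam e)
        have h3 : ((e.eval (t g) : BR) : La L) =
            single ((m + 1 : ℕ) : ℤ) ((lam g - lam h)⁻¹ • (g • φ - h • φ)) := by
          apply mul_left_cancel₀ (hθ g h hg)
          rw [← h1, ← smul_single, ← Algebra.smul_def, smul_mul_smul_comm, mul_inv_cancel₀ hl,
            one_smul, single_mul_single, one_mul, single_sub, hf, smul_single, smul_single]
          congr 2 <;> (push_cast; ring)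
        have h4 := (h2 g hg).1
        have h5 := (e.eval (t g)).2
        rw [h3] at h4 h5
        obtain ⟨h6, h7⟩ := hnorm _ _ h5 h4
        have h8 := single_mul_inv (Fintype.card G * ((m + 1 : ℕ) : ℤ)) h6
        rw [(norm_mem hst h5).2, ← Finset.mul_prod_erase _ _ (Finset.mem_univ (1 : G)), one_smul,
          mul_assoc] at h8
        refine IsUnit.of_mul_eq_one ⟨_, mul_mem (prod_mem (t := Finset.univ.erase 1) fun g' _ => hst g' _ h5) (hRB h7)⟩
          (Subtype.ext ?_)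
        rw [Subalgebra.coe_mul, h3]
        exact h8) (by
      let Z : Subalgebra k (La L) :=
        { carrier := {x | ∃ β : BR[X], ∀ g, ((β.eval (t g) : BR) : La L) = g • x}
          mul_mem' := by
            rintro x y ⟨β, hβ⟩ ⟨β', hβ'⟩
            exact ⟨β * β', fun g => by rw [eval_mul, Subalgebra.coe_mul, hβ, hβ', smul_mul']⟩
          add_mem' := by
            rintro x y ⟨β, hβ⟩ ⟨β', hβ'⟩
            exact ⟨β + β', fun g => by rw [eval_add, Subalgebra.coe_add, hβ, hβ', smul_add]⟩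
          algebraMap_mem' := fun r => ⟨C (algebraMap k BR r), fun g => by
            rw [eval_C, smul_algebraMap]; rfl⟩ }
      have hRZ : R ≤ Z := fun x hx => ⟨C ⟨x, hx.1⟩, fun g => by rw [eval_C, hx.2 g]⟩
      have hBZ : Bal V N ≤ Z := by
        refine Algebra.adjoin_le ?_
        rintro _ (rfl | ⟨m', φ', hφ', rfl⟩)
        · exact hRZ hsR
        · refine ⟨∑ r ∈ Finset.range p, hmg (b r) r ⟨_, hs⟩ *
            C ⟨_, hBle (single_mem_Bal (pow_mem_Vm hφ' r))⟩, fun g => ?_⟩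
          rw [H.smul_single_eq g hφ']
          simp only [t, eval_finsetSum, eval_mul, eval_C, AddSubmonoidClass.coe_finsetSum,
            Subalgebra.coe_mul, eval_hmg (H.hb _), Subalgebra.coe_algebraMap, Subalgebra.coe_pow]
      rintro x ⟨δ, hδ, hx⟩
      obtain ⟨n, c, hc, rfl, hc'⟩ := hS' δ hδ
      have := Z.mul_mem (hBZ hx) (hRZ (hinv n c hc hc' hδ).2)
      rwa [mul_assoc, single_mul_inv n hc, mul_one] at this)
  have hsmR := hK2 hsm
  have htriv : ∀ c : L, c ≠ 0 → c ∈ pc R 1 → c⁻¹ ∈ pc R (-1) →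
      ∃ (ι : Type) (_ : Fintype ι) (_ : DecidableEq ι) (Y : ι → Lˣ) (a : ι → ℤ) (i : ι),
      Fintype.card ι ≤ Module.finrank k V + 1 ∧ a i ≠ 0 ∧ |a i| ≤ (p + 1 : ℕ) ∧ Ind k Y a ∧
      SF (V0 k Y a {i}) O ∧ ∀ n : ℕ, pc R n = sp O (Vs k Y a {i} n) := by
    intro c hc0 hc hc'
    obtain ⟨h1, h2, h3⟩ := triv_model hR hO0 hc0 hc hc'
    exact ⟨Unit, inferInstance, inferInstance, _, _, (), by simp, one_ne_zero, by simp, h1, h2,
      fun n => h3 n⟩
  have hcpt : ∀ n, ∀ c ∈ pc BR n, ∃ (s : Finset ℕ) (cc : ℕ → L),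
      (∀ i : ℕ, cc i ∈ pc R (n - i * m)) ∧
      single n c = ∑ i ∈ s, single (n - i * m) (cc i) * f ^ i := by
    intro n c hc
    obtain ⟨P, h1, h2⟩ := hK1 _ hc
    refine ⟨P.support, fun i => (P.coeff i).coeff (n - i * m), fun i => hR _ (h1 i) _, ?_⟩
    have h3 := congrArg (fun z : La L => (single n (z.coeff n) : La L)) h2
    simp only [coeff_single_same] at h3
    rw [← h3, eval_eq_sum, Polynomial.sum, AddMonoidAlgebra.coeff_sum, Finsupp.finsetSum_apply]
    refine (map_sum (lsingle (R := k) n : L →ₗ[k] La L) _ _).trans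
      (Finset.sum_congr rfl fun i _ => ?_)
    rw [lsingle_apply, hf, single_pow', mul_comm, single_coeff_mul, mul_comm]
  by_cases hsQ : (single (-1) 1 : La L) ∉ Q
  · have := (hQu _ _ hsR hsQ).2
    exact htriv 1 one_ne_zero (by simpa using this) (by simpa using hsR)
  rw [not_not] at hsQ
  by_cases hfQ : f ∉ Q
  · let U : AddSubgroup ℤ :=
      { carrier := {n | ∃ c, c ≠ 0 ∧ c ∈ pc R n ∧ c⁻¹ ∈ pc R (-n)}
        add_mem' := by
          rintro n n' ⟨c, h1, h2, h3⟩ ⟨c', h1', h2', h3'⟩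
          exact ⟨c * c', mul_ne_zero h1 h1', mul_mem_pc h2 h2', by
            rw [mul_inv, neg_add]; exact mul_mem_pc h3 h3'⟩
        zero_mem' := ⟨1, one_ne_zero, one_mem_pc _, by simpa using one_mem_pc _⟩
        neg_mem' := by
          rintro n ⟨c, h1, h2, h3⟩
          exact ⟨c⁻¹, inv_ne_zero h1, h3, by simpa using h2⟩ }
    suffices h1 : (1 : ℤ) ∈ U by
      obtain ⟨c, h1, h2, h3⟩ := h1
      exact htriv c h1 h2 h3
    have hθQ : ∀ g h : G, (algebraMap k (La L) (lam g - lam h) * single (-1) 1 : La L) ∈ Q :=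
      fun g h => by rw [mul_comm]; exact hQ _ hsQ _ (BR.algebraMap_mem _)
    have hq : (Fintype.card G : ℤ) ∈ U := by
      have h1 := hnorm _ _ hfB fun g hg => hfQ (by
        obtain ⟨e, h1, -⟩ := hE 1
        have := hQ _ (hθQ g 1) _ (e.eval (t g)).2
        rw [← h1, one_smul] at this
        have := sub_mem hg this
        rwa [sub_sub_cancel] at this)
      have h2 := hnorm _ _ hxB fun g hg => hψQ (by
        have := sub_mem hg (hgx g)
        rwa [sub_sub_cancel] at this)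
      have := U.sub_mem ⟨_, h2.1, (norm_mem hst hxB).1, h2.2⟩ ⟨_, h1.1, (norm_mem hst hfB).1, h1.2⟩
      convert this using 1
      push_cast; ring
    by_cases hG : Nontrivial G
    · obtain ⟨g, hg⟩ := exists_ne (1 : G)
      obtain ⟨s, cc, h1, h2⟩ := hcpt _ _ hxB
      obtain ⟨e, h3, h4⟩ := hE 1
      obtain ⟨h4, ε', h5, h6⟩ := h4 g hg
      rw [one_smul] at h3 h6
      have h7 : ¬ ∀ i ∈ s, (single (((m + 1 : ℕ) : ℤ) - i * m) (cc i) : La L) ∈ Q ∨
          (p : ℤ) ∣ (m + 1 : ℕ) - i * ((m + 1 : ℕ) - 1) := by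
        intro h7
        apply hψQ
        have h2' : x' = _ := h2
        rw [h2']
        refine euler hQ hQp p s _ (fun i => hRB (h1 i)) (hst g _ hfB) hfB (e.eval (t g)).2
          (hθ g 1 hg) (h3 g) ?_ (hθQ g 1) (by simpa using h4 1) h5
          (Nat.not_dvd_of_pos_of_lt (by omega) hmp) h7
        rw [← h6, ← h2']
        congr 1
        rw [h2', Finset.smul_sum]
        exact Finset.sum_congr rfl fun i _ => by rw [smul_mul', smul_pow', (h1 i).2 g]
      push Not at h7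
      obtain ⟨i, -, h8, h9⟩ := h7
      have h10 : ((m + 1 : ℕ) : ℤ) - i * m ∈ U := ⟨_, (hQu _ _ (h1 i) h8).1, h1 i,
        (hQu _ _ (h1 i) h8).2⟩
      obtain ⟨e', he'⟩ := H.hcard
      have h11 : IsCoprime ((p : ℤ) ^ e') (((m + 1 : ℕ) : ℤ) - i * m) := by
        refine IsCoprime.pow_left ((Nat.prime_iff_prime_int.1 Fact.out).irreducible.coprime_iff_not_dvd.2 ?_)
        have e : ((m + 1 : ℕ) : ℤ) - 1 = m := by push_cast; ring
        rwa [e] at h9
      obtain ⟨u, v, huv⟩ := h11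
      rw [← huv]
      refine U.add_mem (U.zsmul_mem ?_ u) (U.zsmul_mem h10 v)
      rw [he'] at hq
      exact_mod_cast hq
    · rw [not_nontrivial_iff_subsingleton] at hG
      have : Fintype.card G = 1 := Fintype.card_eq_one_iff.2 ⟨1, fun _ => Subsingleton.elim _ _⟩
      rwa [this] at hq
  rw [not_not] at hfQ
  obtain ⟨S, _, Y0, a0, h1, h2, h3, h4, h5, h6, h7, h8⟩ := H.exists_basis
    (fun j => if j = m then φ else if j = m + 1 then N φ else 0) fun j => by
      split_ifs with e e'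
      exacts [e ▸ hφ, e' ▸ hψ, zero_mem _]
  have hφS : φ ∈ S := by simpa using h8 m (by simpa using hφ')
  have hψS : N φ ∈ S := by simpa using h8 (m + 1) (by simpa using hψ')
  have hwt : ∀ (x : S) (j : ℕ), x.1 ∈ Vm V N j → x.1 ∉ Vm V N (j + 1) → a0 (some x) = j := by
    intro x j hj hj'
    obtain ⟨j', e, hj1, hj2⟩ := h4 x
    rw [e]
    congr 1
    by_contra hne
    rcases lt_or_gt_of_ne hne with h | h
    exacts [hj2 (H.anti h hj), hj' (H.anti h hj1)]
  have hf1 : (single (a0 (some ⟨φ, hφS⟩)) (Y0 (some ⟨φ, hφS⟩) : L) : La L) = f := by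
    rw [hwt _ m hφ hφ', h3]
  have hf0 : (single (a0 (some ⟨N φ, hψS⟩)) (Y0 (some ⟨N φ, hψS⟩) : L) : La L) = x' := by
    rw [hwt _ (m + 1) hψ hψ', h3]
  have hyB : ∀ j, (single (a0 j) (Y0 j : L) : La L) ∈ BR := fun j =>
    hBle (h6 ▸ Algebra.subset_adjoin ⟨j, rfl⟩)
  have hlift : ∀ j, ∃ c ∈ pc R (a0 j), ∃ b ∈ BR, single (a0 j) c - single (a0 j) (Y0 j : L) = f * b := by
    intro j
    obtain ⟨s, cc, e1, e2⟩ := hcpt _ _ (hyB j)
    refine ⟨if 0 ∈ s then cc 0 else 0, ?_,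
      -∑ i ∈ s.erase 0, single (a0 j - i * m) (cc i) * f ^ (i - 1),
      neg_mem (sum_mem fun i _ => mul_mem (hRB (e1 i)) (pow_mem hfB _)), ?_⟩
    · split_ifs
      · simpa using e1 0
      · exact zero_mem _
    · have e3 : f * ∑ i ∈ s.erase 0, single (a0 j - i * m) (cc i) * f ^ (i - 1) =
          ∑ i ∈ s.erase 0, single (a0 j - i * m) (cc i) * f ^ i := by
        rw [Finset.mul_sum]
        refine Finset.sum_congr rfl fun i hi => ?_
        obtain ⟨i, rfl⟩ := Nat.exists_eq_succ_of_ne_zero (Finset.ne_of_mem_erase hi)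
        rw [Nat.succ_sub_one, pow_succ]; ring
      rw [e2, mul_neg, e3]
      split_ifs with h0
      · rw [← Finset.add_sum_erase _ _ h0]; simp
      · rw [Finset.erase_eq_of_notMem h0]; simp
  choose c hc hc' using hlift
  let i1 : Option S := some ⟨φ, hφS⟩
  let i0 : Option S := some ⟨N φ, hψS⟩
  have hi : i0 ≠ i1 := fun e => hφ' (by
    have : N φ = φ := congrArg Subtype.val (Option.some.inj e)
    rwa [this] at hψ)
  have hφ0 : φ ≠ 0 := fun e => hφ' (e ▸ zero_mem _)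
  obtain ⟨hτ1, hτ2⟩ := norm_mem hst hfB
  obtain ⟨Y', e1, e2, e3⟩ := mono_model hR hBR hRB hO hO0 h7 hyB (by
      rintro x ⟨δ, hδ, hx⟩
      obtain ⟨n, c, hc, rfl, hc'⟩ := hS' δ hδ
      exact ⟨n, c, hc, h6 ▸ hS _ hδ, (hinv n c hc hc' hδ).2, h6 ▸ hx⟩)
    (i0 := i0) (i1 := i1) (hf1.trans hf) hQ hQ1 hQu (hf1 ▸ hfQ) (hf0 ▸ hψQ)
    (Y := Function.update c i1 (∏ g : G, g • φ))
    (a := Function.update a0 i1 (Fintype.card G * m)) (fun j => by
      by_cases hj : j = i1
      · subst hj; simpa using hτ1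
      · simpa [Function.update_of_ne hj] using hc j) (fun j => by
      by_cases hj : j = i1
      · subst hj
        refine ⟨∏ g ∈ Finset.univ.erase (1 : G), g • f - 1,
          sub_mem (prod_mem fun g _ => hst g _ hfB) (one_mem _), ?_⟩
        rw [Function.update_self, Function.update_self, hτ2, hf1, mul_sub, mul_one,
          ← Finset.mul_prod_erase _ _ (Finset.mem_univ (1 : G)), one_smul]
      · rw [Function.update_of_ne hj, Function.update_of_ne hj, hf1]; exact hc' j)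
    (by
      rw [Function.update_self]
      exact Finset.prod_ne_zero_iff.2 fun g _ => (smul_ne_zero_iff_ne g).2 hφ0)
    (by rw [Function.update_self, Function.update_self, hτ2, hf1]; exact hK3)
    (m := m + 1) (by rw [Function.update_of_ne hi]; exact hwt _ _ hψ hψ') (by omega) hfg
  have e4 : Function.update a0 i1 (Fintype.card G * m) i0 = (m + 1 : ℕ) := by
    rw [Function.update_of_ne hi]; exact hwt _ _ hψ hψ'
  exact ⟨Option S, inferInstance, inferInstance, Y', _, i0, h5.le, by rw [e4]; omega,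
    by rw [e4, abs_le]; omega, e1, e2, e3⟩

end Pool.Agent.MP_19ffc6_ag.Wild
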