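import Pool.Agent.MP_19ffc6_ag.WildGr

/-! The local monomial model along a hypersurface section. -/

namespace Pool.Agent.MP_19ffc6_ag.Wild

open AddMonoidAlgebra

attribute [-simp] LaurentPolynomial.single_eq_C_mul_T LaurentPolynomial.single_eq_C

variable {k L : Type} [Field k] [Field L] [Algebra k L]

lemma nakayama {O : Subalgebra k L} (hO : Lcl O) [IsNoetherianRing O] {X Z : Submodule k L}
    (hX : ∀ o ∈ O, ∀ x ∈ X, o * x ∈ X) (hZ : ∀ o ∈ O, ∀ x ∈ Z, o * x ∈ Z) {h : L} (h0 : h ≠ 0)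
    (hh : ∀ x ∈ X, x * h ∈ O) {τ : L} (hτ : τ ∈ mx hO)
    (H : ∀ x ∈ X, ∃ z ∈ Z, ∃ x' ∈ X, x = z + τ * x') : X ≤ Z := by
  have := hO.isLocalRing
  let X' : Submodule O L := { X.toAddSubmonoid with smul_mem' := fun o x hx => hX o o.2 x hx }
  let Z' : Submodule O L := { Z.toAddSubmonoid with smul_mem' := fun o x hx => hZ o o.2 x hx }
  have hfg : X'.FG := by
    have h1 : X' ≤ Submodule.span O {h⁻¹} := fun x hx =>
      Submodule.mem_span_singleton.2 ⟨⟨_, hh x hx⟩, by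
        change x * h * h⁻¹ = x
        rw [mul_inv_cancel_right₀ h0]⟩
    have : IsNoetherian O (Submodule.span O {h⁻¹} : Submodule O L) :=
      isNoetherian_span_of_finite _ (Set.finite_singleton _)
    exact (Submodule.fg_top _).1 ((isNoetherian_of_le h1).1 ⊤)
  have : X' ≤ Z' := by
    refine Submodule.le_of_le_smul_of_le_jacobson_bot (I := IsLocalRing.maximalIdeal O) hfg
      (IsLocalRing.maximalIdeal_le_jacobson _) fun x hx => ?_
    obtain ⟨z, hz, x', hx', rfl⟩ := H x hx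
    exact Submodule.add_mem_sup (show z ∈ Z' from hz) (Submodule.smul_mem_smul
      (r := (⟨τ, hτ.1⟩ : O)) (fun hu => hτ.2 ((isUnit_iff_un _).1 hu)) (show x' ∈ X' from hx'))
  exact fun x hx => this hx

lemma sf_of_param {A0 O : Subalgebra k L} (h0 : A0 ≤ O) (hO : Lcl O) [IsNoetherianRing O]
    [Algebra.EssFiniteType k O] [Algebra.FiniteType k A0] {τ : L} (hτ0 : τ ≠ 0) (hτA : τ ∈ A0)
    (hτ : τ ∈ mx hO) (h1 : ∀ x ∈ O, ∃ z ∈ loc A0 O, ∃ x' ∈ O, x = z + τ * x')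
    (h2 : ∀ z ∈ A0, z / τ ∈ O → z / τ ∈ A0) : SF A0 O := by
  have hP := isPoint_loc h0 hO
  refine hP.sf.trans ⟨loc_le h0, ?_⟩
  have : IsNoetherianRing A0 := Algebra.FiniteType.isNoetherianRing k A0
  have := hP.isNoetherianRing
  have := hO.isLocalRing
  have := hP.lcl.isLocalRing
  let := (Subalgebra.inclusion (loc_le h0)).toRingHom.toAlgebra
  have : IsScalarTower k (loc A0 O) O := .of_algebraMap_eq fun _ => rfl
  have : Algebra.EssFiniteType (loc A0 O) O := .of_comp k _ _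
  have hun : ∀ x : loc A0 O, Un O x → Un (loc A0 O) x := by
    rintro ⟨_, a, ha, b, hb, hu, rfl⟩ hx
    have : Un O a := by
      have := hx.mul hu
      rwa [div_mul_cancel₀ _ hu.2.1] at this
    simpa [div_eq_mul_inv] using (un_loc ha this).mul (un_loc hb hu).inv
  have : IsLocalHom (algebraMap (loc A0 O) O) :=
    ⟨fun x hx => (isUnit_iff_un _).2 (hun x ((isUnit_iff_un _).1 hx))⟩
  let τ' : loc A0 O := ⟨τ, le_loc _ _ hτA⟩
  have h1' : ∀ s : O, ∃ (r : loc A0 O) (s' : O),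
      s = algebraMap _ O r + algebraMap _ O τ' * s' := fun s => by
    obtain ⟨z, hz, x', hx', e⟩ := h1 s s.2
    exact ⟨⟨z, hz⟩, ⟨x', hx'⟩, Subtype.ext e⟩
  have : Module.Flat (loc A0 O) O := by
    refine flat_of_param (fun x y e => Subtype.ext (congrArg Subtype.val e :)) τ'
      (fun hu => hτ.2 ((isUnit_iff_un _).1 hu)) (fun s hs => ?_) h1' ?_
    · have : τ * s = 0 := congrArg Subtype.val hs
      exact Subtype.ext ((mul_eq_zero.1 this).resolve_left hτ0)
    · rintro ⟨_, a, ha, b, hb, hu, rfl⟩ s e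
      have e' : a / b = τ * s := congrArg Subtype.val e
      have h3 : a / τ = s * b := by
        have := hu.2.1
        field_simp at e' ⊢
        exact e'
      refine ⟨⟨_, _, h2 a ha (h3 ▸ mul_mem s.2 hu.1), b, hb, hu, rfl⟩, Subtype.ext ?_⟩
      change a / b = τ * (a / τ / b)
      field_simp
  exact ⟨formallySmooth_of_param τ' (fun hu => hτ.2 (((isUnit_iff_un _).1 hu).mono (loc_le h0)))
    h1', this⟩

lemma mono_model {ι : Type} [Fintype ι] [DecidableEq ι] {R BR : Subalgebra k (La L)}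
    (hR : Grd R) (hBR : Grd BR) (hRB : R ≤ BR) {O : Subalgebra k L} (hO : Lcl O)
    [IsNoetherianRing O] [Algebra.EssFiniteType k O] (hO0 : pc R 0 = O.toSubmodule)
    {yB : ι → La L} (hB : AlgebraicIndependent k yB) (hBB : ∀ j, yB j ∈ BR)
    (hden : ∀ x ∈ BR, ∃ e d, d ≠ 0 ∧ single e d ∈ Algebra.adjoin k (Set.range yB) ∧
      d⁻¹ ∈ pc R (-e) ∧ x * single e d ∈ Algebra.adjoin k (Set.range yB))
    {i0 i1 : ι} {e1 : ℤ} {φ : L} (hf : yB i1 = single e1 φ)
    {Q : Submodule k (La L)} (hQ : ∀ x ∈ Q, ∀ y ∈ BR, x * y ∈ Q) (hQ1 : 1 ∉ Q)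
    (hQu : ∀ n, ∀ c ∈ pc R n, single n c ∉ Q → c ≠ 0 ∧ c⁻¹ ∈ pc R (-n))
    (hfQ : yB i1 ∈ Q) (hxQ : yB i0 ∉ Q) {Y : ι → L} {a : ι → ℤ} (hY : ∀ j, Y j ∈ pc R (a j))
    (hYB : ∀ j, ∃ b ∈ BR, single (a j) (Y j) - yB j = yB i1 * b) (ht : Y i1 ≠ 0)
    (hK : ∀ r ∈ R, (∃ b ∈ BR, r = yB i1 * b) → ∃ r' ∈ R, r = single (a i1) (Y i1) * r')
    {m : ℕ} (hm : a i0 = m) (hm0 : 0 < m)
    (hfg : ∀ n : ℕ, ∃ h, h ≠ 0 ∧ ∀ x ∈ pc R n, x * h ∈ O) :
    ∃ Y' : ι → Lˣ, Ind k Y' a ∧ SF (V0 k Y' a {i0}) O ∧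
      ∀ n : ℕ, pc R n = sp O (Vs k Y' a {i0} n) := by
  let fB : Submodule k (La L) := BR.toSubmodule.map (LinearMap.mulLeft k (yB i1))
  have mem_fB : ∀ x, x ∈ fB ↔ ∃ b ∈ BR, x = yB i1 * b := fun x =>
    ⟨fun ⟨b, hb, e⟩ => ⟨b, hb, e.symm⟩, fun ⟨b, hb, e⟩ => ⟨b, hb, e.symm⟩⟩
  have fB_mul : ∀ x ∈ fB, ∀ y ∈ BR, x * y ∈ fB := by
    rintro _ ⟨b, hb, rfl⟩ y hy
    exact ⟨b * y, BR.mul_mem hb hy, (mul_assoc _ _ _).symm⟩
  have fB_Q : fB ≤ Q := by
    rintro _ ⟨b, hb, rfl⟩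
    exact hQ _ hfQ _ hb
  have fB_cpt : ∀ x ∈ fB, ∀ n, single n (x.coeff n) ∈ fB := by
    rintro _ ⟨b, hb, rfl⟩ n
    refine (mem_fB _).2 ⟨_, hBR b hb (n - e1), ?_⟩
    rw [LinearMap.mulLeft_apply, hf, single_coeff_mul]
  let yP : ι → La L := fun j => single (a j) (Y j)
  have hPR : ∀ p : MvPolynomial ι k, MvPolynomial.aeval yP p ∈ R := fun p =>
    (Algebra.adjoin_le (by rintro _ ⟨j, rfl⟩; exact hY j) :
      Algebra.adjoin k (Set.range yP) ≤ R) (by rw [Algebra.adjoin_range_eq_range_aeval]; exact ⟨p, rfl⟩)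
  have hBle : Algebra.adjoin k (Set.range yB) ≤ BR :=
    Algebra.adjoin_le (by rintro _ ⟨j, rfl⟩; exact hBB j)
  have hBBR : ∀ p : MvPolynomial ι k, MvPolynomial.aeval yB p ∈ BR := fun p =>
    hBle (by rw [Algebra.adjoin_range_eq_range_aeval]; exact ⟨p, rfl⟩)
  have hcong : ∀ p : MvPolynomial ι k,
      MvPolynomial.aeval yP p - MvPolynomial.aeval yB p ∈ fB := by
    intro p
    induction p using MvPolynomial.induction_on with
    | C c => simp
    | add p q hp hq => convert add_mem hp hq using 1; simp only [map_add]; ring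
    | mul_X p j hp =>
      convert add_mem (fB_mul _ hp _ (hRB (hY j))) (fB_mul _ ((mem_fB _).2 (hYB j)) _ (hBBR p))
        using 1
      simp only [map_mul, MvPolynomial.aeval_X]
      change _ * yP j - _ = _ * yP j + (yP j - _) * _
      ring
  have hdQ : ∀ e d, d ≠ 0 → d⁻¹ ∈ pc R (-e) → single e d ∉ Q := fun e d hd hd' h =>
    hQ1 (single_mul_inv e hd ▸ hQ _ h _ (hRB hd'))
  have hstar : ∀ p : MvPolynomial ι k, MvPolynomial.aeval yP p ∈ fB → MvPolynomial.X i1 ∣ p := by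
    intro p hp
    have h1 : MvPolynomial.aeval yB p ∈ fB := by
      convert sub_mem hp (hcong p) using 1; ring
    obtain ⟨b, hb, e⟩ := (mem_fB _).1 h1
    obtain ⟨e', d, hd0, hd, hd', hbd⟩ := hden b hb
    rw [Algebra.adjoin_range_eq_range_aeval] at hd hbd
    obtain ⟨δ, hδ⟩ := hd
    obtain ⟨b', hb'⟩ := hbd
    replace hδ : MvPolynomial.aeval yB δ = single e' d := hδ
    replace hb' : MvPolynomial.aeval yB b' = b * single e' d := hb'
    have h2 : p * δ = MvPolynomial.X i1 * b' := by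
      apply algebraicIndependent_iff_injective_aeval.1 hB
      simp only [map_mul, MvPolynomial.aeval_X, hδ, hb', e, mul_assoc]
    rcases MvPolynomial.X_prime.dvd_or_dvd ⟨b', h2⟩ with h3 | ⟨δ', rfl⟩
    · exact h3
    · refine absurd ?_ (hdQ e' d hd0 hd')
      rw [← hδ, map_mul, MvPolynomial.aeval_X]
      exact hQ _ hfQ _ (hBBR _)
  have ht' : yP i1 ≠ 0 := single_ne_zero.2 ht
  have hind : AlgebraicIndependent k yP := by
    rw [algebraicIndependent_iff]
    intro p hp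
    by_contra hp0
    have h1 := FiniteMultiplicity.of_not_isUnit (MvPolynomial.X_prime (R := k) (i := i1)).not_unit hp0
    obtain ⟨q, hq, hq'⟩ := h1.exists_eq_pow_mul_and_not_dvd
    refine hq' (hstar q ?_)
    rw [hq, map_mul, map_pow, MvPolynomial.aeval_X, mul_eq_zero] at hp
    rw [hp.resolve_left (pow_ne_zero _ ht')]
    exact zero_mem _
  have hY0 : ∀ j, Y j ≠ 0 := fun j => single_ne_zero.1 (hind.ne_zero j)
  let Y' : ι → Lˣ := fun j => Units.mk0 (Y j) (hY0 j)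
  have hpcP : ∀ n, pc (Algebra.adjoin k (Set.range yP)) n = Vs k Y' a ∅ n := pc_adjoin Y' a
  have hgP : Grd (Algebra.adjoin k (Set.range yP)) :=
    grd_adjoin (by rintro _ ⟨j, rfl⟩; exact ⟨_, _, rfl⟩)
  have hx' : (Y i0)⁻¹ ∈ pc R (-a i0) := by
    refine (hQu _ _ (hY i0) fun h => hxQ ?_).2
    convert sub_mem h (fB_Q ((mem_fB _).2 (hYB i0))) using 1
    ring
  have hVR : ∀ n, Vs k Y' a {i0} n ≤ pc R n :=
    Vs_le_pc (Y := Y') hY (by rintro j rfl; exact hx')
  have hV0 : ∀ n, Vs k Y' a ∅ n ≤ Vs k Y' a {i0} n := fun n =>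
    Vs_le fun c hc hn => mon_mem_Vs (hc.mono (Set.empty_subset _)) hn
  have hA0 : V0 k Y' a {i0} ≤ O := fun x hx => by
    have := hVR 0 hx
    rwa [hO0] at this
  have hOR : ∀ o ∈ O, ∀ n, ∀ x ∈ pc R n, o * x ∈ pc R n := fun o ho n x hx => by
    have : o ∈ pc R 0 := by rw [hO0]; exact ho
    simpa using mul_mem_pc this hx
  have hpw : ∀ e : ℤ, Y i0 ^ e ∈ Vs k Y' a {i0} (m * e) := fun e => by
    have := mon_mem_Vs (k := k) (Y := Y') (a := a) (cn_single {i0} i0 (e := e) fun h => absurd rfl h)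
      (by rw [dg_single, hm])
    rwa [mon_single] at this
  have hmulV : ∀ {n n' : ℤ} {x y : L}, x ∈ Vs k Y' a {i0} n → y ∈ Vs k Y' a {i0} n' →
      x * y ∈ Vs k Y' a {i0} (n + n') := fun hx hy =>
    Vs_mul_le _ _ _ _ _ (Submodule.mul_mem_mul hx hy)
  have hpowV : ∀ {n : ℤ} {x : L}, x ∈ Vs k Y' a {i0} n → ∀ j : ℕ,
      x ^ j ∈ Vs k Y' a {i0} (j * n) := fun {n x} hx j => by
    induction j with
    | zero => simpa using one_mem_Vs _ _ _
    | succ j ih => rw [pow_succ]; convert hmulV ih hx using 2; push_cast; ring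
  have hτ0V : Y i1 ∈ Vs k Y' a {i0} (a i1) := by
    have := mon_mem_Vs (k := k) (Y := Y') (a := a) (cn_single {i0} i1 (e := 1) fun _ => zero_le_one)
      (by rw [dg_single, mul_one])
    rwa [mon_single, zpow_one] at this
  have hK' : ∀ n, ∀ x ∈ pc R n, single n x ∈ fB → x / Y i1 ∈ pc R (n - a i1) := by
    intro n x hx hx'
    obtain ⟨r', hr', e⟩ := hK _ hx ((mem_fB _).1 hx')
    have h1 := congrArg (fun z : La L => z.coeff n) e
    simp only [coeff_single_same, coeff_single_mul'] at h1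
    rw [h1, mul_div_cancel_left₀ _ ht]
    exact hR _ hr' _
  have happrox : ∀ e d, single e d ∈ Algebra.adjoin k (Set.range yB) →
      ∃ z ∈ Vs k Y' a {i0} e, single e (z - d) ∈ fB := by
    intro e d hd
    rw [Algebra.adjoin_range_eq_range_aeval] at hd
    obtain ⟨p, hp⟩ := hd
    replace hp : MvPolynomial.aeval yB p = single e d := hp
    refine ⟨(MvPolynomial.aeval yP p).coeff e, hV0 _ ?_, ?_⟩
    · rw [← hpcP]
      exact hgP _ (by rw [Algebra.adjoin_range_eq_range_aeval]; exact ⟨p, rfl⟩) e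
    · have := fB_cpt _ (hcong p) e
      rwa [hp, coeff_sub, Finsupp.sub_apply, coeff_single_same] at this
  set O0 := loc (V0 k Y' a {i0}) O with hO0'
  have hstep : ∀ n, ∀ r ∈ pc R n, ∃ z ∈ sp O0 (Vs k Y' a {i0} n), ∃ r' ∈ pc R (n - a i1),
      r = z + Y i1 * r' := by
    intro n r hr
    obtain ⟨e, d, hd0, hd, hd', hrd⟩ := hden _ (hRB hr)
    rw [single_mul_single] at hrd
    obtain ⟨z1, hz1, hz1'⟩ := happrox _ _ hrd
    obtain ⟨z2, hz2, hz2'⟩ := happrox _ _ hd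
    obtain ⟨hz0, hz2i⟩ := hQu e z2 (hVR _ hz2) fun h => hdQ e d hd0 hd' (by
      convert sub_mem h (fB_Q hz2') using 1
      rw [single_sub]; ring)
    obtain ⟨m', rfl⟩ : ∃ m', m = m' + 1 := ⟨m - 1, by omega⟩
    have hy0 : Y i0 ^ (-e) ≠ 0 := zpow_ne_zero _ (hY0 _)
    have h1 : z2 ^ (m' + 1) * Y i0 ^ (-e) ∈ V0 k Y' a {i0} := by
      rw [mem_V0]; convert hmulV (hpowV hz2 (m' + 1)) (hpw (-e)) using 2; ring
    have h2 : Un O (z2 ^ (m' + 1) * Y i0 ^ (-e)) := by
      refine ⟨hA0 h1, mul_ne_zero (pow_ne_zero _ hz0) hy0, ?_⟩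
      have := mul_mem_pc (pow_mem_pc hz2i (m' + 1)) (hVR _ (hpw e))
      rw [show ((m' + 1 : ℕ) : ℤ) * -e + (m' + 1 : ℕ) * e = 0 by ring, hO0] at this
      rwa [mul_inv, ← inv_pow, zpow_neg, inv_inv]
    have h3 : z1 / z2 ∈ sp O0 (Vs k Y' a {i0} n) := by
      have h4 : z1 * z2 ^ m' * Y i0 ^ (-e) ∈ Vs k Y' a {i0} n := by
        convert hmulV (hmulV hz1 (hpowV hz2 m')) (hpw (-e)) using 2; push_cast; ring
      convert mul_mem_sp (un_loc h1 h2).2.2 (le_sp O0 _ h4) using 1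
      field_simp
      ring
    have h5 : r - z1 / z2 ∈ pc R n := sub_mem hr (by
      have := mul_mem_pc (hVR _ hz1) hz2i
      rwa [add_neg_cancel_right, ← div_eq_mul_inv] at this)
    refine ⟨_, h3, _, hK' n _ h5 ?_, by field_simp; ring⟩
    convert fB_mul _ (sub_mem (fB_mul _ hz2' _ (hRB hr)) hz1') _ (hRB hz2i) using 1
    change _ = (single e (z2 - d) * single n r - _) * single (-e) z2⁻¹
    rw [single_mul_single, add_comm e n, ← single_sub, single_mul_single, add_neg_cancel_right]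
    congr 1
    field_simp
    ring
  have hiter : ∀ (j : ℕ) (n : ℤ), ∀ r ∈ pc R n, ∃ z ∈ sp O0 (Vs k Y' a {i0} n),
      ∃ r' ∈ pc R (n - j * a i1), r = z + Y i1 ^ j * r' := by
    intro j
    induction j with
    | zero => exact fun n r hr => ⟨0, zero_mem _, r, by simpa using hr, by simp⟩
    | succ j ih =>
      intro n r hr
      obtain ⟨z, hz, r', hr', rfl⟩ := ih n r hr
      obtain ⟨z', hz', r'', hr'', rfl⟩ := hstep _ r' hr'
      refine ⟨z + Y i1 ^ j * z', add_mem hz ?_, r'', by convert hr'' using 2; push_cast; ring,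
        by ring⟩
      have := Submodule.mul_mem_mul (le_sp O0 _ (hpowV hτ0V j)) hz'
      rw [← sp_mul] at this
      refine sp_le_sp le_rfl ((Vs_mul_le _ _ _ _ _).trans ?_) this
      rw [add_sub_cancel]; exact le_sp _ _
  set τ : L := Y i1 ^ m * Y i0 ^ (-a i1) with hτ
  have hτ0 : τ ≠ 0 := mul_ne_zero (pow_ne_zero _ ht) (zpow_ne_zero _ (hY0 _))
  have hτA : τ ∈ V0 k Y' a {i0} := by
    rw [mem_V0]; convert hmulV (hpowV hτ0V m) (hpw (-a i1)) using 2; ring
  have hτm : τ ∈ mx hO := by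
    refine ⟨hA0 hτA, fun hu => ?_⟩
    have h1 : yP i1 ∈ Q := by
      convert add_mem (fB_Q ((mem_fB _).2 (hYB i1))) hfQ using 1
      simp [yP]
    refine hdQ _ _ ht ?_ h1
    obtain ⟨m', rfl⟩ : ∃ m', m = m' + 1 := ⟨m - 1, by omega⟩
    have := hOR _ hu.2.2 _ _ (hVR _ (hmulV (hpowV hτ0V m') (hpw (-a i1))))
    convert this using 1
    · congr 1; push_cast; ring
    · rw [hτ]
      have : Y i0 ^ (-a i1) ≠ 0 := zpow_ne_zero _ (hY0 _)
      field_simp
      ring
  have hdec : ∀ n : ℤ, ∀ r ∈ pc R n, ∃ z ∈ sp O0 (Vs k Y' a {i0} n), ∃ r' ∈ pc R n,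
      r = z + τ * r' := by
    intro n r hr
    obtain ⟨z, hz, r', hr', rfl⟩ := hiter m n r hr
    refine ⟨z, hz, Y i0 ^ a i1 * r', by
      convert mul_mem_pc (hVR _ (hpw (a i1))) hr' using 2; ring, ?_⟩
    rw [hτ, zpow_neg]
    have : Y i0 ^ (a i1) ≠ 0 := zpow_ne_zero _ (hY0 _)
    field_simp
  have hb0 : ∀ n, ∀ z ∈ Vs k Y' a {i0} n, z / Y i1 ∈ pc R (n - a i1) →
      z / Y i1 ∈ Vs k Y' a {i0} (n - a i1) := by
    intro n z hz hz'
    obtain ⟨M, hM⟩ : ∃ M : ℕ, ∀ M' : ℕ, M ≤ M' → z * Y i0 ^ M' ∈ Vs k Y' a ∅ (n + m * M') := by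
      clear hz'
      induction hz using Submodule.span_induction with
      | mem x hx =>
        obtain ⟨c, hc, hd, rfl⟩ := hx
        refine ⟨(c i0).natAbs, fun M' hM' => ?_⟩
        have := mon_mem_Vs (k := k) (Y := Y') (a := a) (I := ∅) (c := c + Pi.single i0 (M' : ℤ))
          (fun j _ => by
            by_cases hj : j = i0
            · subst hj; simp only [Pi.add_apply, Pi.single_eq_same]; omega
            · simpa [Pi.single_eq_of_ne hj] using hc j hj) (by rw [dg_add, dg_single, hd, hm])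
        rwa [mon_add, mon_single, zpow_natCast] at this
      | zero => exact ⟨0, fun _ _ => by simp⟩
      | add x y _ _ hx hy =>
        obtain ⟨M, hM⟩ := hx
        obtain ⟨M', hM'⟩ := hy
        exact ⟨M + M', fun M'' h => by
          rw [add_mul]; exact add_mem (hM _ (by omega)) (hM' _ (by omega))⟩
      | smul c x _ hx =>
        obtain ⟨M, hM⟩ := hx
        exact ⟨M, fun M' h => by rw [smul_mul_assoc]; exact Submodule.smul_mem _ _ (hM _ h)⟩
    have h1 := hM M le_rfl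
    rw [← hpcP, mem_pc, Algebra.adjoin_range_eq_range_aeval] at h1
    obtain ⟨p, hp⟩ := h1
    replace hp : MvPolynomial.aeval yP p = single (n + m * M) (z * Y i0 ^ M) := hp
    have h2 : (single (n + m * M) (z * Y i0 ^ M) : La L) =
        yP i1 * single (n - a i1 + m * M) (z / Y i1 * Y i0 ^ M) := by
      simp only [yP, single_mul_single]
      congr 1
      · ring
      · field_simp
    obtain ⟨p', rfl⟩ := hstar p (by
      rw [hp, h2]
      refine fB_mul _ ?_ _ (hRB (mul_mem_pc hz' (hVR _ (by simpa using hpw M))))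
      convert add_mem ((mem_fB _).2 (hYB i1)) ((mem_fB _).2 ⟨1, BR.one_mem, rfl⟩) using 1
      simp [yP])
    rw [map_mul, MvPolynomial.aeval_X, h2] at hp
    have h3 : z / Y i1 * Y i0 ^ M ∈ Vs k Y' a ∅ (n - a i1 + m * M) := by
      rw [← hpcP, mem_pc, Algebra.adjoin_range_eq_range_aeval]
      exact ⟨p', mul_left_cancel₀ ht' hp⟩
    convert hmulV (hV0 _ h3) (hpw (-M)) using 1
    · congr 1; ring
    · rw [zpow_neg, zpow_natCast, mul_inv_cancel_right₀ (pow_ne_zero _ (hY0 _))]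
  have := V0_finiteType (k := k) Y' a i0
  refine ⟨Y', ind_of_algInd hind, sf_of_param hA0 hO hτ0 hτA hτm (fun x hx => ?_)
    (fun z hz hz' => ?_), fun n => le_antisymm ?_ (sp_le (hVR n) fun o ho x hx => hOR o ho _ x hx)⟩
  · obtain ⟨z, hz, r', hr', e⟩ := hdec 0 x (by rw [hO0]; exact hx)
    rw [hO0] at hr'
    exact ⟨z, sp_le (Z := O0.toSubmodule) (le_loc (V0 k Y' a {i0}) O)
      (fun o ho x hx => O0.mul_mem ho hx) hz, r', hr', e⟩
  · have h1 : ∀ j : ℕ, j ≤ m → z / Y i1 ^ j ∈ Vs k Y' a {i0} (-(j * a i1)) := by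
      intro j
      induction j with
      | zero => intro _; simpa using mem_V0.1 hz
      | succ j ih =>
        intro hj
        obtain ⟨i, hi⟩ := Nat.exists_eq_add_of_le hj
        have h2 := hOR _ hz' _ _ (hVR _ (hmulV (hpowV hτ0V i) (hpw (-a i1))))
        have h3 := hb0 _ _ (ih (by omega)) (by
          convert h2 using 1
          · congr 1; rw [hi]; push_cast; ring
          · rw [hτ, hi]
            have : Y i0 ^ (-a i1) ≠ 0 := zpow_ne_zero _ (hY0 _)
            field_simp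
            ring)
        convert h3 using 1
        · congr 1; push_cast; ring
        · rw [pow_succ, div_div]
    rw [mem_V0]
    convert hmulV (h1 m le_rfl) (hpw (a i1)) using 1
    · congr 1; ring
    · rw [hτ, zpow_neg]
      have : Y i0 ^ (a i1) ≠ 0 := zpow_ne_zero _ (hY0 _)
      field_simp
  · obtain ⟨h, h0, hh⟩ := hfg n
    refine nakayama hO (fun o ho x hx => hOR o ho _ x hx) (fun o ho x hx => mul_mem_sp ho hx) h0 hh
      hτm fun x hx => ?_
    obtain ⟨z, hz, r', hr', e⟩ := hdec n x hx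
    exact ⟨z, sp_le_sp (loc_le hA0) (le_sp _ _) hz, r', hr', e⟩

end Pool.Agent.MP_19ffc6_ag.Wild
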