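import Pool.Agent.MP_19ffc6_ag.WildMain

/-! Resolution of singularities of the wild quotients `A^n / G`, for every finite group `G` inside
a one-parameter family `t ↦ ∑ b_r(t) N^r` with `N^p = 0`, in all dimensions. -/

open AlgebraicGeometry CategoryTheory

namespace Pool.Agent.MP_19ffc6_ag.WildOneParameter

theorem result (p : ℕ) (hp : p.Prime) (k : Type) [Field k] [CharP k p] (n : ℕ)
    (N : Matrix (Fin n) (Fin n) k) (hN : N ^ p = 0)
    (b : ℕ → Polynomial k) (hb : ∀ r, (b r).natDegree ≤ r) (hb0 : b 0 = 1)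
    (hb1 : b 1 = Polynomial.X)
    (G : Subgroup (Matrix.GeneralLinearGroup (Fin n) k)) (hfin : Finite G)
    (hG : ∀ g ∈ G, ∃ t : k, (g : Matrix (Fin n) (Fin n) k) =
      ∑ r ∈ Finset.range p, (b r).eval t • N ^ r)
    (A : Subalgebra k (MvPolynomial (Fin n) k))
    (hA : ∀ f, f ∈ A ↔ ∀ g ∈ G, MvPolynomial.aeval
      (fun i => ∑ j, (g : Matrix (Fin n) (Fin n) k) i j • MvPolynomial.X j) f = f) :
    ∃ (Y : Scheme.{0}) (sY : Y ⟶ Spec (CommRingCat.of k)) (f : Y ⟶ Spec (CommRingCat.of A)),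
      IsIntegral Y ∧ Smooth sY ∧ f ≫ Spec.map (CommRingCat.ofHom (algebraMap k A)) = sY ∧
      IsProper f ∧ ∃ V : (Spec (CommRingCat.of A)).Opens, V ≠ ⊥ ∧ IsIso (morphismRestrict f V) :=
  haveI := Fact.mk hp
  Pool.Agent.MP_19ffc6_ag.Wild.main p N hN b hb hb0 hb1 G hG A hA

end Pool.Agent.MP_19ffc6_ag.WildOneParameter
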