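import Pool.Agent.MP_19ffc6_ag.WildMono
import Pool.Agent.MP_19ffc6_ag.WildFix

/-! The weighted blow-up algebra of a nilpotent operator. -/

namespace Pool.Agent.MP_19ffc6_ag.Wild

open AddMonoidAlgebra Polynomial

attribute [-simp] LaurentPolynomial.single_eq_C_mul_T LaurentPolynomial.single_eq_C

variable {k L : Type} [Field k] [Field L] [Algebra k L]

/-- Homogenization of a polynomial. -/
noncomputable def hmg {D : Type} [CommRing D] [Algebra k D] (q : k[X]) (r : ℕ) (s : D) : D[X] :=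
  ∑ j ∈ Finset.range (r + 1), C (algebraMap k D (q.coeff j) * s ^ (r - j)) * X ^ j

lemma eval_hmg {D : Type} [CommRing D] [Algebra k D] {q : k[X]} {r : ℕ} (h : q.natDegree ≤ r)
    (s : D) (l : k) :
    (hmg q r s).eval (algebraMap k D l * s) = algebraMap k D (q.eval l) * s ^ r := by
  rw [hmg, eval_finsetSum, eval_eq_sum_range' (Nat.lt_succ_of_le h), map_sum, Finset.sum_mul]
  refine Finset.sum_congr rfl fun j hj => ?_
  obtain ⟨i, rfl⟩ := Nat.exists_eq_add_of_le (Nat.lt_succ_iff.1 (Finset.mem_range.1 hj))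
  simp only [eval_mul, eval_C, eval_pow, eval_X, map_mul, map_pow, Nat.add_sub_cancel_left]
  ring

lemma linearIndependent_single {κ : Type} (d : κ → ℤ) (v : κ → L)
    (h : ∀ n, LinearIndependent k fun i : {i // d i = n} => v i) :
    LinearIndependent k fun i => (single (d i) (v i) : La L) := by
  classical
  rw [linearIndependent_iff']
  intro s g hg i hi
  have h1 := congrArg (fun x : La L => x.coeff (d i)) hg
  simp only [AddMonoidAlgebra.coeff_sum, Finsupp.finsetSum_apply, smul_single, coeff_single,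
    Finsupp.single_apply, AddMonoidAlgebra.coeff_zero, Finsupp.zero_apply] at h1
  rw [← Finset.sum_filter, ← Finset.sum_subtype_eq_sum_filter] at h1
  exact linearIndependent_iff'.1 (h (d i)) _ (fun j => g j) h1 ⟨i, rfl⟩ (by simpa using hi)

/-- The image filtration. -/
noncomputable def Vm (V : Submodule k L) (N : L →ₗ[k] L) (m : ℕ) : Submodule k L := V.map (N ^ m)

/-- The cobordant weighted blow-up algebra. -/
noncomputable def Bal (V : Submodule k L) (N : L →ₗ[k] L) : Subalgebra k (La L) :=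
  Algebra.adjoin k ({single (-1) 1} ∪ {x | ∃ m : ℕ, ∃ φ ∈ Vm V N m, x = single (m : ℤ) φ})

lemma s_mem_Bal (V : Submodule k L) (N : L →ₗ[k] L) : single (-1) 1 ∈ Bal V N :=
  Algebra.subset_adjoin (Or.inl rfl)

lemma single_mem_Bal {V : Submodule k L} {N : L →ₗ[k] L} {m : ℕ} {φ : L} (h : φ ∈ Vm V N m) :
    single (m : ℤ) φ ∈ Bal V N := Algebra.subset_adjoin (Or.inr ⟨m, φ, h, rfl⟩)

lemma grd_Bal (V : Submodule k L) (N : L →ₗ[k] L) : Grd (Bal V N) :=
  grd_adjoin (by rintro _ (rfl | ⟨m, φ, -, rfl⟩) <;> exact ⟨_, _, rfl⟩)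

lemma pow_mem_Vm {V : Submodule k L} {N : L →ₗ[k] L} {m : ℕ} {φ : L} (h : φ ∈ Vm V N m) (r : ℕ) :
    (N ^ r) φ ∈ Vm V N (m + r) := by
  obtain ⟨ψ, hψ, rfl⟩ := h
  exact ⟨ψ, hψ, by rw [add_comm, pow_add]; rfl⟩

lemma Vm_zero (V : Submodule k L) (N : L →ₗ[k] L) : Vm V N 0 = V := by
  rw [Vm, pow_zero]; exact Submodule.map_id V

lemma single_eq_mul (m r : ℕ) (c : L) :
    (single (m : ℤ) c : La L) = single (-1) 1 ^ r * single ((m + r : ℕ) : ℤ) c := by
  rw [single_pow', single_mul_single]; simp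

variable (G : Type) [Group G] [Fintype G] [MulSemiringAction G L] [SMulCommClass G k L]

/-- The standing hypotheses. -/
structure Setting (p : ℕ) (V : Submodule k L) (N : L →ₗ[k] L) (b : ℕ → k[X]) (lam : G → k) :
    Prop where
  hN : ∀ φ ∈ V, N φ ∈ V
  hNp : ∀ φ ∈ V, (N ^ p) φ = 0
  hb : ∀ r, (b r).natDegree ≤ r
  hb0 : b 0 = 1
  hb1 : b 1 = X
  hlam : Function.Injective lam
  hact : ∀ g : G, ∀ φ ∈ V, g • φ = ∑ r ∈ Finset.range p, (b r).eval (lam g) • (N ^ r) φ
  hcard : ∃ e, Fintype.card G = p ^ e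
  hfin : FiniteDimensional k V
  hind : ∀ S : Set L, LinearIndepOn k id S → Submodule.span k S = V →
    AlgebraicIndependent k (Subtype.val : S → L)

variable {G} {p : ℕ} {V : Submodule k L} {N : L →ₗ[k] L} {b : ℕ → k[X]} {lam : G → k}

namespace Setting

lemma succ_le (H : Setting G p V N b lam) (m : ℕ) : Vm V N (m + 1) ≤ Vm V N m := by
  rintro _ ⟨ψ, hψ, rfl⟩
  exact ⟨N ψ, H.hN ψ hψ, by rw [pow_succ]; rfl⟩

lemma anti (H : Setting G p V N b lam) : Antitone (Vm V N) := antitone_nat_of_succ_le H.succ_le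

lemma le_V (H : Setting G p V N b lam) (m : ℕ) : Vm V N m ≤ V :=
  (H.anti (Nat.zero_le m)).trans (Vm_zero V N).le

lemma Vm_p (H : Setting G p V N b lam) : Vm V N p = ⊥ := by
  rw [eq_bot_iff]
  rintro _ ⟨ψ, hψ, rfl⟩
  exact H.hNp ψ hψ

lemma smul_mem (H : Setting G p V N b lam) (g : G) {m : ℕ} {φ : L} (h : φ ∈ Vm V N m) :
    g • φ ∈ Vm V N m := by
  rw [H.hact g φ (H.le_V m h)]
  exact Submodule.sum_mem _ fun r _ => Submodule.smul_mem _ _
    (H.anti (Nat.le_add_right m r) (pow_mem_Vm h r))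

lemma smul_single_eq (H : Setting G p V N b lam) (g : G) {m : ℕ} {φ : L} (h : φ ∈ Vm V N m) :
    g • (single (m : ℤ) φ : La L) = ∑ r ∈ Finset.range p,
      algebraMap k (La L) ((b r).eval (lam g)) * single (-1) 1 ^ r *
        single ((m + r : ℕ) : ℤ) ((N ^ r) φ) := by
  rw [smul_single, H.hact g φ (H.le_V m h)]
  have := map_sum (lsingle (R := k) (m : ℤ) : L →ₗ[k] La L)
    (fun r => (b r).eval (lam g) • (N ^ r) φ) (Finset.range p)
  refine this.trans (Finset.sum_congr rfl fun r _ => ?_)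
  rw [map_smul, lsingle_apply, single_eq_mul m r, Algebra.smul_def, mul_assoc]

lemma stable (H : Setting G p V N b lam) (g : G) : ∀ x ∈ Bal V N, g • x ∈ Bal V N := by
  intro x hx
  induction hx using Algebra.adjoin_induction with
  | mem x hx =>
    rcases hx with rfl | ⟨m, φ, h, rfl⟩
    · rw [smul_single, smul_one]; exact s_mem_Bal V N
    · rw [smul_single]; exact single_mem_Bal (H.smul_mem g h)
  | algebraMap r => rw [smul_algebraMap]; exact Subalgebra.algebraMap_mem _ r
  | add x y _ _ hx hy => rw [smul_add]; exact add_mem hx hy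
  | mul x y _ _ hx hy => rw [smul_mul']; exact mul_mem hx hy

lemma exists_basis (H : Setting G p V N b lam) (e : ℕ → L) (he : ∀ m, e m ∈ Vm V N m) :
    ∃ (S : Set L) (_ : Fintype S) (Y : Option S → Lˣ) (a : Option S → ℤ),
      Y none = 1 ∧ a none = -1 ∧ (∀ x : S, (Y (some x) : L) = x) ∧
      (∀ x : S, ∃ m : ℕ, a (some x) = m ∧ x.1 ∈ Vm V N m ∧ x.1 ∉ Vm V N (m + 1)) ∧
      Fintype.card (Option S) = Module.finrank k V + 1 ∧
      Bal V N = Algebra.adjoin k (Set.range fun j => (single (a j) (Y j : L) : La L)) ∧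
      AlgebraicIndependent k (fun j => (single (a j) (Y j : L) : La L)) ∧
      ∀ m, e m ∉ Vm V N (m + 1) → e m ∈ S := by
  classical
  obtain ⟨S, h1, h2, h3, h4⟩ := adapted (Vm V N) H.succ_le p H.Vm_p e he
  have hsp : Submodule.span k S = V := by
    have := h3 0
    rwa [Set.inter_eq_left.2 h2, Vm_zero] at this
  have := H.hfin
  have hfin : Finite S := by
    have : Module.Finite k (Submodule.span k (Set.range fun x : S => id x.1)) := by
      have : (Set.range fun x : S => id x.1) = S := Subtype.range_coe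
      rw [this, hsp]; infer_instance
    exact (linearIndependent_span h1).finite_of_isNoetherian
  let := Fintype.ofFinite S
  have hne : ∀ x : S, (x : L) ≠ 0 := fun x => h1.ne_zero x.2
  have hw : ∀ x : S, ∃ m : ℕ, x.1 ∈ Vm V N m ∧ x.1 ∉ Vm V N (m + 1) := by
    intro x
    by_contra hc
    push Not at hc
    have : ∀ m, x.1 ∈ Vm V N m := fun m => by
      induction m with
      | zero => exact h2 x.2
      | succ m ih => exact hc m ih
    exact hne x (by simpa [H.Vm_p] using this p)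
  choose w hw hw' using hw
  have hwle : ∀ (x : S) (m : ℕ), x.1 ∈ Vm V N m → m ≤ w x := fun x m hm => by
    by_contra h
    exact hw' x (H.anti (by omega) hm)
  let Y : Option S → Lˣ := fun j => j.elim 1 fun x => Units.mk0 x.1 (hne x)
  let a : Option S → ℤ := fun j => j.elim (-1) fun x => w x
  refine ⟨S, inferInstance, Y, a, rfl, rfl, fun _ => rfl, fun x => ⟨w x, rfl, hw x, hw' x⟩, ?_,
    le_antisymm (Algebra.adjoin_le ?_) (Algebra.adjoin_le ?_), ?_, h4⟩
  · rw [Fintype.card_option, ← hsp, finrank_span_set_eq_card h1, Set.toFinset_card]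
  · have hs : (single (-1) 1 : La L) ∈
        Algebra.adjoin k (Set.range fun j => (single (a j) (Y j : L) : La L)) :=
      Algebra.subset_adjoin ⟨none, rfl⟩
    rintro _ (rfl | ⟨m, φ, hφ, rfl⟩)
    · exact hs
    · rw [← h3 m] at hφ
      refine (Submodule.span_le.2 ?_ : _ ≤ pc (Algebra.adjoin k _) m) hφ
      rintro x ⟨hx, hx'⟩
      obtain ⟨r, hr⟩ := Nat.exists_eq_add_of_le (hwle ⟨x, hx⟩ m hx')
      rw [SetLike.mem_coe, mem_pc, single_eq_mul m r, ← hr]
      exact mul_mem (pow_mem hs _) (Algebra.subset_adjoin ⟨some ⟨x, hx⟩, rfl⟩)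
  · rintro _ ⟨j, rfl⟩
    cases j with
    | none => exact s_mem_Bal V N
    | some x => exact single_mem_Bal (hw x)
  · have h5 := (algInd_iff _).1 (H.hind S h1 hsp)
    rw [algInd_iff]
    have h6 : (fun s : Option S →₀ ℕ => s.prod fun i e => (single (a i) (Y i : L) : La L) ^ e) =
        fun s => single (dg a fun j => s j) (s.some.prod fun i e => (i : L) ^ e) := by
      ext1 s
      rw [Finsupp.prod_fintype _ _ (by simp), ← single_mon, Finsupp.prod_fintype _ _ (by simp)]
      simp [mon, Fintype.prod_option, Y]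
    rw [h6]
    refine linearIndependent_single _ _ fun n => h5.comp
      (fun s : {s : Option S →₀ ℕ // (dg a fun j => s j) = n} => s.1.some) fun s s' hs => ?_
    have h7 : ∀ x, s.1 (some x) = s'.1 (some x) := fun x => DFunLike.congr_fun hs x
    have h8 := s.2.trans s'.2.symm
    simp only [dg, Fintype.sum_option, h7, add_left_inj, a, Option.elim_none] at h8
    refine Subtype.ext (Finsupp.ext fun j => ?_)
    cases j with
    | none => omega
    | some x => exact h7 x

lemma finiteType (H : Setting G p V N b lam) : Algebra.FiniteType k (Bal V N) := by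
  obtain ⟨S, _, Y, a, -, -, -, -, -, h, -, -⟩ := H.exists_basis 0 fun _ => zero_mem _
  rw [h]
  exact ⟨(Subalgebra.fg_top _).2 (Subalgebra.fg_def.2 ⟨_, Set.finite_range _, rfl⟩)⟩

lemma formallySmooth (H : Setting G p V N b lam) : Algebra.FormallySmooth k (Bal V N) := by
  obtain ⟨S, _, Y, a, -, -, -, -, -, h, h', -⟩ := H.exists_basis 0 fun _ => zero_mem _
  rw [h]
  exact .of_equiv h'.aevalEquiv

lemma pos_mem (H : Setting G p V N b lam) {Q : Submodule k (La L)}
    (hQ : ∀ x ∈ Q, ∀ y ∈ Bal V N, x * y ∈ Q)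
    (h : ∀ m : ℕ, 0 < m → ∀ φ ∈ Vm V N m, single (m : ℤ) φ ∈ Q) {n : ℤ} (hn : 0 < n) {c : L}
    (hc : c ∈ pc (Bal V N) n) : single n c ∈ Q := by
  classical
  obtain ⟨S, _, Y, a, -, h2, h3, h4, -, h5, -, -⟩ := H.exists_basis 0 fun _ => zero_mem _
  rw [h5, pc_adjoin] at hc
  refine (Vs_le (Z := Q.comap (lsingle n)) fun c hc hd => ?_) hc
  obtain ⟨j, hj, hj'⟩ : ∃ j, 0 < a j ∧ 0 < c j := by
    by_contra H
    push Not at H
    have : dg a c ≤ 0 := Finset.sum_nonpos fun j _ => by
      by_cases hj : 0 < a j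
      · exact mul_nonpos_of_nonneg_of_nonpos hj.le (H j hj)
      · exact mul_nonpos_of_nonpos_of_nonneg (not_lt.1 hj) (hc j (Set.notMem_empty _))
    omega
  have h6 : mon Y (c - Pi.single j 1) ∈ pc (Bal V N) (n - a j) := by
    rw [h5, pc_adjoin]
    refine mon_mem_Vs (fun i _ => ?_) (by rw [dg_sub, dg_single, hd, mul_one])
    by_cases hi : i = j
    · subst hi; simp; omega
    · simpa [Pi.single_eq_of_ne hi] using hc i (Set.notMem_empty _)
  cases j with
  | none => omega
  | some x =>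
    obtain ⟨m, hm, hx, -⟩ := h4 x
    have := hQ _ (h m (by omega) _ hx) _ h6
    rw [single_mul_single, ← hm, add_sub_cancel, mon_sub, mon_single, zpow_one, ← h3,
      mul_div_cancel₀ _ (Units.ne_zero _)] at this
    exact this

end Setting

end Pool.Agent.MP_19ffc6_ag.Wild
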