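import Mathlib
import Pool.Agent.MP_19ffc6_ag.WildMon

/-! The inductive resolution of locally monomial graded models. -/

namespace Pool.Agent.MP_19ffc6_ag.Wild

variable {k L : Type} [Field k] [Field L] [Algebra k L]

/-- `O` is smooth over the degree zero part of a monomial algebra with a unit of degree at most
`W`, and `H` describes the graded pieces. -/
def Mod (W d : ℕ) (O : Subalgebra k L) (H : ℕ → Submodule k L) : Prop :=
  ∃ (ι : Type) (_ : Fintype ι) (Y : ι → Lˣ) (a : ι → ℤ) (i0 : ι), Fintype.card ι ≤ d ∧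
    a i0 ≠ 0 ∧ |a i0| ≤ W ∧ Ind k Y a ∧ SF (V0 k Y a {i0}) O ∧
    ∀ n : ℕ, 0 < n → n < W → sp O (H n) = sp O (Vs k Y a {i0} n)

lemma Mod.normalize {W d : ℕ} {O : Subalgebra k L} {H : ℕ → Submodule k L} (h : Mod W d O H) :
    ∃ w : ℕ, 0 < w ∧ w ≤ W ∧ ∀ ε : ℤ, ε = 1 ∨ ε = -1 →
    ∃ (ι : Type) (_ : Fintype ι) (Y : ι → Lˣ) (a : ι → ℤ) (i0 : ι), Fintype.card ι ≤ d ∧
    a i0 = ε * w ∧ (∀ j, j ≠ i0 → 0 ≤ a j ∧ a j < w) ∧ Ind k Y a ∧ SF (V0 k Y a {i0}) O ∧
    ∀ n : ℕ, 0 < n → n < W → sp O (H n) = sp O (Vs k Y a {i0} n) := by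
  classical
  obtain ⟨ι, _, Y, a, i0, hd, h0, hW, hI, hS, hH⟩ := h
  refine ⟨(a i0).natAbs, Int.natAbs_pos.2 h0,
    by rw [← Int.natCast_natAbs] at hW; exact_mod_cast hW, fun ε hε => ?_⟩
  let q : ι → ℤ := fun j => if j = i0 then ε * (a i0).sign - 1 else -(a j / a i0)
  have hs : (a i0).sign * (a i0).sign = 1 := by
    rcases lt_or_gt_of_ne h0 with h | h
    · rw [Int.sign_eq_neg_one_of_neg h]; rfl
    · rw [Int.sign_eq_one_of_pos h]; rfl
  have hq : (1 + q i0) * (1 + q i0) = 1 := by
    simp only [q, if_true]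
    rcases hε with rfl | rfl <;> linear_combination hs
  obtain ⟨h1, h2⟩ := shear (k := k) Y a i0 q hq
  refine ⟨ι, inferInstance, _, _, i0, hd, ?_, fun j hj => ?_, h2 hI, ?_, fun n hn hn' => ?_⟩
  · simp only [q, if_true]
    rw [← Int.sign_mul_self_eq_natAbs]; ring
  · have : a j + q j * a i0 = a j % a i0 := by
      simp only [q, if_neg hj]; rw [Int.emod_def]; ring
    simp only [this]
    exact ⟨Int.emod_nonneg _ h0, Int.emod_lt _ h0⟩
  · rwa [V0_congr (h1 0)]
  · rw [h1, hH n hn hn']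

lemma Mod.final {d : ℕ} {O : Subalgebra k L} {H : ℕ → Submodule k L} (h : Mod 1 d O H) :
    Algebra.FormallySmooth k O := by
  classical
  obtain ⟨w, hw, hw', h⟩ := h.normalize
  obtain rfl : w = 1 := by omega
  obtain ⟨ι, _, Y, a, i0, -, h0, ha, hI, hS, -⟩ := h 1 (Or.inl rfl)
  have ha0 : ∀ j, j ≠ i0 → a j = 0 := fun j hj => by have := ha j hj; omega
  have hdg : ∀ c, dg a c = c i0 := fun c => by
    rw [dg, Finset.sum_eq_single i0]
    · simp [h0]
    · intro j _ hj; simp [ha0 j hj]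
    · simp
  let y : {j // j ≠ i0} → L := fun j => Y j
  let φ : ({j // j ≠ i0} →₀ ℕ) → ι → ℤ := fun s j => if h : j = i0 then 0 else s ⟨j, h⟩
  have hφ : ∀ s, mon Y (φ s) = s.prod fun i e => y i ^ e := fun s => by
    rw [Finsupp.prod_fintype _ _ (by simp), mon, Fintype.prod_eq_mul_prod_subtype_ne _ i0]
    simp only [φ, dif_pos, zpow_zero, one_mul, Units.coe_prod, y]
    refine Finset.prod_congr rfl fun j _ => ?_
    rw [dif_neg j.2]; simp
  have hy : AlgebraicIndependent k y := by
    rw [algInd_iff]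
    simp only [← hφ]
    exact LinearIndependent.comp hI (fun s => ⟨φ s, by simp [hdg, φ]⟩) fun s s' e => by
      ext j
      have := congrFun (congrArg Subtype.val e) j
      simpa [φ, j.2] using this
  have hV : V0 k Y a {i0} = Algebra.adjoin k (Set.range y) := by
    apply le_antisymm
    · intro x hx
      refine (Vs_le (Z := (Algebra.adjoin k (Set.range y)).toSubmodule) fun c hc hn => ?_) hx
      have : c = φ (Finsupp.equivFunOnFinite.symm fun j => (c j).toNat) := by
        ext j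
        by_cases hj : j = i0
        · subst hj; simp [φ, ← hdg, hn]
        · simp [φ, hj, hc j hj]
      rw [this, hφ]
      exact Subalgebra.prod_mem _ fun j _ => pow_mem (Algebra.subset_adjoin (Set.mem_range_self j)) _
    · refine Algebra.adjoin_le ?_
      rintro _ ⟨j, rfl⟩
      have := mon_mem_Vs (k := k) (Y := Y) (a := a) (cn_single {i0} j.1 (e := 1) fun _ => zero_le_one)
        (by rw [dg_single, ha0 _ j.2, zero_mul])
      rwa [mon_single, zpow_one] at this
  have : Algebra.FormallySmooth k (V0 k Y a {i0}) := by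
    rw [hV]; exact .of_equiv hy.aevalEquiv
  exact hS.formallySmooth

/-- Products of elements of degrees in `(0, W)`. -/
inductive Gen (H : ℕ → Submodule k L) (W : ℕ) : ℕ → L → Prop
  | one : Gen H W 0 1
  | mul {n j : ℕ} {x y : L} : 0 < j → j < W → x ∈ H j → Gen H W n y → Gen H W (n + j) (x * y)

/-- The degree `n` part of the algebra generated by the degrees in `(0, W)`. -/
def gen (H : ℕ → Submodule k L) (W n : ℕ) : Submodule k L := Submodule.span k {x | Gen H W n x}

lemma mul_gen_le (H : ℕ → Submodule k L) {W j : ℕ} (h0 : 0 < j) (hj : j < W) (n : ℕ) :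
    H j * gen H W n ≤ gen H W (n + j) := by
  refine Submodule.mul_le.2 fun x hx y hy => ?_
  induction hy using Submodule.span_induction with
  | mem y hy => exact Submodule.subset_span (Gen.mul h0 hj hx hy)
  | zero => simp
  | add a b _ _ ha hb => rw [mul_add]; exact add_mem ha hb
  | smul c a _ ha => rw [mul_smul_comm]; exact Submodule.smul_mem _ _ ha

lemma gen_le {H : ℕ → Submodule k L} {A : Subalgebra k L} (h : ∀ n, H n ≤ A.toSubmodule)
    (W n : ℕ) : gen H W n ≤ A.toSubmodule := by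
  refine Submodule.span_le.2 fun x hx => ?_
  induction hx with
  | one => exact one_mem A
  | mul _ _ hx _ ih => exact A.mul_mem (h _ hx) ih

lemma gen_ne_bot {H : ℕ → Submodule k L} (h : H 1 ≠ ⊥) {W : ℕ} (hW : 1 < W) (n : ℕ) :
    gen H W n ≠ ⊥ := by
  obtain ⟨x, hx, hx0⟩ := (Submodule.ne_bot_iff _).1 h
  refine (Submodule.ne_bot_iff _).2 ⟨x ^ n, Submodule.subset_span ?_, pow_ne_zero _ hx0⟩
  induction n with
  | zero => simpa using Gen.one
  | succ n ih => rw [pow_succ']; exact Gen.mul one_pos hW hx ih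

variable {ι : Type} [Fintype ι]

lemma sp_gen {H : ℕ → Submodule k L} {W : ℕ} {O : Subalgebra k L} {Y : ι → Lˣ} {a : ι → ℤ}
    {I : Set ι} (h0 : V0 k Y a I ≤ O)
    (hH : ∀ n : ℕ, 0 < n → n < W → sp O (H n) = sp O (Vs k Y a I n))
    (hsplit : ∀ c, Cn I c → (W : ℤ) ≤ dg a c → 0 < dg a c →
      ∃ c1, Cn I c1 ∧ Cn I (c - c1) ∧ 0 < dg a c1 ∧ dg a c1 < W) (n : ℕ) :
    sp O (gen H W n) = sp O (Vs k Y a I n) := by
  apply le_antisymm
  · refine sp_le_sp le_rfl (Submodule.span_le.2 fun x hx => ?_)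
    induction hx with
    | one => exact le_sp _ _ (one_mem_Vs _ _ _)
    | @mul n j x y hj hj' hx _ ih =>
      have h1 : x ∈ sp O (Vs k Y a I j) := hH j hj hj' ▸ le_sp _ _ hx
      have := Submodule.mul_mem_mul h1 ih
      rw [← sp_mul] at this
      refine sp_le_sp le_rfl ((Vs_mul_le _ _ _ _ _).trans ?_) this
      rw [add_comm]; push_cast; exact le_sp _ _
  · refine sp_le_sp le_rfl (Vs_le fun c hc hn => ?_)
    have key : ∀ (m j : ℕ) (c1 c2 : ι → ℤ), 0 < j → j < W → Cn I c1 → dg a c1 = j →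
        mon Y c2 ∈ sp O (gen H W m) → mon Y (c1 + c2) ∈ sp O (gen H W (m + j)) := by
      intro m j c1 c2 hj hj' hc1 hd h2
      have h1 : mon Y c1 ∈ sp O (H j) := hH j hj hj' ▸ le_sp _ _ (mon_mem_Vs hc1 hd)
      have := Submodule.mul_mem_mul h1 h2
      rw [← sp_mul] at this
      rw [mon_add]
      exact sp_le_sp le_rfl ((mul_gen_le H hj hj' m).trans (le_sp _ _)) this
    have hone : (1 : L) ∈ sp O (gen H W 0) := le_sp _ _ (Submodule.subset_span Gen.one)
    induction n using Nat.strong_induction_on generalizing c with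
    | _ n ih =>
      rcases Nat.eq_zero_or_pos n with rfl | hn0
      · simpa using mul_mem_sp (h0 (mon_mem_Vs hc hn)) hone
      by_cases hW : n < W
      · simpa using key 0 n c 0 hn0 hW hc hn (by rwa [mon_zero])
      obtain ⟨c1, h1, h2, h3, h4⟩ := hsplit c hc (by omega) (by omega)
      obtain ⟨j, hj⟩ := Int.eq_ofNat_of_zero_le h3.le
      have := key (n - j) j c1 (c - c1) (by omega) (by omega) h1 hj
        (ih (n - j) (by omega) _ h2 (by rw [dg_sub]; omega))
      rwa [add_sub_cancel, Nat.sub_add_cancel (by omega)] at this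

lemma chart_step [DecidableEq ι] {O O' : Subalgebra k L} {Y : ι → Lˣ} {a : ι → ℤ} {I : Set ι}
    {J : Submodule k L} {N : ℕ} {h : L} (hS : SF (V0 k Y a I) O)
    (hJ : sp O J = sp O (Vs k Y a I N)) (hh : h ∈ J) (hP : IsPoint (chart O J h) O')
    {i : ι} {r : ℕ} (hr : a i * r = N) (hr0 : 0 < r) (hu : Un O' ((Y i : L) ^ r / h))
    (hext : ∀ c, Cn I c → (2 * N : ℤ) ≤ dg a c → ∃ c1, Cn I c1 ∧ Cn I (c - c1) ∧ dg a c1 = N)
    (he : ∃ e, Cn I e ∧ dg a e = 0 ∧ (i ∉ I → 0 < e i)) :
    SF (V0 k Y a (insert i I)) O' ∧ ∀ n : ℕ, sp O' (Vs k Y a I (n + N)) =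
      sp O' (Submodule.span k {(Y i : L) ^ r} * Vs k Y a (insert i I) n) := by
  set m : L := (Y i : L) ^ r with hm
  have hm0 : m ≠ 0 := pow_ne_zero _ (Units.ne_zero _)
  have hh0 : h ≠ 0 := fun e => hu.2.1 (by simp [e])
  have hOO' : O ≤ O' := (le_chart _ _ _).trans hP.le
  let s : ι → ℤ := Pi.single i r
  have hs : mon Y s = m := by rw [mon_single, zpow_natCast]
  have hsd : dg a s = N := by rw [dg_single, hr]
  have hs' : ∀ j, j ≠ i → s j = 0 := fun j hj => Pi.single_eq_of_ne hj _
  have hdiv : ∀ x ∈ Vs k Y a I N, x / m ∈ O' := by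
    intro x hx
    have h1 : x ∈ sp O J := hJ ▸ le_sp _ _ hx
    have h2 := div_mem_of_mem_sp hOO' (fun x hx => hP.le (div_mem_chart O h hx)) h1
    have : x / m = x / h * (m / h)⁻¹ := by field_simp
    rw [this]; exact mul_mem h2 hu.2.2
  have hshift : ∀ (c e : ι → ℤ), Cn (insert i I) c → Cn I e → (i ∉ I → 0 < e i) →
      ∀ t : ℕ, (c i).natAbs ≤ t → Cn I (c + t • e) := by
    intro c e hc he hei t ht j hj
    by_cases hji : j = i
    · subst hji
      have := hei hj
      change 0 ≤ c j + t • e j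
      rw [nsmul_eq_mul]
      have h3 : (t : ℤ) * 1 ≤ t * e j := mul_le_mul_of_nonneg_left this (by positivity)
      omega
    · exact add_nonneg (hc j (by simp [hji, hj])) (nsmul_nonneg (he j hj) t)
  have hK : ∀ (n : ℕ) (c : ι → ℤ), Cn (insert i I) c → dg a c = n →
      m * mon Y c ∈ sp O' (Vs k Y a I (n + N)) := by
    intro n
    have : ∀ (t : ℕ) (c : ι → ℤ), Cn I c → dg a c = n + N + t * N →
        mon Y c / m ^ t ∈ sp O' (Vs k Y a I (n + N)) := by
      intro t
      induction t with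
      | zero => intro c hc hd; simpa using le_sp _ _ (mon_mem_Vs hc (by simpa using hd))
      | succ t ih =>
        intro c hc hd
        obtain ⟨c1, h1, h2, h3⟩ := hext c hc (by
          rw [hd]; push_cast
          have : (0 : ℤ) ≤ t * N := by positivity
          linarith)
        have := mul_mem_sp (hdiv _ (mon_mem_Vs h1 h3))
          (ih _ h2 (by rw [dg_sub, hd, h3]; push_cast; ring))
        convert this using 1
        rw [mon_sub, pow_succ]
        have := mon_ne_zero Y c1
        field_simp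
    intro c hc hd
    have h1 := this (c i).natAbs _ (hshift c s hc (cn_single _ _ fun _ => by positivity)
      (fun _ => by simpa [s] using hr0) ((c i).natAbs + 1) (by omega))
      (by rw [dg_add, dg_nsmul, hd, hsd]; push_cast; ring)
    convert h1 using 1
    rw [mon_add, mon_nsmul, hs, pow_succ]
    field_simp
  have hD : V0 k Y a (insert i I) ≤ O' := by
    intro x hx
    refine (Vs_le (Z := O'.toSubmodule) fun c hc hn => ?_) hx
    have := div_mem_of_mem_sp le_rfl hdiv (by simpa using hK 0 c hc hn)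
    rwa [mul_div_cancel_left₀ _ hm0] at this
  have hsub : ∀ (n : ℕ) (c : ι → ℤ), Cn I c → dg a c = n + N →
      mon Y c / m ∈ Vs k Y a (insert i I) n := by
    intro n c hc hd
    rw [← hs, ← mon_sub]
    refine mon_mem_Vs (fun j hj => ?_) (by rw [dg_sub, hd, hsd]; ring)
    simp only [Set.mem_insert_iff, not_or] at hj
    simpa [hs' j hj.1] using hc j hj.2
  constructor
  · have h1 : SF (V0 k Y a (insert i I)) (O ⊔ V0 k Y a (insert i I)) := by
      refine hS.baseChange (fun x hx => ?_) fun x hx => ?_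
      · exact (Vs_le fun c hc hn => mon_mem_Vs (hc.mono (Set.subset_insert _ _)) hn) hx
      · obtain ⟨e, he1, he2, he3⟩ := he
        induction hx using Submodule.span_induction with
        | mem x hx =>
          obtain ⟨c, hc, hd, rfl⟩ := hx
          refine ⟨mon Y ((c i).natAbs • e), mon_mem_Vs (he1.nsmul _) (by rw [dg_nsmul, he2, mul_zero]),
            mon_ne_zero _ _, ?_⟩
          rw [← mon_add, add_comm]
          exact mon_mem_Vs (hshift c e hc he1 he3 _ le_rfl) 
            (by rw [dg_add, dg_nsmul, he2, hd, mul_zero, add_zero])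
        | zero => exact ⟨1, one_mem _, one_ne_zero, by simp⟩
        | add x y _ _ hx hy =>
          obtain ⟨d, hd, hd0, hx⟩ := hx
          obtain ⟨d', hd', hd0', hy⟩ := hy
          refine ⟨d * d', mul_mem hd hd', mul_ne_zero hd0 hd0', ?_⟩
          convert add_mem (mul_mem hd' hx) (mul_mem hd hy) using 1
          ring
        | smul c x _ hx =>
          obtain ⟨d, hd, hd0, hx⟩ := hx
          exact ⟨d, hd, hd0, by rw [mul_smul_comm]; exact Subalgebra.smul_mem _ hx c⟩
    refine h1.trans (IsPoint.sf (hP.of_le_loc (sup_le hOO' hD) ?_))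
    have h2 : ∀ x ∈ J, x / m ∈ O ⊔ V0 k Y a (insert i I) := by
      intro x hx
      refine div_mem_of_mem_sp le_sup_left (fun x hx => ?_) (hJ ▸ le_sp _ _ hx)
      refine div_mem_of_mem_span ?_ hx
      rintro _ ⟨c, hc, hd, rfl⟩
      exact (le_sup_right : V0 k Y a (insert i I) ≤ _) (hsub 0 c hc (by simpa using hd))
    refine chart_le (le_sup_left.trans (le_loc _ _)) fun x hx => ?_
    refine ⟨_, h2 x hx, _, h2 h hh, by simpa using hu.inv, ?_⟩
    field_simp
  · intro n
    apply le_antisymm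
    · refine sp_le_sp le_rfl (Vs_le fun c hc hd => le_sp _ _ ?_)
      have := Submodule.mul_mem_mul (Submodule.mem_span_singleton_self (R := k) m) (hsub n c hc hd)
      rwa [mul_div_cancel₀ _ hm0] at this
    · refine sp_le_sp le_rfl ?_
      rw [Vs, Submodule.span_mul_span, Submodule.span_le]
      rintro _ ⟨_, rfl, _, ⟨c, hc, hd, rfl⟩, rfl⟩
      exact hK n c hc hd

lemma mod_of_chart [DecidableEq ι] {O' : Subalgebra k L} {Y : ι → Lˣ} {a : ι → ℤ} {i : ι}
    {W d N : ℕ} {G : ℕ → Submodule k L} (m : Lˣ) (hd : Fintype.card ι ≤ d) (h0 : a i ≠ 0)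
    (hW : |a i| ≤ W) (hI : Ind k Y a) (hS : SF (V0 k Y a {i}) O')
    (hG : ∀ n : ℕ, sp O' (G (n + N)) =
      sp O' (Submodule.span k {(m : L)} * Vs k Y a {i} n)) :
    Mod W d O' fun n => G (n + N) * G N ^ (n - 1) := by
  refine ⟨ι, inferInstance, fun j => Y j * m ^ a j, a, i, hd, h0, hW, hI.twist m,
    by rwa [V0_twist], fun n hn _ => ?_⟩
  have h1 : sp O' (G N) = sp O' (Submodule.span k {(m : L)}) := by
    have := hG 0
    rw [zero_add] at this
    rw [this, sp_mul]
    have h2 : sp O' (Vs k Y a {i} (0 : ℕ)) = sp O' 1 := by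
      apply le_antisymm
      · refine sp_le_sp le_rfl fun x hx => ?_
        simpa using mul_mem_sp (hS.le hx) (le_sp O' 1 (Submodule.one_le.1 le_rfl))
      · exact sp_le_sp le_rfl ((Submodule.one_le.2 (one_mem_Vs _ _ _)).trans (le_sp _ _))
    rw [h2, ← sp_mul, mul_one]
  rw [sp_mul, hG, sp_pow_congr h1, ← sp_mul, Vs_twist, Submodule.span_pow, Set.singleton_pow,
    mul_right_comm, Submodule.span_mul_span, Set.singleton_mul_singleton, ← pow_succ',
    Nat.sub_add_cancel hn, zpow_natCast]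

lemma Mod.step {W d : ℕ} {O O' : Subalgebra k L} {H : ℕ → Submodule k L}
    (hM : Mod (W + 1) d O H) {h : L} (hh : h ∈ gen H (W + 1) (d * (W + 1).factorial)) (hh0 : h ≠ 0)
    (hP : IsPoint (chart O (gen H (W + 1) (d * (W + 1).factorial)) h) O') :
    Mod W d O' fun n => gen H (W + 1) (n + d * (W + 1).factorial) *
      gen H (W + 1) (d * (W + 1).factorial) ^ (n - 1) := by
  classical
  set D := (W + 1).factorial with hD
  have hD0 : 0 < D := Nat.factorial_pos _
  have hOO' : O ≤ O' := (le_chart _ _ _).trans hP.le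
  have hdvd : ∀ b : ℤ, 0 < b → b ≤ W + 1 → b ∣ D := by
    intro b hb hb'
    obtain ⟨b, rfl⟩ := Int.eq_ofNat_of_zero_le hb.le
    exact Int.natCast_dvd_natCast.2 (Nat.dvd_factorial (by omega) (by omega))
  have hr : ∀ b : ℤ, 0 < b → b ≤ W + 1 → 0 < d → ∃ r : ℕ, 0 < r ∧ b * r = (d * D : ℕ) := by
    intro b hb hb' hd
    obtain ⟨r, hr⟩ := (hdvd b hb hb').mul_left d
    have h1 : 0 < b * r := by rw [← hr]; positivity
    have h2 : 0 < r := (mul_pos_iff_of_pos_left hb).1 h1
    obtain ⟨r, rfl⟩ := Int.eq_ofNat_of_zero_le h2.le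
    exact ⟨r, by omega, by rw [← hr]; push_cast; rfl⟩
  obtain ⟨w, hw, hw', hM⟩ := hM.normalize
  by_cases hwW : w ≤ W
  · obtain ⟨ι, _, Y, a, i0, hd, h0, ha, hI, hS, hH⟩ := hM 1 (Or.inl rfl)
    rw [one_mul] at h0
    have hd0 : 0 < d := lt_of_lt_of_le (Fintype.card_pos_iff.2 ⟨i0⟩) hd
    have hcn : ∀ (c : ι → ℤ) (e : ℤ), Cn {i0} c → Cn {i0} (c - Pi.single i0 e) :=
      fun c e hc j hj => by simpa [Pi.single_eq_of_ne (show j ≠ i0 from hj)] using hc j hj
    have hG := sp_gen hS.le hH fun c hc _ _ => ⟨Pi.single i0 1,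
      cn_single _ _ fun _ => zero_le_one, hcn _ _ hc, by rw [dg_single]; omega,
      by rw [dg_single]; omega⟩
    obtain ⟨r, hr0, hr⟩ := hr (a i0) (by omega) (by omega) hd0
    have hu : Un O' ((Y i0 : L) ^ r / h) := by
      have h1 : (Y i0 : L) ^ r ∈ sp O (gen H (W + 1) (d * D)) := by
        rw [hG, ← zpow_natCast, ← mon_single]
        exact le_sp _ _ (mon_mem_Vs (cn_single _ _ fun _ => by positivity) (by rw [dg_single, hr]))
      refine ⟨div_mem_of_mem_sp hOO' (fun x hx => hP.le (div_mem_chart O h hx)) h1,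
        div_ne_zero (pow_ne_zero _ (Units.ne_zero _)) hh0, ?_⟩
      rw [inv_div]
      refine div_mem_of_mem_sp hOO' (fun x hx => ?_) (hG _ ▸ le_sp _ _ hh)
      refine div_mem_of_mem_span ?_ hx
      rintro _ ⟨c, hc, hd, rfl⟩
      rw [← zpow_natCast, ← mon_single, ← mon_sub]
      exact hOO' (hS.le (mon_mem_Vs (hcn _ _ hc) (by rw [dg_sub, dg_single, hr, hd, sub_self])))
    obtain ⟨h1, h2⟩ := chart_step hS (hG _) hh hP hr hr0 hu
      (fun c hc _ => ⟨Pi.single i0 r, cn_single _ _ fun _ => by positivity, hcn _ _ hc,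
        by rw [dg_single, hr]⟩) ⟨0, fun _ _ => le_rfl, dg_zero _, fun h => absurd rfl h⟩
    rw [Set.pair_eq_singleton] at h1 h2
    refine mod_of_chart (Y i0 ^ r) hd (by omega) (by rw [abs_le]; omega) hI h1 fun n => ?_
    rw [sp_congr hOO' (hG _)]
    push_cast
    simpa using h2 n
  · obtain rfl : w = W + 1 := by omega
    obtain ⟨ι, _, Y, a, i0, hd, h0, ha, hI, hS, hH⟩ := hM (-1) (Or.inr rfl)
    have hd0 : 0 < d := lt_of_lt_of_le (Fintype.card_pos_iff.2 ⟨i0⟩) hd
    have hVs : ∀ n : ℕ, n < W + 1 → Vs k Y a {i0} n = Vs k Y a ∅ n := by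
      intro n hn
      refine le_antisymm (Vs_le fun c hc hd => mon_mem_Vs (fun j _ => ?_) hd)
        (Vs_le fun c hc hd => mon_mem_Vs (hc.mono (Set.empty_subset _)) hd)
      by_cases hj : j = i0
      · subst hj
        rw [dg, Fintype.sum_eq_add_sum_subtype_ne _ j, h0] at hd
        have h1 : 0 ≤ ∑ i : {i // i ≠ j}, a i * c i :=
          Finset.sum_nonneg fun i _ => mul_nonneg (ha _ i.2).1 (hc _ i.2)
        by_contra h2
        have h3 : c j ≤ -1 := by omega
        push_cast at hd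
        nlinarith
      · exact hc j hj
    rw [V0_congr (hVs 0 (by omega))] at hS
    have hpos : ∀ j, 0 < a j → j ≠ i0 := by
      rintro j hj rfl
      omega
    have hex : ∀ c, Cn ∅ c → 0 < dg a c → ∃ j, 0 < a j ∧ 0 < c j := by
      intro c hc hd
      by_contra H
      push Not at H
      have : dg a c ≤ 0 := Finset.sum_nonpos fun j _ => by
        by_cases hj : 0 < a j
        · exact mul_nonpos_of_nonneg_of_nonpos hj.le (H j hj)
        · exact mul_nonpos_of_nonpos_of_nonneg (not_lt.1 hj) (hc j (Set.notMem_empty _))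
      omega
    have hG := sp_gen (I := ∅) hS.le (fun n hn hn' => by rw [hH n hn hn', hVs n hn'])
      fun c hc _ hd => by
        obtain ⟨j, hj, hj'⟩ := hex c hc hd
        refine ⟨Pi.single j 1, cn_single _ _ fun _ => zero_le_one, fun i _ => ?_,
          by rw [dg_single]; omega, by rw [dg_single]; have := ha j (hpos j hj); omega⟩
        by_cases hi : i = j
        · subst hi; simp; omega
        · simpa [Pi.single_eq_of_ne hi] using hc i (Set.notMem_empty _)
    have hdiv : ∀ x ∈ Vs k Y a ∅ (d * D : ℕ), x / h ∈ O' := fun x hx => by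
      refine div_mem_of_mem_sp hOO' (fun x hx => hP.le (div_mem_chart O h hx)) ?_
      rw [hG]; exact le_sp _ _ hx
    have hh' : h ∈ sp O' (Vs k Y a ∅ (d * D : ℕ)) := by
      rw [← sp_congr hOO' (hG _)]; exact le_sp _ _ hh
    obtain ⟨_, ⟨c, hc, hcd, rfl⟩, hu⟩ := exists_un_of_span hP.lcl hh0
      (fun x hx => hdiv x (Submodule.subset_span hx)) hh'
    have hN0 : 0 < d * D := Nat.mul_pos hd0 hD0
    obtain ⟨i, hai, hci⟩ := hex c hc (by omega)
    have hext : ∀ c, Cn ∅ c → (2 * (d * D : ℕ) : ℤ) ≤ dg a c →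
        ∃ c1, Cn ∅ c1 ∧ Cn ∅ (c - c1) ∧ dg a c1 = (d * D : ℕ) := by
      intro c hc h2
      refine extract a D hD0 (fun j hj => hdvd _ hj ?_) d c hc (le_trans ?_ h2)
      · have := ha j (hpos j hj); omega
      · have : (Fintype.card ι : ℤ) * D ≤ d * D :=
          mul_le_mul_of_nonneg_right (by exact_mod_cast hd) (by positivity)
        push_cast; linarith
    have hpow : ∀ (t : ℕ) (c : ι → ℤ), Cn ∅ c → dg a c = t * (d * D : ℕ) →
        mon Y c / h ^ t ∈ O' := by
      intro t
      induction t with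
      | zero => intro c hc hd; simpa using hOO' (hS.le (mon_mem_Vs hc (by simpa using hd)))
      | succ t ih =>
        intro c hc hd
        rcases Nat.eq_zero_or_pos t with rfl | ht
        · simpa using hdiv _ (mon_mem_Vs hc (by simpa using hd))
        obtain ⟨c1, h1, h2, h3⟩ := hext c hc (by
          rw [hd]; exact mul_le_mul_of_nonneg_right (by omega) (by positivity))
        have := mul_mem (hdiv _ (mon_mem_Vs h1 h3))
          (ih _ h2 (by rw [dg_sub, hd, h3]; push_cast; ring))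
        convert this using 1
        rw [mon_sub, pow_succ]
        have := mon_ne_zero Y c1
        field_simp
    have hai' := ha i (hpos i hai)
    obtain ⟨r, hr0, hr⟩ := hr (a i) hai (by omega) hd0
    have hu' : Un O' ((Y i : L) ^ r / h) := by
      obtain ⟨r, rfl⟩ : ∃ r', r = r' + 1 := ⟨r - 1, by omega⟩
      have h1 := hdiv _ (mon_mem_Vs (Y := Y) (cn_single ∅ i (e := (r + 1 : ℕ)) fun _ => by positivity)
        (by rw [dg_single, hr]))
      have h2 := hpow r ((r + 1) • c - Pi.single i ((r + 1 : ℕ) : ℤ)) (fun j _ => by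
        by_cases hj : j = i
        · subst hj
          simp only [Pi.sub_apply, Pi.single_eq_same, Pi.smul_apply]
          rw [nsmul_eq_mul]
          have : ((r + 1 : ℕ) : ℤ) * 1 ≤ (r + 1 : ℕ) * c j :=
            mul_le_mul_of_nonneg_left hci (by positivity)
          omega
        · simp only [Pi.sub_apply, Pi.single_eq_of_ne hj, Pi.smul_apply, sub_zero]
          exact nsmul_nonneg (hc j (Set.notMem_empty _)) _)
        (by rw [dg_sub, dg_nsmul, dg_single, hr, hcd]; push_cast; ring)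
      rw [mon_single, zpow_natCast] at h1
      refine Un.of_mul h1 h2 ?_
      convert hu.pow (r + 1) using 1
      rw [mon_sub, mon_nsmul, mon_single, zpow_natCast, div_pow, pow_succ h]
      have := (Y i).ne_zero
      field_simp
    obtain ⟨h1, h2⟩ := chart_step hS (hG _) hh hP hr hr0 hu' hext
      ⟨Pi.single i (W + 1 : ℕ) + Pi.single i0 (a i), (cn_single _ _ fun _ => by positivity).add
        (cn_single _ _ fun _ => hai.le), by rw [dg_add, dg_single, dg_single, h0]; ring,
        fun _ => by simp [Pi.single_eq_of_ne (hpos i hai)]⟩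
    rw [insert_empty_eq] at h1 h2
    refine mod_of_chart (Y i ^ r) hd (by omega) (by rw [abs_le]; omega) hI h1 fun n => ?_
    rw [sp_congr hOO' (hG _)]
    push_cast
    simpa using h2 n

theorem resolve (d : ℕ) (A : Subalgebra k L) (W : ℕ) : ∀ (M : Submodule k L)
    (H : ℕ → Submodule k L), M ≤ A.toSubmodule → M ≠ ⊥ → (∀ n, H n ≤ A.toSubmodule) → H 1 ≠ ⊥ →
    (∀ O, Pt A M O → Mod (W + 1) d O H) →
    ∃ M' ≤ A.toSubmodule, M' ≠ ⊥ ∧ ∀ O, Pt A M' O → Algebra.FormallySmooth k O := by
  induction W with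
  | zero => exact fun M H h1 h2 _ _ h => ⟨M, h1, h2, fun O hO => (h O hO).final⟩
  | succ W ih =>
    intro M H h1 h2 h3 h4 h
    have hA : ∀ X Z : Submodule k L, X ≤ A.toSubmodule → Z ≤ A.toSubmodule →
        X * Z ≤ A.toSubmodule := fun X Z hX hZ =>
      Submodule.mul_le.2 fun x hx z hz => A.mul_mem (hX hx) (hZ hz)
    have hne : ∀ X Z : Submodule k L, X ≠ ⊥ → Z ≠ ⊥ → X * Z ≠ ⊥ := fun X Z hX hZ => by
      simp [Submodule.mul_eq_bot, hX, hZ]
    refine ih (M * gen H (W + 2) (d * (W + 2).factorial))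
      (fun n => gen H (W + 2) (n + d * (W + 2).factorial) *
        gen H (W + 2) (d * (W + 2).factorial) ^ (n - 1))
      (hA _ _ h1 (gen_le h3 _ _)) (hne _ _ h2 (gen_ne_bot h4 (by omega) _))
      (fun n => hA _ _ (gen_le h3 _ _) ?_) (by simpa using gen_ne_bot h4 (by omega) _) ?_
    · induction (n - 1) with
      | zero => simpa using A.one_mem
      | succ m ihm => rw [pow_succ]; exact hA _ _ ihm (gen_le h3 _ _)
    · intro O' hO'
      obtain ⟨O, g, hg, hO, hg0, hP⟩ := hO'.of_mul
      exact (h O hO).step hg hg0 hP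

end Pool.Agent.MP_19ffc6_ag.Wild
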